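import Mathlib

set_option autoImplicit false

namespace Pool.Agent.Hhelper53.Hyper

open SimpleGraph Function

/-- `φ` is an injective homomorphism from `F` to `G`. -/
def IsEmb {α β : Type*} (F : SimpleGraph α) (G : SimpleGraph β) (φ : α → β) : Prop :=
  Injective φ ∧ ∀ a b, F.Adj a b → G.Adj (φ a) (φ b)

/-- The number of injective homomorphisms `F → G` avoiding the vertex `v`. -/
noncomputable def J {α β : Type*} (F : SimpleGraph α) (G : SimpleGraph β) (v : β) : ℕ :=
  Nat.card {φ : α → β // IsEmb F G φ ∧ ∀ a, φ a ≠ v}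

/-- Counting by fibres. -/
lemma card_eq_sum_fiber {X Y : Type*} [Finite X] [Fintype Y] (f : X → Y) :
    Nat.card X = ∑ y : Y, Nat.card {x // f x = y} := by
  rw [← Nat.card_sigma]
  exact Nat.card_congr (Equiv.sigmaFiberEquiv f).symm

/-- Splitting functions on `α` along a subset `U`, when the number of ways to complete a given
function on `U` is constant. -/
lemma card_factor {α β : Type*} [Finite α] [Finite β] (U : α → Prop) (P : (α → β) → Prop)
    (P1 : ({a // U a} → β) → Prop) (P2 : ({a // U a} → β) → ({a // ¬ U a} → β) → Prop) (E : ℕ)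
    (hP : ∀ φ, P φ ↔ P1 (fun a => φ a) ∧ P2 (fun a => φ a) (fun a => φ a))
    (hE : ∀ ψ, P1 ψ → Nat.card {ρ // P2 ψ ρ} = E) :
    Nat.card {φ // P φ} = Nat.card {ψ // P1 ψ} * E := by
  classical
  have : Fintype {ψ // P1 ψ} := Fintype.ofFinite _
  rw [card_eq_sum_fiber (fun φ : {φ // P φ} =>
    (⟨fun a => φ.1 a, ((hP φ.1).1 φ.2).1⟩ : {ψ // P1 ψ}))]
  rw [Finset.sum_congr rfl (g := fun _ => E), Finset.sum_const, Finset.card_univ,
    Nat.card_eq_fintype_card, smul_eq_mul]
  intro ψ _
  rw [← hE ψ.1 ψ.2]
  apply Nat.card_congr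
  exact
    { toFun := fun x => ⟨fun a => x.1.1 a, by
        have h := ((hP x.1.1).1 x.1.2).2
        have h3 := congrArg Subtype.val x.2
        exact (congrArg (fun t => P2 t (fun a => x.1.1 a)) h3).mp h⟩
      invFun := fun ρ => ⟨⟨fun a => if h : U a then ψ.1 ⟨a, h⟩ else ρ.1 ⟨a, h⟩, by
        rw [hP]
        have h1 : (fun a : {a // U a} => (if h : U a then ψ.1 ⟨a, h⟩ else ρ.1 ⟨a, h⟩)) = ψ.1 := by
          funext a
          simp [a.2]
        have h2 : (fun a : {a // ¬ U a} => (if h : U a then ψ.1 ⟨a, h⟩ else ρ.1 ⟨a, h⟩)) = ρ.1 := by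
          funext a
          simp [a.2]
        rw [h1, h2]
        exact ⟨ψ.2, ρ.2⟩⟩, by
        apply Subtype.ext
        funext a
        simp [a.2]⟩
      left_inv := by
        rintro ⟨⟨φ, hφ⟩, hx⟩
        apply Subtype.ext
        apply Subtype.ext
        funext a
        have h2 := congrArg Subtype.val hx
        by_cases h : U a
        · simp only [h, dite_true]
          exact (congrFun h2 ⟨a, h⟩).symm
        · simp [h]
      right_inv := by
        rintro ⟨ρ, h2⟩
        apply Subtype.ext
        funext a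
        simp [a.2] }

/-- Domination: if `N(u) \ {v} ⊆ N(v)` and there is `y ~ v`, `y ≁ u`, and enough common room to
place a copy of `F` through the edge `vy`, then `J v < J u`. -/
lemma J_lt_of_dominated {α β : Type*} [Fintype α] [Finite β] (F : SimpleGraph α)
    (G : SimpleGraph β) (u v y : β) (Q : Finset β) (huv : u ≠ v)
    (hN : ∀ x, G.Adj u x → x ≠ v → G.Adj v x) (hvy : G.Adj v y) (hyu : y ≠ u)
    (huy : ¬ G.Adj u y) (hQ : Fintype.card α ≤ Q.card)
    (hQc : ∀ x ∈ Q, ∀ x' ∈ Q, x ≠ x' → G.Adj x x') (hQv : ∀ x ∈ Q, G.Adj v x)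
    (hQy : ∀ x ∈ Q, G.Adj y x) (hQu : u ∉ Q) (hF : ∃ a b, F.Adj a b) :
    J F G v < J F G u := by
  classical
  obtain ⟨a0, b0, hab⟩ := hF
  unfold J
  let f : {φ : α → β // IsEmb F G φ ∧ ∀ a, φ a ≠ v} → {φ : α → β // IsEmb F G φ ∧ ∀ a, φ a ≠ u} :=
    fun φ => ⟨fun a => Equiv.swap u v (φ.1 a), by
      obtain ⟨φ, ⟨hinj, hhom⟩, hav⟩ := φ
      refine ⟨⟨(Equiv.swap u v).injective.comp hinj, ?_⟩, ?_⟩
      · intro a b h
        have hadj := hhom a b h
        by_cases h1 : φ a = u
        · have h2 : φ b ≠ u := by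
            intro h2
            rw [h1, h2] at hadj
            exact G.loopless.irrefl _ hadj
          show G.Adj (Equiv.swap u v (φ a)) (Equiv.swap u v (φ b))
          rw [h1, Equiv.swap_apply_left, Equiv.swap_apply_of_ne_of_ne h2 (hav b)]
          rw [h1] at hadj
          exact hN _ hadj (hav b)
        · by_cases h2 : φ b = u
          · show G.Adj (Equiv.swap u v (φ a)) (Equiv.swap u v (φ b))
            rw [h2, Equiv.swap_apply_left, Equiv.swap_apply_of_ne_of_ne h1 (hav a)]
            rw [h2] at hadj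
            exact (hN _ hadj.symm (hav a)).symm
          · show G.Adj (Equiv.swap u v (φ a)) (Equiv.swap u v (φ b))
            rw [Equiv.swap_apply_of_ne_of_ne h1 (hav a), Equiv.swap_apply_of_ne_of_ne h2 (hav b)]
            exact hadj
      · intro a h
        have : φ a = v := by
          have h3 : Equiv.swap u v (φ a) = u := h
          have h4 := congrArg (Equiv.swap u v) h3
          rw [Equiv.swap_apply_self, Equiv.swap_apply_left] at h4
          exact h4
        exact hav a this⟩
  have hf : Injective f := by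
    rintro ⟨φ, h1⟩ ⟨φ', h2⟩ h
    apply Subtype.ext
    funext a
    have h3 := congrFun (congrArg Subtype.val h) a
    exact (Equiv.swap u v).injective h3
  -- a copy through the edge `v y`
  have hvQ : v ∉ Q := fun h => G.loopless.irrefl _ (hQv v h)
  have hyQ : y ∉ Q := fun h => G.loopless.irrefl _ (hQy y h)
  have hvy' : v ≠ y := G.ne_of_adj hvy
  obtain ⟨g⟩ : Nonempty (α ↪ Q) := by
    apply Function.Embedding.nonempty_of_card_le
    simpa using hQ
  let χ : α → β := fun a => if a = a0 then v else if a = b0 then y else (g a : β)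
  have hab' : a0 ≠ b0 := F.ne_of_adj hab
  have hg : ∀ a, (g a : β) ∈ Q := fun a => (g a).2
  have hgi : ∀ a b, (g a : β) = (g b : β) → a = b := fun a b h => g.injective (Subtype.ext h)
  have hχ : IsEmb F G χ := by
    constructor
    · intro a b h
      simp only [χ] at h
      split_ifs at h with h1 h2 h3 h4 h5 h6 h7 h8
      · rw [h1, h2]
      · exact absurd h hvy'
      · exact absurd (h ▸ hg b) hvQ
      · exact absurd h.symm hvy'
      · rw [h4, h6]
      · exact absurd (h ▸ hg b) hyQ
      · exact absurd (h ▸ hg a) hvQ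
      · exact absurd (h ▸ hg a) hyQ
      · exact hgi a b h
    · intro a b h
      have hne := F.ne_of_adj h
      simp only [χ]
      split_ifs with h1 h2 h3 h4 h5 h6 h7 h8
      · exact absurd (h1.trans h2.symm) hne
      · exact hvy
      · exact hQv _ (hg b)
      · exact hvy.symm
      · exact absurd (h4.trans h6.symm) hne
      · exact hQy _ (hg b)
      · exact (hQv _ (hg a)).symm
      · exact (hQy _ (hg a)).symm
      · exact hQc _ (hg a) _ (hg b) (fun h' => hne (hgi _ _ h'))
  have hχu : ∀ a, χ a ≠ u := by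
    intro a
    simp only [χ]
    split_ifs with h1 h2
    · exact huv.symm
    · exact hyu
    · exact fun h => hQu (h ▸ hg a)
  have hns : ¬ Surjective f := by
    intro hs
    obtain ⟨⟨φ, ⟨hinj, hhom⟩, hav⟩, hφ⟩ := hs ⟨χ, hχ, hχu⟩
    have h1 : ∀ a, Equiv.swap u v (φ a) = χ a := fun a => congrFun (congrArg Subtype.val hφ) a
    have h2 : ∀ a, φ a = Equiv.swap u v (χ a) := fun a => by
      rw [← h1 a, Equiv.swap_apply_self]
    have h3 := hhom a0 b0 hab
    rw [h2, h2] at h3
    have h4 : χ a0 = v := by simp [χ]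
    have h5 : χ b0 = y := by simp [χ, hab'.symm]
    rw [h4, h5, Equiv.swap_apply_right, Equiv.swap_apply_of_ne_of_ne hyu hvy'.symm] at h3
    exact huy h3
  have i1 : Fintype {φ : α → β // IsEmb F G φ ∧ ∀ a, φ a ≠ v} := Fintype.ofFinite _
  have i2 : Fintype {φ : α → β // IsEmb F G φ ∧ ∀ a, φ a ≠ u} := Fintype.ofFinite _
  rw [Nat.card_eq_fintype_card, Nat.card_eq_fintype_card]
  exact Fintype.card_lt_of_injective_not_surjective f hf hns

/-- Removing an isolated vertex from `F` multiplies `J` by a constant. -/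
lemma J_isolated {α β : Type*} [Fintype α] [Fintype β] (F : SimpleGraph α)
    (G : SimpleGraph β) (v : β) (a₀ : α) (ha : ∀ b, ¬ F.Adj a₀ b) :
    J F G v = J (F.induce {a | a ≠ a₀}) G v * (Fintype.card β - Fintype.card α) := by
  classical
  unfold J
  have h := card_factor (fun a => a ∈ {a : α | a ≠ a₀})
    (fun φ : α → β => IsEmb F G φ ∧ ∀ a, φ a ≠ v)
    (fun ψ => IsEmb (F.induce {a | a ≠ a₀}) G ψ ∧ ∀ a, ψ a ≠ v)
    (fun ψ ρ => ∀ b, ρ b ≠ v ∧ ∀ a, ψ a ≠ ρ b) (Fintype.card β - Fintype.card α) ?_ ?_
  · exact h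
  · intro φ
    constructor
    · rintro ⟨⟨hinj, hhom⟩, hav⟩
      refine ⟨⟨⟨fun a b hab => Subtype.ext (hinj hab), fun a b hab => hhom _ _ hab⟩,
        fun a => hav _⟩, fun b => ⟨hav _, fun a hab => ?_⟩⟩
      have := hinj hab
      exact b.2 (this ▸ a.2)
    · rintro ⟨⟨⟨hinj, hhom⟩, hav⟩, h2⟩
      have key : ∀ a, a = a₀ ∨ a ≠ a₀ := fun a => em _
      refine ⟨⟨?_, ?_⟩, ?_⟩
      · intro a b hab
        rcases key a with h1 | h1 <;> rcases key b with h3 | h3
        · rw [h1, h3]
        · exact absurd hab.symm ((h2 ⟨a, fun h => h h1⟩).2 ⟨b, h3⟩)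
        · exact absurd hab ((h2 ⟨b, fun h => h h3⟩).2 ⟨a, h1⟩)
        · exact congrArg Subtype.val (@hinj ⟨a, h1⟩ ⟨b, h3⟩ hab)
      · intro a b hab
        have h1 : a ≠ a₀ := by
          rintro rfl
          exact ha _ hab
        have h3 : b ≠ a₀ := by
          rintro rfl
          exact ha _ hab.symm
        exact hhom ⟨a, h1⟩ ⟨b, h3⟩ hab
      · intro a
        rcases key a with h1 | h1
        · exact (h2 ⟨a, fun h => h h1⟩).1
        · exact hav ⟨a, h1⟩
  · rintro ψ ⟨⟨hinj, hhom⟩, hav⟩
    -- the complement is a singleton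
    have e : {ρ : {a // ¬ a ∈ {a : α | a ≠ a₀}} → β // ∀ b, ρ b ≠ v ∧ ∀ a, ψ a ≠ ρ b} ≃
        {x : β // x ∉ insert v (Finset.univ.image ψ)} :=
      { toFun := fun ρ => ⟨ρ.1 ⟨a₀, by simp⟩, by
          have := ρ.2 ⟨a₀, by simp⟩
          simp only [Finset.mem_insert, Finset.mem_image, Finset.mem_univ, true_and, not_or,
            not_exists]
          exact ⟨this.1, this.2⟩⟩
        invFun := fun x => ⟨fun _ => x.1, by
          have := x.2
          simp only [Finset.mem_insert, Finset.mem_image, Finset.mem_univ, true_and, not_or,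
            not_exists] at this
          exact fun b => this⟩
        left_inv := by
          rintro ⟨ρ, h⟩
          apply Subtype.ext
          funext b
          have : b = ⟨a₀, by simp⟩ := by
            apply Subtype.ext
            have := b.2
            simpa using this
          rw [this]
        right_inv := by
          rintro ⟨x, h⟩
          rfl }
    rw [Nat.card_congr e, Nat.card_eq_fintype_card]
    have hc := Fintype.card_subtype_compl (fun x => x ∈ insert v (Finset.univ.image ψ))
    rw [hc, Fintype.card_coe, Finset.card_insert_of_notMem, Finset.card_image_of_injective _ hinj,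
      Finset.card_univ]
    · have key : ∀ (inst : Fintype ↑{a : α | a ≠ a₀}), @Fintype.card _ inst + 1 = Fintype.card α := by
        intro inst
        have h1 := Fintype.card_subtype_compl (fun x => x = a₀)
        have h2 : Fintype.card {x // x = a₀} = 1 := by simp
        have h3 : 0 < Fintype.card α := Fintype.card_pos_iff.2 ⟨a₀⟩
        have h4 : @Fintype.card _ inst = Fintype.card {x // ¬ x = a₀} :=
          Fintype.card_congr (Equiv.refl _)
        omega
      have hk := key inferInstance
      convert (rfl : Fintype.card β - (Fintype.card ↑{a : α | a ≠ a₀} + 1) = _) using 2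
      exact hk.symm
    · simp only [Finset.mem_image, Finset.mem_univ, true_and, not_exists]
      exact hav

end Pool.Agent.Hhelper53.Hyper
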