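import Pool.Agent.Hhelper53.Hyper.Ties

set_option autoImplicit false
set_option linter.unusedSectionVars false

namespace Pool.Agent.Hhelper53.Hyper

open SimpleGraph Function

/-- Index set of the top clique. -/
abbrev Wt (S : ℕ) : Type :=
  {p : Fin (S + 1) × Fin (S + 1) // p.2 ≤ p.1 ∧ ¬ (p.1.val = S ∧ p.2.val = 0)}

/-- The bipartite relation. -/
def BB (S : ℕ) (p : Wt S) (x : Fin (S + 1)) : Prop := p.1.1 < x ∨ p.1.2 = x

lemma DD_lt (S : ℕ) (x x' : Fin (S + 1)) (h : x < x') : DD (BB S) x < DD (BB S) x' := by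
  classical
  unfold DD
  rw [Nat.card_eq_fintype_card, Nat.card_eq_fintype_card]
  have hx' : 0 < x'.val := by
    have : x.val < x'.val := h
    omega
  let g : {p // BB S p x} → {p // BB S p x'} := fun p =>
    if hp : BB S p.1 x' then ⟨p.1, hp⟩ else
      ⟨⟨(p.1.1.1, x'), by
        have h1 : ¬ (p.1.1.1 < x' ∨ p.1.1.2 = x') := hp
        push Not at h1
        refine ⟨h1.1, ?_⟩
        simp only [not_and]
        intro _
        omega⟩, Or.inr rfl⟩
  have hg1 : ∀ p, BB S p.1 x' → (g p).1 = p.1 := by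
    intro p hp
    simp only [g]
    rw [dif_pos hp]
  have hg2 : ∀ p, ¬ BB S p.1 x' → (g p).1.1 = (p.1.1.1, x') := by
    intro p hp
    simp only [g]
    rw [dif_neg hp]
  have hnot : ∀ p : {p // BB S p x}, ∀ j : Fin (S + 1), x' ≤ j → p.1.1 ≠ (j, x') := by
    intro p j hj heq
    have h1 : p.1.1.1 < x ∨ p.1.1.2 = x := p.2
    rw [heq] at h1
    rcases h1 with h1 | h1
    · exact absurd (h1.trans h) (not_lt.2 hj)
    · exact absurd h1 (by simpa using h.ne')
  have hinj : Injective g := by
    intro p q hpq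
    have hpq' : (g p).1.1 = (g q).1.1 := by rw [hpq]
    apply Subtype.ext
    apply Subtype.ext
    by_cases h1 : BB S p.1 x' <;> by_cases h2 : BB S q.1 x'
    · rw [hg1 p h1, hg1 q h2] at hpq'
      exact hpq'
    · rw [hg1 p h1, hg2 q h2] at hpq'
      have h3 : ¬ (q.1.1.1 < x' ∨ q.1.1.2 = x') := h2
      push Not at h3
      exact absurd hpq' (hnot p _ h3.1)
    · rw [hg2 p h1, hg1 q h2] at hpq'
      have h3 : ¬ (p.1.1.1 < x' ∨ p.1.1.2 = x') := h1
      push Not at h3
      exact absurd hpq'.symm (hnot q _ h3.1)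
    · rw [hg2 p h1, hg2 q h2] at hpq'
      have h3 : ¬ (p.1.1.1 < x' ∨ p.1.1.2 = x') := h1
      have h4 : ¬ (q.1.1.1 < x' ∨ q.1.1.2 = x') := h2
      push Not at h3 h4
      have h5 : p.1.1.1 < x ∨ p.1.1.2 = x := p.2
      have h6 : q.1.1.1 < x ∨ q.1.1.2 = x := q.2
      have h7 : p.1.1.2 = x := by
        rcases h5 with h5 | h5
        · exact absurd (h5.trans h) (not_lt.2 h3.1)
        · exact h5
      have h8 : q.1.1.2 = x := by
        rcases h6 with h6 | h6
        · exact absurd (h6.trans h) (not_lt.2 h4.1)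
        · exact h6
      refine Prod.ext ?_ (h7.trans h8.symm)
      have h9 := congrArg Prod.fst hpq'
      exact h9
  refine Fintype.card_lt_of_injective_not_surjective g hinj ?_
  intro hs
  by_cases hx0 : x.val = 0
  · -- missing element (S, x')
    obtain ⟨p, hp⟩ := hs ⟨⟨(⟨S, by omega⟩, x'), by
      refine ⟨?_, ?_⟩
      · rw [Fin.le_def]
        have := x'.2
        simp only
        omega
      · simp only [not_and]
        intro _
        omega⟩, Or.inr rfl⟩
    have hp' := congrArg (fun t => t.1.1) hp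
    by_cases h1 : BB S p.1 x'
    · rw [hg1 p h1] at hp'
      refine hnot p _ ?_ hp'
      rw [Fin.le_def]
      have := x'.2
      simp only
      omega
    · rw [hg2 p h1] at hp'
      have h2 : p.1.1.1 = ⟨S, by omega⟩ := congrArg Prod.fst hp'
      have h5 : p.1.1.1 < x ∨ p.1.1.2 = x := p.2
      rcases h5 with h5 | h5
      · have := Fin.lt_def.1 h5
        omega
      · have h6 := p.1.2.2
        apply h6
        rw [h2, h5]
        exact ⟨rfl, hx0⟩
  · -- missing element (x, 0)
    obtain ⟨p, hp⟩ := hs ⟨⟨(x, 0), by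
      refine ⟨Fin.zero_le _, ?_⟩
      simp only [not_and]
      intro h1
      have h2 : x.val < x'.val := h
      have := x'.2
      omega⟩, Or.inl h⟩
    have hp' := congrArg (fun t => t.1.1) hp
    by_cases h1 : BB S p.1 x'
    · rw [hg1 p h1] at hp'
      have h5 : p.1.1.1 < x ∨ p.1.1.2 = x := p.2
      rw [hp'] at h5
      rcases h5 with h5 | h5
      · exact lt_irrefl _ h5
      · apply hx0
        have := congrArg Fin.val h5
        simpa using this.symm
    · rw [hg2 p h1] at hp'
      have h2 : x' = 0 := congrArg Prod.snd hp'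
      rw [h2] at hx'
      simp at hx'

lemma le_DD (S : ℕ) (x : Fin (S + 1)) : S ≤ DD (BB S) x := by
  classical
  unfold DD
  rw [Nat.card_eq_fintype_card]
  have h : Fintype.card (Fin S) ≤ Fintype.card {p // BB S p x} := by
    refine Fintype.card_le_of_injective (fun j : Fin S =>
      if hj : j.val < x.val then ⟨⟨(⟨j.val, by omega⟩, 0), by
          refine ⟨Fin.zero_le _, ?_⟩
          simp only [not_and]
          have := j.2
          intro h
          omega⟩, Or.inl hj⟩
      else ⟨⟨(⟨j.val, by omega⟩, x), by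
          refine ⟨?_, ?_⟩
          · rw [Fin.le_def]
            simp only
            omega
          · simp only [not_and]
            have := j.2
            intro h
            omega⟩, Or.inr rfl⟩) ?_
    intro j j' hjj
    have h1 := congrArg (fun t => t.1.1.1.val) hjj
    simp only at h1
    apply Fin.ext
    split_ifs at h1 <;> simpa using h1
  simpa using h

lemma DD_le_card {Z W : Type} [Fintype W] (B : W → Z → Prop) (x : Z) : DD B x ≤ Fintype.card W := by
  unfold DD
  rw [← Nat.card_eq_fintype_card]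
  exact Nat.card_le_card_of_injective _ Subtype.val_injective

lemma SS_BB (S : ℕ) (f : ℕ → ℤ) (p : Wt S) :
    SS (BB S) f p = (∑ x : Fin (S + 1), if p.1.1 < x then f (DD (BB S) x) else 0) +
      f (DD (BB S) p.1.2) := by
  classical
  unfold SS
  have h1 : ∀ x : Fin (S + 1), (if BB S p x then f (DD (BB S) x) else 0) =
      (if p.1.1 < x then f (DD (BB S) x) else 0) + (if p.1.2 = x then f (DD (BB S) x) else 0) := by
    intro x
    unfold BB
    by_cases h2 : p.1.1 < x
    · have h3 : ¬ p.1.2 = x := by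
        intro h3
        have := p.2.1
        rw [h3] at this
        exact absurd h2 (not_lt.2 this)
      simp [h2, h3]
    · simp [h2]
  rw [Finset.sum_congr rfl (fun x _ => h1 x), Finset.sum_add_distrib]
  simp

lemma dW_eq_SS {Z W : Type} [Fintype Z] (B : W → Z → Prop) (p : W) :
    (dW B p : ℤ) = SS B (fk 0) p := by
  classical
  unfold dW SS fk
  rw [Nat.card_eq_fintype_card, Fintype.card_subtype, Finset.card_filter]
  push_cast
  rfl

lemma SS_lt (S k : ℕ) (hk : k < S) (p p' : Wt S) (h : p'.1.1 < p.1.1) :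
    SS (BB S) (fk k) p < SS (BB S) (fk k) p' := by
  classical
  rw [SS_BB, SS_BB]
  have hmono : ∀ x x' : Fin (S + 1), x ≤ x' →
      fk k (DD (BB S) x) ≤ fk k (DD (BB S) x') := by
    intro x x' hx
    have h1 : DD (BB S) x ≤ DD (BB S) x' := by
      rcases hx.eq_or_lt with h | h
      · rw [h]
      · exact (DD_lt S x x' h).le
    unfold fk
    have : (DD (BB S) x - 1).descFactorial k ≤ (DD (BB S) x' - 1).descFactorial k :=
      Nat.descFactorial_le k (by omega)
    exact_mod_cast this
  have hpos : ∀ x : Fin (S + 1), 0 < fk k (DD (BB S) x) := by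
    intro x
    unfold fk
    have h1 := le_DD S x
    have : 0 < (DD (BB S) x - 1).descFactorial k := Nat.descFactorial_pos.2 (by omega)
    exact_mod_cast this
  have h1 : (∑ x : Fin (S + 1), if p.1.1 < x then fk k (DD (BB S) x) else 0) +
      fk k (DD (BB S) p.1.1) ≤ ∑ x : Fin (S + 1), if p'.1.1 < x then fk k (DD (BB S) x) else 0 := by
    have h2 : fk k (DD (BB S) p.1.1) =
        ∑ x : Fin (S + 1), if p.1.1 = x then fk k (DD (BB S) x) else 0 := by simp
    rw [h2, ← Finset.sum_add_distrib]
    refine Finset.sum_le_sum fun x _ => ?_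
    have h3 := hpos x
    by_cases h4 : p.1.1 < x
    · have h5 : p'.1.1 < x := h.trans h4
      have h6 : ¬ p.1.1 = x := h4.ne
      simp [h4, h5, h6]
    · by_cases h6 : p.1.1 = x
      · have h5 : p'.1.1 < x := by rw [← h6]; exact h
        simp [h5, h6]
      · simp only [h4, h6, if_false, add_zero]
        split_ifs
        · exact h3.le
        · exact le_refl _
  have h7 := hmono p.1.2 p.1.1 p.2.1
  have h8 := hpos p'.1.2
  linarith

lemma Tie_BB (S : ℕ) (p p' : Wt S) (h1 : p.1.1 = p'.1.1) (h2 : p.1.2 < p'.1.2) :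
    Tie (BB S) p p' (DD (BB S) p.1.2) (DD (BB S) p'.1.2) := by
  refine ⟨?_, DD_lt S _ _ h2, fun f => ?_⟩
  · have h3 : (dW (BB S) p : ℤ) = dW (BB S) p' := by
      rw [dW_eq_SS, dW_eq_SS, SS_BB, SS_BB, h1]
      simp [fk]
    exact_mod_cast h3
  · rw [SS_BB, SS_BB, h1]
    ring

end Pool.Agent.Hhelper53.Hyper
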