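import Pool.Agent.Hhelper53.Hyper.Main

set_option autoImplicit false

namespace Pool.Agent.Hhelper53.Hyper

open SimpleGraph Function

/-- Number of embeddings through `v` in terms of subgraphs isomorphic to `F` through `v`. -/
lemma card_emb_through {α β : Type} [Finite α] [Finite β] (F : SimpleGraph α) (G : SimpleGraph β)
    (v : β) :
    Nat.card {φ : α → β // IsEmb F G φ ∧ ∃ a, φ a = v} =
      Nat.card {S : G.Subgraph // v ∈ S.verts ∧ Nonempty (S.coe ≃g F)} * Nat.card (F ≃g F) := by
  classical
  have : Finite G.Subgraph := by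
    have : Finite β := inferInstance
    exact Finite.of_injective (fun S : G.Subgraph => (S.verts, S.Adj))
      (fun S T h => by
        simp only [Prod.mk.injEq] at h
        exact Subgraph.ext h.1 h.2)
  have hfin : ∀ S : G.Subgraph, Finite (F ≃g S.coe) := fun S =>
    Finite.of_injective (fun e : F ≃g S.coe => (e : α → S.verts)) DFunLike.coe_injective
  have : Fintype {S : G.Subgraph // v ∈ S.verts ∧ Nonempty (S.coe ≃g F)} := Fintype.ofFinite _
  let g : (Σ S : {S : G.Subgraph // v ∈ S.verts ∧ Nonempty (S.coe ≃g F)}, (F ≃g S.1.coe)) →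
      {φ : α → β // IsEmb F G φ ∧ ∃ a, φ a = v} := fun x =>
    ⟨fun a => (x.2 a : β), ⟨fun a b h => x.2.injective (Subtype.ext h), fun a b h =>
      x.1.1.adj_sub (x.2.map_adj_iff.2 h)⟩, ⟨x.2.symm ⟨v, x.1.2.1⟩, by simp⟩⟩
  have hg : Bijective g := by
    constructor
    · rintro ⟨⟨S, hS⟩, e⟩ ⟨⟨T, hT⟩, e'⟩ h
      have h1 : ∀ a, (e a : β) = (e' a : β) := fun a => congrFun (congrArg Subtype.val h) a
      have h2 : S = T := by
        apply Subgraph.ext
        · ext x
          constructor
          · intro hx
            have : x = (e (e.symm ⟨x, hx⟩) : β) := by simp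
            rw [this, h1]
            exact (e' _).2
          · intro hx
            have : x = (e' (e'.symm ⟨x, hx⟩) : β) := by simp
            rw [this, ← h1]
            exact (e _).2
        · ext x y
          constructor
          · intro hxy
            have hx := S.edge_vert hxy
            have hy := S.edge_vert hxy.symm
            have h3 : F.Adj (e.symm ⟨x, hx⟩) (e.symm ⟨y, hy⟩) := e.symm.map_adj_iff.2 hxy
            have h4 : T.coe.Adj _ _ := e'.map_adj_iff.2 h3
            have h5 : T.Adj (e' (e.symm ⟨x, hx⟩)) (e' (e.symm ⟨y, hy⟩)) := h4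
            rw [← h1, ← h1] at h5
            simpa using h5
          · intro hxy
            have hx := T.edge_vert hxy
            have hy := T.edge_vert hxy.symm
            have h3 : F.Adj (e'.symm ⟨x, hx⟩) (e'.symm ⟨y, hy⟩) := e'.symm.map_adj_iff.2 hxy
            have h4 : S.coe.Adj _ _ := e.map_adj_iff.2 h3
            have h5 : S.Adj (e (e'.symm ⟨x, hx⟩)) (e (e'.symm ⟨y, hy⟩)) := h4
            rw [h1, h1] at h5
            simpa using h5
      subst h2
      congr 1
      apply RelIso.ext
      intro a
      exact Subtype.ext (h1 a)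
    · rintro ⟨φ, ⟨hinj, hhom⟩, a, ha⟩
      let c : Copy F G := ⟨⟨φ, fun {a b} h => hhom a b h⟩, hinj⟩
      refine ⟨⟨⟨c.toSubgraph, ?_, ⟨c.isoToSubgraph.symm⟩⟩, c.isoToSubgraph⟩, ?_⟩
      · simp only [Copy.toSubgraph, Subgraph.map_verts, Subgraph.verts_top, Set.image_univ]
        exact ⟨a, ha⟩
      · apply Subtype.ext
        funext b
        rfl
  rw [← Nat.card_congr (Equiv.ofBijective g hg), Nat.card_sigma]
  rw [Finset.sum_congr rfl (g := fun _ => Nat.card (F ≃g F)), Finset.sum_const, Finset.card_univ,
    smul_eq_mul, ← Nat.card_eq_fintype_card]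
  rintro ⟨S, hS, ⟨e⟩⟩ _
  exact Nat.card_congr
    { toFun := fun f => f.trans e
      invFun := fun f => f.trans e.symm
      left_inv := fun f => by ext a; simp
      right_inv := fun f => by ext a; simp }

/-- If the numbers of copies of `F` through `v` and `v'` are equal then `J` agrees on `v`, `v'`. -/
lemma J_eq_of_copies {α β : Type} [Finite α] [Finite β] (F : SimpleGraph α) (G : SimpleGraph β)
    (v v' : β)
    (h : Nat.card {S : G.Subgraph // v ∈ S.verts ∧ Nonempty (S.coe ≃g F)} =
      Nat.card {S : G.Subgraph // v' ∈ S.verts ∧ Nonempty (S.coe ≃g F)}) :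
    J F G v = J F G v' := by
  classical
  have key : ∀ u : β, Nat.card {φ : α → β // IsEmb F G φ} =
      Nat.card {φ : α → β // IsEmb F G φ ∧ ∃ a, φ a = u} + J F G u := by
    intro u
    unfold J
    rw [← Nat.card_sum]
    apply Nat.card_congr
    refine (Equiv.sumCompl (fun φ : {φ : α → β // IsEmb F G φ} => ∃ a, φ.1 a = u)).symm.trans
      (Equiv.sumCongr ?_ ?_)
    · exact Equiv.subtypeSubtypeEquivSubtypeInter (fun φ : α → β => IsEmb F G φ)
        (fun φ => ∃ a, φ a = u)
    · refine (Equiv.subtypeSubtypeEquivSubtypeInter (fun φ : α → β => IsEmb F G φ)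
        (fun φ => ¬ ∃ a, φ a = u)).trans (Equiv.subtypeEquivRight ?_)
      intro φ
      simp
  have h1 := key v
  have h2 := key v'
  rw [card_emb_through] at h1 h2
  rw [h] at h1
  omega

/-- `J` is invariant under relabelling. -/
lemma J_comap {α β γ : Type} (F : SimpleGraph α) (G : SimpleGraph β) (e : γ ≃ β) (v : γ) :
    J F (G.comap e) v = J F G (e v) := by
  unfold J
  apply Nat.card_congr
  exact
    { toFun := fun φ => ⟨fun a => e (φ.1 a), ⟨fun a b h => φ.2.1.1 (e.injective h),
        fun a b h => φ.2.1.2 a b h⟩, fun a h => φ.2.2 a (e.injective h)⟩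
      invFun := fun φ => ⟨fun a => e.symm (φ.1 a), ⟨fun a b h => φ.2.1.1 (e.symm.injective h),
        fun a b h => by
          show G.Adj (e (e.symm (φ.1 a))) (e (e.symm (φ.1 b)))
          rw [Equiv.apply_symm_apply, Equiv.apply_symm_apply]
          exact φ.2.1.2 a b h⟩, fun a h => φ.2.2 a ((Equiv.symm_apply_eq e).1 h)⟩
      left_inv := fun φ => by
        apply Subtype.ext
        funext a
        simp
      right_inv := fun φ => by
        apply Subtype.ext
        funext a
        simp }

/-- A graph with at least two edges has two distinct edges. -/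
lemma twoEdges_of_ncard {α : Type} (F : SimpleGraph α) (h : 2 ≤ F.edgeSet.ncard) :
    TwoEdges F := by
  have h1 : 1 < F.edgeSet.ncard := h
  have hfin : F.edgeSet.Finite := Set.finite_of_ncard_pos (by omega)
  obtain ⟨x, hx, y, hy, hxy⟩ := (Set.one_lt_ncard hfin).1 h1
  induction x using Sym2.ind with
  | _ a b =>
    induction y using Sym2.ind with
    | _ c d => exact ⟨a, b, c, d, by simpa using hx, by simpa using hy, hxy⟩

end Pool.Agent.Hhelper53.Hyper
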