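import Pool.Agent.Hhelper53.Hyper.CoreFacts

set_option autoImplicit false
set_option linter.unusedSectionVars false

namespace Pool.Agent.Hhelper53.Hyper

open SimpleGraph Function

lemma level_ge {ι : Type} [Fintype ι] (Δ : ι → ℤ) (E : ι → ℕ) (u : ι → ℕ) (p m : ℕ)
    (h : ∀ i, u i = p → 0 ≤ Δ i) (i₀ : ι) (hi₀ : u i₀ = p) (h1 : 1 ≤ Δ i₀) (hE : m ≤ E i₀) :
    (m : ℤ) ≤ ∑ i with u i = p, Δ i * E i := by
  classical
  have h2 : Δ i₀ * (E i₀ : ℤ) ≤ ∑ i with u i = p, Δ i * E i := by
    refine Finset.single_le_sum (f := fun i => Δ i * (E i : ℤ)) ?_ (by simpa using hi₀)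
    intro i hi
    have hi' : u i = p := by simpa using hi
    exact mul_nonneg (h i hi') (by positivity)
  refine le_trans ?_ h2
  have h3 : (m : ℤ) ≤ E i₀ := by exact_mod_cast hE
  nlinarith

section

variable {α : Type} [Fintype α] [DecidableEq α] {Z W : Type} [Fintype Z] [Fintype W] {N : ℕ}

/-- The size condition on `N`. -/
def Big (k z w N : ℕ) : Prop :=
  z + w + 6 + 2 * N ≤ 3 * (N - k) ∧ 2 ^ k * (6 ^ k + (z + w) ^ k) * 3 ^ k < N - k

lemma core_sum (F : SimpleGraph α) (B : W → Z → Prop) (c c' : Fin 6) (p : ℕ)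
    (hN : Big (Fintype.card α) (Fintype.card Z) (Fintype.card W) N)
    (hpk : p ≤ Fintype.card α)
    (h0 : ∀ S : Finset α, S.card < p → Acore F S c = Acore F S c')
    (h1 : ∀ S : Finset α, S.card = p → Acore F S c' ≤ Acore F S c)
    (S₀ : Finset α) (hS₀ : S₀.card = p) (h2 : Acore F S₀ c' < Acore F S₀ c) :
    J F (GG B N) (.h c') < J F (GG B N) (.h c) := by
  classical
  have key := sign_pos (fun S : Finset α => (Acore F S c : ℤ) - Acore F S c')
    (fun S => Ecore F B N S) (fun S => S.card) (Fintype.card α) p (N - Fintype.card α)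
    (6 ^ Fintype.card α) (fun S => Finset.card_le_univ _) ?_ ?_ ?_ hpk ?_ ?_
  · rw [← Int.ofNat_lt]
    rw [J_core, J_core]
    push_cast
    have : ∑ S : Finset α, ((Acore F S c : ℤ) - Acore F S c') * (Ecore F B N S : ℤ) =
      ∑ S : Finset α, (Acore F S c : ℤ) * (Ecore F B N S : ℤ) -
      ∑ S : Finset α, (Acore F S c' : ℤ) * (Ecore F B N S : ℤ) := by
      rw [← Finset.sum_sub_distrib]
      exact Finset.sum_congr rfl fun S _ => by ring
    rw [this] at key
    linarith
  · intro S
    refine (Ecore_le F B S).trans ?_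
    apply Nat.pow_le_pow_left
    rw [card_Vt]
    exact hN.1
  · intro S
    have h3 := Acore_le F S c
    have h4 := Acore_le F S c'
    rw [abs_le]
    push_cast
    constructor
    · have : (Acore F S c' : ℤ) ≤ 6 ^ Fintype.card α := by exact_mod_cast h4
      have h5 : (0 : ℤ) ≤ Acore F S c := by positivity
      linarith
    · have : (Acore F S c : ℤ) ≤ 6 ^ Fintype.card α := by exact_mod_cast h3
      have h5 : (0 : ℤ) ≤ Acore F S c' := by positivity
      linarith
  · intro S hS
    rw [h0 S hS]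
    ring
  · have h5 := level_ge (fun S : Finset α => (Acore F S c : ℤ) - Acore F S c')
      (fun S => Ecore F B N S) (fun S => S.card) p
      ((N - Fintype.card α) ^ (Fintype.card α - p)) ?_ S₀ hS₀ ?_ ?_
    · push_cast at h5 ⊢
      exact h5
    · intro S hS
      have := h1 S hS
      omega
    · have := h2
      omega
    · have := le_Ecore (N := N) F B S₀
      rw [hS₀] at this
      exact this
  · have h6 := hN.2
    rw [Fintype.card_finset]
    have h7 : 2 ^ Fintype.card α * 6 ^ Fintype.card α * 3 ^ Fintype.card α ≤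
        2 ^ Fintype.card α * (6 ^ Fintype.card α +
          (Fintype.card Z + Fintype.card W) ^ Fintype.card α) * 3 ^ Fintype.card α := by
      gcongr
      omega
    omega

lemma core_A (F : SimpleGraph α) (B : W → Z → Prop) (c c' : Fin 6)
    (hN : Big (Fintype.card α) (Fintype.card Z) (Fintype.card W) N)
    (hd : dH c < dH c') (hF : ∃ a b, F.Adj a b) :
    J F (GG B N) (.h c') < J F (GG B N) (.h c) := by
  obtain ⟨a, b, hab⟩ := hF
  have hne := F.ne_of_adj hab
  have hc2 : ({a, b} : Finset α).card = 2 := Finset.card_pair hne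
  refine core_sum F B c c' 2 hN ?_ ?_ ?_ {a, b} hc2 ?_
  · rw [← hc2]
    exact Finset.card_le_univ _
  · intro S hS
    interval_cases h : S.card
    · rw [Finset.card_eq_zero.1 h]
      exact Acore_zero F _ _
    · obtain ⟨x, rfl⟩ := Finset.card_eq_one.1 h
      rw [Acore_one, Acore_one]
      exact C1_eq _ _
  · intro S hS
    obtain ⟨x, y, hxy, rfl⟩ := Finset.card_eq_two.1 hS
    rw [Acore_two F x y hxy, Acore_two F x y hxy]
    cases bA F x y
    · exact (C2_false _ _).le
    · exact (C2_lt _ _ hd).le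
  · rw [Acore_two F a b hne, Acore_two F a b hne, (bA_iff F a b).2 hab]
    exact C2_lt _ _ hd

lemma core_B (F : SimpleGraph α) (B : W → Z → Prop) (c c' : Fin 6)
    (hN : Big (Fintype.card α) (Fintype.card Z) (Fintype.card W) N)
    (ht : tie c c' = true) (hF : ∃ a b d, F.Adj a b ∧ F.Adj b d ∧ a ≠ d) :
    J F (GG B N) (.h c') < J F (GG B N) (.h c) := by
  obtain ⟨a, b, d, hab, hbd, had⟩ := hF
  have hab' := F.ne_of_adj hab
  have hbd' := F.ne_of_adj hbd
  have hc3 : ({a, b, d} : Finset α).card = 3 :=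
    Finset.card_eq_three.2 ⟨a, b, d, hab', had, hbd', rfl⟩
  refine core_sum F B c c' 3 hN ?_ ?_ ?_ {a, b, d} hc3 ?_
  · rw [← hc3]
    exact Finset.card_le_univ _
  · intro S hS
    interval_cases h : S.card
    · rw [Finset.card_eq_zero.1 h]
      exact Acore_zero F _ _
    · obtain ⟨x, rfl⟩ := Finset.card_eq_one.1 h
      rw [Acore_one, Acore_one]
      exact C1_eq _ _
    · obtain ⟨x, y, hxy, rfl⟩ := Finset.card_eq_two.1 h
      rw [Acore_two F x y hxy, Acore_two F x y hxy]
      exact (C2_tie _ _ _ ht).symm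
  · intro S hS
    obtain ⟨x, y, z, hxy, hxz, hyz, rfl⟩ := Finset.card_eq_three.1 hS
    rw [Acore_three F x y z hxy hxz hyz, Acore_three F x y z hxy hxz hyz]
    generalize bA F x y = r
    generalize bA F x z = s
    generalize bA F y z = t
    cases h : ((r && s) || (r && t) || (s && t))
    · exact (C3_eq _ _ ht _ _ _ h).le
    · exact (C3_lt _ _ ht _ _ _ h).le
  · rw [Acore_three F a b d hab' had hbd', Acore_three F a b d hab' had hbd',
      (bA_iff F a b).2 hab, (bA_iff F b d).2 hbd]
    exact C3_lt _ _ ht _ _ _ (by simp)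

lemma core_C (F : SimpleGraph α) (B : W → Z → Prop) (c c' : Fin 6)
    (hN : Big (Fintype.card α) (Fintype.card Z) (Fintype.card W) N)
    (ht : tie c c' = true) (hm : ∀ a b d, F.Adj a b → F.Adj a d → b = d)
    (hF : ∃ a b d e, F.Adj a b ∧ F.Adj d e ∧ a ≠ d ∧ a ≠ e ∧ b ≠ d ∧ b ≠ e) :
    J F (GG B N) (.h c) < J F (GG B N) (.h c') := by
  obtain ⟨a, b, d, e, hab, hde, had, hae, hbd, hbe⟩ := hF
  have hab' := F.ne_of_adj hab
  have hde' := F.ne_of_adj hde
  have hc4 : ({a, b, d, e} : Finset α).card = 4 := by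
    rw [Finset.card_insert_of_notMem (by simp [hab', had, hae]),
      Finset.card_eq_three.2 ⟨b, d, e, hbd, hbe, hde', rfl⟩]
  refine core_sum F B c' c 4 hN ?_ ?_ ?_ {a, b, d, e} hc4 ?_
  · rw [← hc4]
    exact Finset.card_le_univ _
  · intro S hS
    interval_cases h : S.card
    · rw [Finset.card_eq_zero.1 h]
      exact Acore_zero F _ _
    · obtain ⟨x, rfl⟩ := Finset.card_eq_one.1 h
      rw [Acore_one, Acore_one]
      exact C1_eq _ _
    · obtain ⟨x, y, hxy, rfl⟩ := Finset.card_eq_two.1 h
      rw [Acore_two F x y hxy, Acore_two F x y hxy]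
      exact (C2_tie _ _ _ ht)
    · obtain ⟨x, y, z, hxy, hxz, hyz, rfl⟩ := Finset.card_eq_three.1 h
      rw [Acore_three F x y z hxy hxz hyz, Acore_three F x y z hxy hxz hyz]
      refine C3_eq _ _ ht _ _ _ ?_
      have e1 : (bA F x y && bA F x z) = false := by
        rw [Bool.and_eq_false_iff]
        by_contra hcon
        simp only [not_or, Bool.not_eq_false, bA_iff] at hcon
        exact hyz (hm _ _ _ hcon.1 hcon.2)
      have e2 : (bA F x y && bA F y z) = false := by
        rw [Bool.and_eq_false_iff]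
        by_contra hcon
        simp only [not_or, Bool.not_eq_false, bA_iff] at hcon
        exact hxz (hm _ _ _ hcon.1.symm hcon.2)
      have e3 : (bA F x z && bA F y z) = false := by
        rw [Bool.and_eq_false_iff]
        by_contra hcon
        simp only [not_or, Bool.not_eq_false, bA_iff] at hcon
        exact hxy (hm _ _ _ hcon.1.symm hcon.2.symm)
      rw [e1, e2, e3]
      rfl
  · intro S hS
    obtain ⟨x, y, z, w, hxy, hxz, hxw, hyz, hyw, hzw, rfl⟩ : ∃ x y z w : α, x ≠ y ∧ x ≠ z ∧ x ≠ w ∧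
        y ≠ z ∧ y ≠ w ∧ z ≠ w ∧ S = {x, y, z, w} := by
      obtain ⟨x, T, hx, rfl, hT⟩ := Finset.card_eq_succ.1 hS
      obtain ⟨y, z, w, h1, h2, h3, rfl⟩ := Finset.card_eq_three.1 hT
      simp only [Finset.mem_insert, Finset.mem_singleton, not_or] at hx
      exact ⟨x, y, z, w, hx.1, hx.2.1, hx.2.2, h1, h2, h3, rfl⟩
    rw [Acore_four F x y z w hxy hxz hxw hyz hyw hzw, Acore_four F x y z w hxy hxz hxw hyz hyw hzw]
    have e1 : ¬ (bA F x y = true ∧ bA F x z = true) := by
      simp only [bA_iff]; exact fun h => hyz (hm _ _ _ h.1 h.2)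
    have e2 : ¬ (bA F x y = true ∧ bA F x w = true) := by
      simp only [bA_iff]; exact fun h => hyw (hm _ _ _ h.1 h.2)
    have e3 : ¬ (bA F x z = true ∧ bA F x w = true) := by
      simp only [bA_iff]; exact fun h => hzw (hm _ _ _ h.1 h.2)
    have e4 : ¬ (bA F x y = true ∧ bA F y z = true) := by
      simp only [bA_iff]; exact fun h => hxz (hm _ _ _ h.1.symm h.2)
    have e5 : ¬ (bA F x y = true ∧ bA F y w = true) := by
      simp only [bA_iff]; exact fun h => hxw (hm _ _ _ h.1.symm h.2)
    have e6 : ¬ (bA F y z = true ∧ bA F y w = true) := by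
      simp only [bA_iff]; exact fun h => hzw (hm _ _ _ h.1 h.2)
    have e7 : ¬ (bA F x z = true ∧ bA F y z = true) := by
      simp only [bA_iff]; exact fun h => hxy (hm _ _ _ h.1.symm h.2.symm)
    have e8 : ¬ (bA F x z = true ∧ bA F z w = true) := by
      simp only [bA_iff]; exact fun h => hxw (hm _ _ _ h.1.symm h.2)
    have e9 : ¬ (bA F y z = true ∧ bA F z w = true) := by
      simp only [bA_iff]; exact fun h => hyw (hm _ _ _ h.1.symm h.2)
    have e10 : ¬ (bA F x w = true ∧ bA F y w = true) := by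
      simp only [bA_iff]; exact fun h => hxy (hm _ _ _ h.1.symm h.2.symm)
    have e11 : ¬ (bA F x w = true ∧ bA F z w = true) := by
      simp only [bA_iff]; exact fun h => hxz (hm _ _ _ h.1.symm h.2.symm)
    have e12 : ¬ (bA F y w = true ∧ bA F z w = true) := by
      simp only [bA_iff]; exact fun h => hyz (hm _ _ _ h.1.symm h.2.symm)
    obtain ⟨f1, f2, f3, f4, f5, f6, f7, f8, f9, f10⟩ := C4_facts c c' ht
    revert e1 e2 e3 e4 e5 e6 e7 e8 e9 e10 e11 e12
    cases bA F x y <;> cases bA F x z <;> cases bA F x w <;> cases bA F y z <;>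
      cases bA F y w <;> cases bA F z w <;>
      simp only [Bool.false_eq_true, and_self, and_false, false_and, not_true_eq_false,
        not_false_eq_true, false_implies, forall_const, implies_true] <;>
      first
        | exact f1.ge | exact f2.ge | exact f3.ge | exact f4.ge | exact f5.ge | exact f6.ge
        | exact f7.ge | exact f8.le | exact f9.le | exact f10.le
  · rw [Acore_four F a b d e hab' had hae hbd hbe hde', Acore_four F a b d e hab' had hae hbd hbe hde']
    have e1 : bA F a b = true := (bA_iff F a b).2 hab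
    have e2 : bA F d e = true := (bA_iff F d e).2 hde
    have e3 : bA F a d = false := by
      rw [← Bool.not_eq_true, bA_iff]; exact fun h => hbd (hm _ _ _ hab h)
    have e4 : bA F a e = false := by
      rw [← Bool.not_eq_true, bA_iff]; exact fun h => hbe (hm _ _ _ hab h)
    have e5 : bA F b d = false := by
      rw [← Bool.not_eq_true, bA_iff]; exact fun h => had (hm _ _ _ hab.symm h)
    have e6 : bA F b e = false := by
      rw [← Bool.not_eq_true, bA_iff]; exact fun h => hae (hm _ _ _ hab.symm h)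
    rw [e1, e2, e3, e4, e5, e6]
    exact (C4_facts c c' ht).2.2.2.2.2.2.2.1

end

end Pool.Agent.Hhelper53.Hyper
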