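import Pool.Agent.Hhelper53.Hyper.Sign

set_option autoImplicit false
set_option linter.unusedSectionVars false

namespace Pool.Agent.Hhelper53.Hyper

open SimpleGraph Function

def C1 (c : Fin 6) : ℕ := (Finset.univ.filter (fun t : Fin 6 => t ≠ c)).card

def C2 (r : Bool) (c : Fin 6) : ℕ :=
  (Finset.univ.filter (fun t : Fin 6 × Fin 6 =>
    t.1 ≠ t.2 ∧ (r = true → Hb t.1 t.2 = true) ∧ t.1 ≠ c ∧ t.2 ≠ c)).card

def C3 (r s t : Bool) (c : Fin 6) : ℕ :=
  (Finset.univ.filter (fun v : Fin 6 × Fin 6 × Fin 6 =>
    (v.1 ≠ v.2.1 ∧ v.1 ≠ v.2.2 ∧ v.2.1 ≠ v.2.2) ∧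
    (r = true → Hb v.1 v.2.1 = true) ∧ (s = true → Hb v.1 v.2.2 = true) ∧
    (t = true → Hb v.2.1 v.2.2 = true) ∧ v.1 ≠ c ∧ v.2.1 ≠ c ∧ v.2.2 ≠ c)).card

def C4 (r01 r02 r03 r12 r13 r23 : Bool) (c : Fin 6) : ℕ :=
  (Finset.univ.filter (fun v : Fin 6 × Fin 6 × Fin 6 × Fin 6 =>
    (v.1 ≠ v.2.1 ∧ v.1 ≠ v.2.2.1 ∧ v.1 ≠ v.2.2.2 ∧ v.2.1 ≠ v.2.2.1 ∧ v.2.1 ≠ v.2.2.2 ∧
      v.2.2.1 ≠ v.2.2.2) ∧
    (r01 = true → Hb v.1 v.2.1 = true) ∧ (r02 = true → Hb v.1 v.2.2.1 = true) ∧
    (r03 = true → Hb v.1 v.2.2.2 = true) ∧ (r12 = true → Hb v.2.1 v.2.2.1 = true) ∧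
    (r13 = true → Hb v.2.1 v.2.2.2 = true) ∧ (r23 = true → Hb v.2.2.1 v.2.2.2 = true) ∧
    v.1 ≠ c ∧ v.2.1 ≠ c ∧ v.2.2.1 ≠ c ∧ v.2.2.2 ≠ c)).card

def dH (c : Fin 6) : ℕ := (Finset.univ.filter (fun t : Fin 6 => Hb c t = true)).card

def tie (c c' : Fin 6) : Bool :=
  (c == 1 && c' == 0) || (c == 3 && c' == 2) || (c == 5 && c' == 4)

lemma C1_eq : ∀ c c', C1 c' = C1 c := by decide +kernel
lemma C2_lt : ∀ c c', dH c < dH c' → C2 true c' < C2 true c := by decide +kernel
lemma C2_false : ∀ c c', C2 false c' = C2 false c := by decide +kernel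
lemma C2_tie : ∀ c c' r, tie c c' = true → C2 r c' = C2 r c := by decide +kernel

lemma C3_lt : ∀ c c', tie c c' = true → ∀ r s t, ((r && s) || (r && t) || (s && t)) = true →
  C3 r s t c' < C3 r s t c := by decide +kernel
lemma C3_eq : ∀ c c', tie c c' = true → ∀ r s t, ((r && s) || (r && t) || (s && t)) = false →
  C3 r s t c' = C3 r s t c := by decide +kernel

lemma tri : ∀ c c', c ≠ c' → dH c < dH c' ∨ dH c' < dH c ∨ tie c c' = true ∨
  tie c' c = true := by decide +kernel

lemma C4_facts : ∀ c c', tie c c' = true →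
  C4 false false false false false false c' = C4 false false false false false false c ∧
  C4 true false false false false false c' = C4 true false false false false false c ∧
  C4 false true false false false false c' = C4 false true false false false false c ∧
  C4 false false true false false false c' = C4 false false true false false false c ∧
  C4 false false false true false false c' = C4 false false false true false false c ∧
  C4 false false false false true false c' = C4 false false false false true false c ∧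
  C4 false false false false false true c' = C4 false false false false false true c ∧
  C4 true false false false false true c < C4 true false false false false true c' ∧
  C4 false true false false true false c < C4 false true false false true false c' ∧
  C4 false false true true false false c < C4 false false true true false false c'
   := by decide +kernel

section

variable {α : Type} [Fintype α] [DecidableEq α]

open Classical in
/-- adjacency as a Boolean -/
noncomputable def bA (F : SimpleGraph α) (a b : α) : Bool := decide (F.Adj a b)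

lemma bA_iff (F : SimpleGraph α) (a b : α) : bA F a b = true ↔ F.Adj a b := by simp [bA]

lemma Acore_zero (F : SimpleGraph α) (c c' : Fin 6) : Acore F ∅ c = Acore F ∅ c' := by
  unfold Acore
  apply Nat.card_congr
  exact
    { toFun := fun ψ => ⟨ψ.1, ψ.2.1, ψ.2.2.1, fun a => absurd a.2 (Finset.notMem_empty _)⟩
      invFun := fun ψ => ⟨ψ.1, ψ.2.1, ψ.2.2.1, fun a => absurd a.2 (Finset.notMem_empty _)⟩
      left_inv := fun _ => rfl
      right_inv := fun _ => rfl }

lemma Acore_one (F : SimpleGraph α) (a : α) (c : Fin 6) : Acore F {a} c = C1 c := by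
  unfold Acore C1
  rw [← Fintype.card_subtype, ← Nat.card_eq_fintype_card]
  apply Nat.card_congr
  have hsub : ∀ y : {x // x ∈ ({a} : Finset α)}, y = ⟨a, by simp⟩ := fun y =>
    Subtype.ext (Finset.mem_singleton.1 y.2)
  exact
    { toFun := fun ψ => ⟨ψ.1 ⟨a, by simp⟩, ψ.2.2.2 _⟩
      invFun := fun t => ⟨fun _ => t.1, fun x y _ => by rw [hsub x, hsub y], fun x y hxy => by
        rw [hsub x, hsub y] at hxy
        exact absurd hxy (F.loopless.irrefl _), fun _ => t.2⟩
      left_inv := by
        rintro ⟨ψ, h⟩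
        apply Subtype.ext
        funext y
        rw [hsub y]
      right_inv := by
        rintro ⟨t, h⟩
        rfl }

lemma Acore_two (F : SimpleGraph α) (a b : α) (hab : a ≠ b) (c : Fin 6) :
    Acore F {a, b} c = C2 (bA F a b) c := by
  unfold Acore C2
  rw [← Fintype.card_subtype, ← Nat.card_eq_fintype_card]
  apply Nat.card_congr
  have ma : a ∈ ({a, b} : Finset α) := by simp
  have mb : b ∈ ({a, b} : Finset α) := by simp
  have hsub : ∀ y : {x // x ∈ ({a, b} : Finset α)}, y = ⟨a, ma⟩ ∨ y = ⟨b, mb⟩ := by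
    rintro ⟨y, hy⟩
    simp only [Finset.mem_insert, Finset.mem_singleton] at hy
    rcases hy with rfl | rfl
    · left; rfl
    · right; rfl
  exact
    { toFun := fun ψ => ⟨(ψ.1 ⟨a, ma⟩, ψ.1 ⟨b, mb⟩), fun h => hab (congrArg Subtype.val (ψ.2.1 h)),
        fun h => ψ.2.2.1 _ _ ((bA_iff F a b).1 h), ψ.2.2.2 _, ψ.2.2.2 _⟩
      invFun := fun t => ⟨fun y => if y.1 = a then t.1.1 else t.1.2, by
        obtain ⟨⟨x, y⟩, h1, h2, h3, h4⟩ := t
        simp only at h1 h2 h3 h4
        refine ⟨?_, ?_, ?_⟩
        · intro u v huv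
          rcases hsub u with rfl | rfl <;> rcases hsub v with rfl | rfl
          · rfl
          · simp [hab.symm, h1] at huv
          · simp [hab.symm, h1.symm] at huv
          · rfl
        · intro u v huv
          rcases hsub u with rfl | rfl <;> rcases hsub v with rfl | rfl
          · exact absurd huv (F.loopless.irrefl _)
          · simpa [hab.symm] using h2 ((bA_iff F a b).2 huv)
          · rw [Hb_symm]
            simpa [hab.symm] using h2 ((bA_iff F a b).2 huv.symm)
          · exact absurd huv (F.loopless.irrefl _)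
        · intro u
          rcases hsub u with rfl | rfl
          · simpa using h3
          · simpa [hab.symm] using h4⟩
      left_inv := by
        rintro ⟨ψ, h⟩
        apply Subtype.ext
        funext y
        rcases hsub y with rfl | rfl
        · simp
        · simp [hab.symm]
      right_inv := by
        rintro ⟨⟨x, y⟩, h⟩
        apply Subtype.ext
        simp [hab.symm] }

lemma Acore_three (F : SimpleGraph α) (a b d : α) (hab : a ≠ b) (had : a ≠ d) (hbd : b ≠ d)
    (c : Fin 6) :
    Acore F {a, b, d} c = C3 (bA F a b) (bA F a d) (bA F b d) c := by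
  unfold Acore C3
  rw [← Fintype.card_subtype, ← Nat.card_eq_fintype_card]
  apply Nat.card_congr
  have ma : a ∈ ({a, b, d} : Finset α) := by simp
  have mb : b ∈ ({a, b, d} : Finset α) := by simp
  have md : d ∈ ({a, b, d} : Finset α) := by simp
  have hsub : ∀ y : {x // x ∈ ({a, b, d} : Finset α)},
      y = ⟨a, ma⟩ ∨ y = ⟨b, mb⟩ ∨ y = ⟨d, md⟩ := by
    rintro ⟨y, hy⟩
    simp only [Finset.mem_insert, Finset.mem_singleton] at hy
    rcases hy with rfl | rfl | rfl
    · left; rfl
    · right; left; rfl
    · right; right; rfl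
  exact
    { toFun := fun ψ => ⟨(ψ.1 ⟨a, ma⟩, ψ.1 ⟨b, mb⟩, ψ.1 ⟨d, md⟩),
        ⟨fun h => hab (congrArg Subtype.val (ψ.2.1 h)),
          fun h => had (congrArg Subtype.val (ψ.2.1 h)),
          fun h => hbd (congrArg Subtype.val (ψ.2.1 h))⟩,
        fun h => ψ.2.2.1 _ _ ((bA_iff F _ _).1 h), fun h => ψ.2.2.1 _ _ ((bA_iff F _ _).1 h),
        fun h => ψ.2.2.1 _ _ ((bA_iff F _ _).1 h), ψ.2.2.2 _, ψ.2.2.2 _, ψ.2.2.2 _⟩
      invFun := fun t => ⟨fun y => if y.1 = a then t.1.1 else if y.1 = b then t.1.2.1 else t.1.2.2, by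
        obtain ⟨⟨x, y, z⟩, ⟨h1, h2, h3⟩, h4, h5, h6, h7, h8, h9⟩ := t
        simp only at h1 h2 h3 h4 h5 h6 h7 h8 h9
        refine ⟨?_, ?_, ?_⟩
        · intro u v huv
          rcases hsub u with rfl | rfl | rfl <;> rcases hsub v with rfl | rfl | rfl
          · rfl
          · simp [hab.symm, h1] at huv
          · simp [had.symm, hbd.symm, h2] at huv
          · simp [hab.symm, h1.symm] at huv
          · rfl
          · simp [hab.symm, had.symm, hbd.symm, h3] at huv
          · simp [had.symm, hbd.symm, h2.symm] at huv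
          · simp [hab.symm, had.symm, hbd.symm, h3.symm] at huv
          · rfl
        · intro u v huv
          rcases hsub u with rfl | rfl | rfl <;> rcases hsub v with rfl | rfl | rfl
          · exact absurd huv (F.loopless.irrefl _)
          · simpa [hab.symm] using h4 ((bA_iff F _ _).2 huv)
          · simpa [had.symm, hbd.symm] using h5 ((bA_iff F _ _).2 huv)
          · rw [Hb_symm]
            simpa [hab.symm] using h4 ((bA_iff F _ _).2 huv.symm)
          · exact absurd huv (F.loopless.irrefl _)
          · simpa [hab.symm, had.symm, hbd.symm] using h6 ((bA_iff F _ _).2 huv)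
          · rw [Hb_symm]
            simpa [had.symm, hbd.symm] using h5 ((bA_iff F _ _).2 huv.symm)
          · rw [Hb_symm]
            simpa [hab.symm, had.symm, hbd.symm] using h6 ((bA_iff F _ _).2 huv.symm)
          · exact absurd huv (F.loopless.irrefl _)
        · intro u
          rcases hsub u with rfl | rfl | rfl
          · simpa using h7
          · simpa [hab.symm] using h8
          · simpa [had.symm, hbd.symm] using h9⟩
      left_inv := by
        rintro ⟨ψ, h⟩
        apply Subtype.ext
        funext y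
        rcases hsub y with rfl | rfl | rfl
        · simp
        · simp [hab.symm]
        · simp [had.symm, hbd.symm]
      right_inv := by
        rintro ⟨⟨x, y, z⟩, h⟩
        apply Subtype.ext
        simp [hab.symm, had.symm, hbd.symm] }

lemma Acore_four (F : SimpleGraph α) (a b d e : α) (hab : a ≠ b) (had : a ≠ d) (hae : a ≠ e)
    (hbd : b ≠ d) (hbe : b ≠ e) (hde : d ≠ e) (c : Fin 6) :
    Acore F {a, b, d, e} c =
      C4 (bA F a b) (bA F a d) (bA F a e) (bA F b d) (bA F b e) (bA F d e) c := by
  unfold Acore C4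
  rw [← Fintype.card_subtype, ← Nat.card_eq_fintype_card]
  apply Nat.card_congr
  have ma : a ∈ ({a, b, d, e} : Finset α) := by simp
  have mb : b ∈ ({a, b, d, e} : Finset α) := by simp
  have md : d ∈ ({a, b, d, e} : Finset α) := by simp
  have me : e ∈ ({a, b, d, e} : Finset α) := by simp
  have hsub : ∀ y : {x // x ∈ ({a, b, d, e} : Finset α)},
      y = ⟨a, ma⟩ ∨ y = ⟨b, mb⟩ ∨ y = ⟨d, md⟩ ∨ y = ⟨e, me⟩ := by
    rintro ⟨y, hy⟩
    simp only [Finset.mem_insert, Finset.mem_singleton] at hy
    rcases hy with rfl | rfl | rfl | rfl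
    · left; rfl
    · right; left; rfl
    · right; right; left; rfl
    · right; right; right; rfl
  exact
    { toFun := fun ψ => ⟨(ψ.1 ⟨a, ma⟩, ψ.1 ⟨b, mb⟩, ψ.1 ⟨d, md⟩, ψ.1 ⟨e, me⟩),
        ⟨fun h => hab (congrArg Subtype.val (ψ.2.1 h)),
          fun h => had (congrArg Subtype.val (ψ.2.1 h)),
          fun h => hae (congrArg Subtype.val (ψ.2.1 h)),
          fun h => hbd (congrArg Subtype.val (ψ.2.1 h)),
          fun h => hbe (congrArg Subtype.val (ψ.2.1 h)),
          fun h => hde (congrArg Subtype.val (ψ.2.1 h))⟩,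
        fun h => ψ.2.2.1 _ _ ((bA_iff F _ _).1 h), fun h => ψ.2.2.1 _ _ ((bA_iff F _ _).1 h),
        fun h => ψ.2.2.1 _ _ ((bA_iff F _ _).1 h), fun h => ψ.2.2.1 _ _ ((bA_iff F _ _).1 h),
        fun h => ψ.2.2.1 _ _ ((bA_iff F _ _).1 h), fun h => ψ.2.2.1 _ _ ((bA_iff F _ _).1 h),
        ψ.2.2.2 _, ψ.2.2.2 _, ψ.2.2.2 _, ψ.2.2.2 _⟩
      invFun := fun t => ⟨fun y => if y.1 = a then t.1.1 else if y.1 = b then t.1.2.1 else
          if y.1 = d then t.1.2.2.1 else t.1.2.2.2, by
        obtain ⟨⟨x, y, z, w⟩, ⟨h1, h2, h3, h1', h2', h3'⟩, h4, h5, h6, h4', h5', h6', h7, h8, h9, h10⟩ := t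
        simp only at h1 h2 h3 h1' h2' h3' h4 h5 h6 h4' h5' h6' h7 h8 h9 h10
        refine ⟨?_, ?_, ?_⟩
        · intro u v huv
          rcases hsub u with rfl | rfl | rfl | rfl <;> rcases hsub v with rfl | rfl | rfl | rfl <;>
            simp_all [hab.symm, had.symm, hae.symm, hbd.symm, hbe.symm, hde.symm, h1.symm, h2.symm,
              h3.symm, h1'.symm, h2'.symm, h3'.symm]
        · intro u v huv
          rcases hsub u with rfl | rfl | rfl | rfl <;> rcases hsub v with rfl | rfl | rfl | rfl
          · exact absurd huv (F.loopless.irrefl _)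
          · simpa [hab.symm] using h4 ((bA_iff F _ _).2 huv)
          · simpa [had.symm, hbd.symm] using h5 ((bA_iff F _ _).2 huv)
          · simpa [hae.symm, hbe.symm, hde.symm] using h6 ((bA_iff F _ _).2 huv)
          · rw [Hb_symm]
            simpa [hab.symm] using h4 ((bA_iff F _ _).2 huv.symm)
          · exact absurd huv (F.loopless.irrefl _)
          · simpa [hab.symm, had.symm, hbd.symm] using h4' ((bA_iff F _ _).2 huv)
          · simpa [hab.symm, hae.symm, hbe.symm, hde.symm] using h5' ((bA_iff F _ _).2 huv)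
          · rw [Hb_symm]
            simpa [had.symm, hbd.symm] using h5 ((bA_iff F _ _).2 huv.symm)
          · rw [Hb_symm]
            simpa [hab.symm, had.symm, hbd.symm] using h4' ((bA_iff F _ _).2 huv.symm)
          · exact absurd huv (F.loopless.irrefl _)
          · simpa [had.symm, hbd.symm, hae.symm, hbe.symm, hde.symm] using
              h6' ((bA_iff F _ _).2 huv)
          · rw [Hb_symm]
            simpa [hae.symm, hbe.symm, hde.symm] using h6 ((bA_iff F _ _).2 huv.symm)
          · rw [Hb_symm]
            simpa [hab.symm, hae.symm, hbe.symm, hde.symm] using h5' ((bA_iff F _ _).2 huv.symm)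
          · rw [Hb_symm]
            simpa [had.symm, hbd.symm, hae.symm, hbe.symm, hde.symm] using
              h6' ((bA_iff F _ _).2 huv.symm)
          · exact absurd huv (F.loopless.irrefl _)
        · intro u
          rcases hsub u with rfl | rfl | rfl | rfl
          · simpa using h7
          · simpa [hab.symm] using h8
          · simpa [had.symm, hbd.symm] using h9
          · simpa [hae.symm, hbe.symm, hde.symm] using h10⟩
      left_inv := by
        rintro ⟨ψ, h⟩
        apply Subtype.ext
        funext y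
        rcases hsub y with rfl | rfl | rfl | rfl
        · simp
        · simp [hab.symm]
        · simp [had.symm, hbd.symm]
        · simp [hae.symm, hbe.symm, hde.symm]
      right_inv := by
        rintro ⟨⟨x, y, z, w⟩, h⟩
        apply Subtype.ext
        simp [hab.symm, had.symm, hbd.symm, hae.symm, hbe.symm, hde.symm] }

lemma Acore_le (F : SimpleGraph α) (S : Finset α) (c : Fin 6) :
    Acore F S c ≤ 6 ^ Fintype.card α := by
  unfold Acore
  refine (Nat.card_le_card_of_injective _ Subtype.val_injective).trans ?_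
  rw [Nat.card_fun, Nat.card_eq_fintype_card, Nat.card_eq_fintype_card, Fintype.card_fin,
    Fintype.card_coe]
  exact Nat.pow_le_pow_right (by norm_num) (Finset.card_le_univ _)

end

end Pool.Agent.Hhelper53.Hyper
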