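import Pool.Agent.Hhelper53.Hyper.Outer

set_option autoImplicit false
set_option linter.unusedSectionVars false

namespace Pool.Agent.Hhelper53.Hyper

open SimpleGraph Function

/-- Number of injections with values in a given set. -/
lemma card_inj_into {ι X : Type} [Finite ι] [Finite X] (P : X → Prop) :
    Nat.card {g : ι → X // Injective g ∧ ∀ a, P (g a)} =
      (Nat.card {x // P x}).descFactorial (Nat.card ι) := by
  classical
  have i1 : Fintype ι := Fintype.ofFinite _
  have i2 : Fintype X := Fintype.ofFinite _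
  have e : {g : ι → X // Injective g ∧ ∀ a, P (g a)} ≃ (ι ↪ {x // P x}) :=
    { toFun := fun g => ⟨fun a => ⟨g.1 a, g.2.2 a⟩, fun a b hab => g.2.1 (congrArg Subtype.val hab)⟩
      invFun := fun g => ⟨fun a => (g a).1, fun a b hab => g.injective (Subtype.ext hab),
        fun a => (g a).2⟩
      left_inv := by
        rintro ⟨g, hg⟩
        rfl
      right_inv := by
        intro g
        rfl }
  rw [Nat.card_congr e, Nat.card_eq_fintype_card, Nat.card_eq_fintype_card,
    Nat.card_eq_fintype_card, Fintype.card_embedding_eq]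

section

variable {α : Type} [Fintype α] [DecidableEq α] {Z W : Type} [Fintype Z] [Fintype W] {N : ℕ}

/-- `Psi` as a count of pairs of maps. -/
lemma Psi_eq (F : SimpleGraph α) (B : W → Z → Prop) (Y : Finset α) (v : Vt Z W N)
    (hY : ∀ a ∈ Y, ∀ b ∈ Y, ¬ F.Adj a b) :
    Psi F B Y v = Nat.card {fg : ({a // a ∈ Y} → Z) × ({a // a ∈ nb F Y} → W) //
      Injective fg.1 ∧ Injective fg.2 ∧ (∀ y a, F.Adj y.1 a.1 → B (fg.2 a) (fg.1 y)) ∧
      (∀ y, Vt.z (fg.1 y) ≠ v) ∧ ∀ a, Vt.w (fg.2 a) ≠ v} := by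
  have hYU : ∀ a, a ∈ Y → a ∈ UU F Y := fun a ha => (mem_UU F Y a).2 (Or.inl ha)
  have hnU : ∀ a, a ∈ nb F Y → a ∈ UU F Y := fun a ha =>
    (mem_UU F Y a).2 (Or.inr ((mem_nb F Y a).1 ha))
  have hnY : ∀ a, a ∈ nb F Y → a ∉ Y := by
    intro a ha haY
    obtain ⟨y, hy, hya⟩ := (mem_nb F Y a).1 ha
    exact hY y hy a haY hya
  have hUn : ∀ a, a ∈ UU F Y → a ∉ Y → a ∈ nb F Y := by
    intro a ha haY
    rcases (mem_UU F Y a).1 ha with h | h
    · exact absurd h haY
    · exact (mem_nb F Y a).2 h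
  unfold Psi
  apply Nat.card_congr
  exact
    { toFun := fun ψ => ⟨(fun y => zval (ψ.1 ⟨y.1, hYU y.1 y.2⟩) ((ψ.2.2.2.2.1 _).2 y.2),
          fun a => wval (ψ.1 ⟨a.1, hnU a.1 a.2⟩) (ψ.2.2.2.2.2 _ (hnY a.1 a.2))), by
        obtain ⟨ψ, h1, h2, h3, h4, h5⟩ := ψ
        refine ⟨?_, ?_, ?_, ?_, ?_⟩
        · intro a b hab
          have h := congrArg (Vt.z (W := W) (N := N)) hab
          simp only [zval_spec] at h
          have h' := congrArg Subtype.val (h1 h)
          exact Subtype.ext h'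
        · intro a b hab
          have h := congrArg (Vt.w (Z := Z) (N := N)) hab
          simp only [wval_spec] at h
          have h' := congrArg Subtype.val (h1 h)
          exact Subtype.ext h'
        · intro y a hya
          have h := h2 ⟨y.1, hYU y.1 y.2⟩ ⟨a.1, hnU a.1 a.2⟩ hya
          rw [← zval_spec (ψ ⟨y.1, hYU y.1 y.2⟩) ((h4 _).2 y.2),
            ← wval_spec (ψ ⟨a.1, hnU a.1 a.2⟩) (h5 _ (hnY a.1 a.2))] at h
          exact h
        · intro y
          simp only [zval_spec]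
          exact h3 _
        · intro y
          simp only [wval_spec]
          exact h3 _⟩
      invFun := fun fg => ⟨fun a => if h : a.1 ∈ Y then .z (fg.1.1 ⟨a.1, h⟩) else
          .w (fg.1.2 ⟨a.1, hUn a.1 a.2 h⟩), by
        obtain ⟨⟨f, g⟩, h1, h2, h3, h4, h5⟩ := fg
        simp only at h1 h2 h3 h4 h5
        refine ⟨?_, ?_, ?_, ?_, ?_⟩
        · intro a b hab
          simp only at hab
          split_ifs at hab with ha hb hb
          · have := congrArg Subtype.val (h1 (Vt.z.inj hab))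
            exact Subtype.ext this
          · have := congrArg Subtype.val (h2 (Vt.w.inj hab))
            exact Subtype.ext this
        · intro a b hab
          simp only
          split_ifs with ha hb hb
          · exact hY _ ha _ hb hab
          · exact h3 ⟨a.1, ha⟩ ⟨b.1, _⟩ hab
          · exact h3 ⟨b.1, hb⟩ ⟨a.1, _⟩ hab.symm
          · intro h
            have := congrArg Subtype.val (h2 h)
            exact F.ne_of_adj hab this
        · intro a
          simp only
          split_ifs with ha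
          · exact h4 _
          · exact h5 _
        · intro a
          simp only
          split_ifs with ha
          · exact ⟨fun _ => ha, fun _ => trivial⟩
          · exact ⟨fun h => h.elim, fun h => absurd h ha⟩
        · intro a ha
          simp only [ha, dite_false]
          trivial⟩
      left_inv := by
        rintro ⟨ψ, h1, h2, h3, h4, h5⟩
        apply Subtype.ext
        funext a
        simp only
        split_ifs with ha
        · exact zval_spec _ _
        · exact wval_spec _ _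
      right_inv := by
        rintro ⟨⟨f, g⟩, h1, h2, h3, h4, h5⟩
        apply Subtype.ext
        refine Prod.ext ?_ ?_
        · funext y
          have : (if h : y.1 ∈ Y then (Vt.z (f ⟨y.1, h⟩) : Vt Z W N) else
            .w (g ⟨y.1, hUn y.1 (hYU y.1 y.2) h⟩)) = .z (f y) := by simp [y.2]
          have h := zval_spec _ (show isZ (if h : y.1 ∈ Y then (Vt.z (f ⟨y.1, h⟩) : Vt Z W N) else
            .w (g ⟨y.1, hUn y.1 (hYU y.1 y.2) h⟩)) by rw [this]; trivial)
          exact Vt.z.inj (h.trans this)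
        · funext a
          have : (if h : a.1 ∈ Y then (Vt.z (f ⟨a.1, h⟩) : Vt Z W N) else
            .w (g ⟨a.1, hUn a.1 (hnU a.1 a.2) h⟩)) = .w (g a) := by simp [hnY a.1 a.2]
          have h := wval_spec _ (show isW (if h : a.1 ∈ Y then (Vt.z (f ⟨a.1, h⟩) : Vt Z W N) else
            .w (g ⟨a.1, hUn a.1 (hnU a.1 a.2) h⟩)) by rw [this]; trivial)
          exact Vt.w.inj (h.trans this) }

lemma Psi_dep (F : SimpleGraph α) (B : W → Z → Prop) (Y : Finset α) (v : Vt Z W N)
    (hY : ¬ ∀ a ∈ Y, ∀ b ∈ Y, ¬ F.Adj a b) : Psi F B Y v = 0 := by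
  unfold Psi
  rw [Nat.card_eq_zero]
  left
  constructor
  rintro ⟨ψ, h⟩
  exact hY (fun a ha b hb => h.indep a b ha hb)

/-- Degree counts in `B`. -/
noncomputable def aW (B : W → Z → Prop) (p : W) (x : Z) : ℕ := Nat.card {q // B q x ∧ q ≠ p}

noncomputable def DD (B : W → Z → Prop) (x : Z) : ℕ := Nat.card {q // B q x}

noncomputable def dW (B : W → Z → Prop) (q : W) : ℕ := Nat.card {x // B q x}

/-- degree in `F` as the size of `nb {b}` -/
noncomputable def dg (F : SimpleGraph α) (b : α) : ℕ := (nb F {b}).card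

/-- `Psi` of a single vertex, avoiding a `w` vertex. -/
lemma Psi_single_w (F : SimpleGraph α) (B : W → Z → Prop) (b : α) (p : W) :
    Psi F B {b} (.w p : Vt Z W N) = ∑ x : Z, (aW B p x).descFactorial (dg F b) := by
  classical
  rw [Psi_eq F B {b} _ (by simp)]
  let f : {fg : ({a // a ∈ ({b} : Finset α)} → Z) × ({a // a ∈ nb F {b}} → W) //
      Injective fg.1 ∧ Injective fg.2 ∧ (∀ y a, F.Adj y.1 a.1 → B (fg.2 a) (fg.1 y)) ∧
      (∀ y, Vt.z (fg.1 y) ≠ (.w p : Vt Z W N)) ∧ ∀ a, Vt.w (fg.2 a) ≠ (.w p : Vt Z W N)} → Z :=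
    fun fg => fg.1.1 ⟨b, by simp⟩
  rw [card_eq_sum_fiber f]
  refine Finset.sum_congr rfl fun x _ => ?_
  have h := card_inj_into (ι := {a // a ∈ nb F {b}}) (fun q => B q x ∧ q ≠ p)
  have hc : Nat.card {a // a ∈ nb F {b}} = dg F b := by
    simp [dg]
  rw [hc] at h
  unfold aW
  rw [← h]
  apply Nat.card_congr
  have hadj : ∀ a : {a // a ∈ nb F {b}}, F.Adj b a.1 := by
    intro a
    obtain ⟨y, hy, hya⟩ := (mem_nb F {b} a.1).1 a.2
    rw [Finset.mem_singleton.1 hy] at hya
    exact hya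
  have hsub : ∀ y : {a // a ∈ ({b} : Finset α)}, y = ⟨b, by simp⟩ := fun y =>
    Subtype.ext (Finset.mem_singleton.1 y.2)
  exact
    { toFun := fun fg => ⟨fg.1.1.2, fg.1.2.2.1, fun a => ⟨by
          have := fg.1.2.2.2.1 ⟨b, by simp⟩ a (hadj a)
          have h2 : fg.1.1.1 ⟨b, by simp⟩ = x := fg.2
          rw [h2] at this
          exact this, fun h => fg.1.2.2.2.2.2 a (by rw [h])⟩⟩
      invFun := fun g => ⟨⟨(fun _ => x, g.1), fun a c _ => by rw [hsub a, hsub c], g.2.1,
        fun y a _ => (g.2.2 a).1, fun y => by simp, fun a => by simpa using (g.2.2 a).2⟩, rfl⟩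
      left_inv := by
        rintro ⟨⟨⟨f', g⟩, h1⟩, h2⟩
        apply Subtype.ext
        apply Subtype.ext
        refine Prod.ext ?_ rfl
        funext y
        rw [hsub y]
        exact h2.symm
      right_inv := by
        rintro ⟨g, hg⟩
        rfl }

/-- `Psi` of a single vertex, avoiding a `z` vertex. -/
lemma Psi_single_z (F : SimpleGraph α) (B : W → Z → Prop) (b : α) (x₀ : Z) [DecidableEq Z] :
    Psi F B {b} (.z x₀ : Vt Z W N) =
      ∑ x : Z, if x = x₀ then 0 else (DD B x).descFactorial (dg F b) := by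
  classical
  rw [Psi_eq F B {b} _ (by simp)]
  let f : {fg : ({a // a ∈ ({b} : Finset α)} → Z) × ({a // a ∈ nb F {b}} → W) //
      Injective fg.1 ∧ Injective fg.2 ∧ (∀ y a, F.Adj y.1 a.1 → B (fg.2 a) (fg.1 y)) ∧
      (∀ y, Vt.z (fg.1 y) ≠ (.z x₀ : Vt Z W N)) ∧ ∀ a, Vt.w (fg.2 a) ≠ (.z x₀ : Vt Z W N)} → Z :=
    fun fg => fg.1.1 ⟨b, by simp⟩
  rw [card_eq_sum_fiber f]
  refine Finset.sum_congr rfl fun x _ => ?_
  split_ifs with hx
  · rw [Nat.card_eq_zero]
    left
    constructor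
    rintro ⟨⟨⟨f', g⟩, h1, h2, h3, h4, h5⟩, h6⟩
    have h7 : f' ⟨b, by simp⟩ = x := h6
    refine h4 ⟨b, by simp⟩ ?_
    show Vt.z (f' ⟨b, by simp⟩) = _
    rw [h7, hx]
  have h := card_inj_into (ι := {a // a ∈ nb F {b}}) (fun q => B q x)
  have hc : Nat.card {a // a ∈ nb F {b}} = dg F b := by
    simp [dg]
  rw [hc] at h
  unfold DD
  rw [← h]
  apply Nat.card_congr
  have hadj : ∀ a : {a // a ∈ nb F {b}}, F.Adj b a.1 := by
    intro a
    obtain ⟨y, hy, hya⟩ := (mem_nb F {b} a.1).1 a.2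
    rw [Finset.mem_singleton.1 hy] at hya
    exact hya
  have hsub : ∀ y : {a // a ∈ ({b} : Finset α)}, y = ⟨b, by simp⟩ := fun y =>
    Subtype.ext (Finset.mem_singleton.1 y.2)
  exact
    { toFun := fun fg => ⟨fg.1.1.2, fg.1.2.2.1, fun a => by
          have := fg.1.2.2.2.1 ⟨b, by simp⟩ a (hadj a)
          have h2 : fg.1.1.1 ⟨b, by simp⟩ = x := fg.2
          rw [h2] at this
          exact this⟩
      invFun := fun g => ⟨⟨(fun _ => x, g.1), fun a c _ => by rw [hsub a, hsub c], g.2.1,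
        fun y a _ => (g.2.2 a), fun y => by simpa using hx, fun a => by simp⟩, rfl⟩
      left_inv := by
        rintro ⟨⟨⟨f', g⟩, h1⟩, h2⟩
        apply Subtype.ext
        apply Subtype.ext
        refine Prod.ext ?_ rfl
        funext y
        rw [hsub y]
        exact h2.symm
      right_inv := by
        rintro ⟨g, hg⟩
        rfl }

/-- `Psi` of a set of leaves with common support. -/
lemma Psi_common_w (F : SimpleGraph α) (B : W → Z → Prop) (Y : Finset α) (a₀ : α) (p : W)
    [DecidableEq W] (hY : ∀ a ∈ Y, ∀ b ∈ Y, ¬ F.Adj a b) (hnb : nb F Y = {a₀})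
    (hadj : ∀ y ∈ Y, F.Adj y a₀) :
    Psi F B Y (.w p : Vt Z W N) =
      ∑ q : W, if q = p then 0 else (dW B q).descFactorial Y.card := by
  classical
  rw [Psi_eq F B Y _ hY]
  have ha₀ : a₀ ∈ nb F Y := by rw [hnb]; simp
  have hsub : ∀ y : {a // a ∈ nb F Y}, y = ⟨a₀, ha₀⟩ := fun y =>
    Subtype.ext (Finset.mem_singleton.1 (Finset.ext_iff.1 hnb y.1 |>.1 y.2))
  let f : {fg : ({a // a ∈ Y} → Z) × ({a // a ∈ nb F Y} → W) //
      Injective fg.1 ∧ Injective fg.2 ∧ (∀ y a, F.Adj y.1 a.1 → B (fg.2 a) (fg.1 y)) ∧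
      (∀ y, Vt.z (fg.1 y) ≠ (.w p : Vt Z W N)) ∧ ∀ a, Vt.w (fg.2 a) ≠ (.w p : Vt Z W N)} → W :=
    fun fg => fg.1.2 ⟨a₀, ha₀⟩
  rw [card_eq_sum_fiber f]
  refine Finset.sum_congr rfl fun q _ => ?_
  split_ifs with hx
  · rw [Nat.card_eq_zero]
    left
    constructor
    rintro ⟨⟨⟨f', g⟩, h1, h2, h3, h4, h5⟩, h6⟩
    have h7 : g ⟨a₀, ha₀⟩ = q := h6
    refine h5 ⟨a₀, ha₀⟩ ?_
    show Vt.w (g ⟨a₀, ha₀⟩) = _
    rw [h7, hx]
  have h := card_inj_into (ι := {a // a ∈ Y}) (fun x => B q x)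
  have hc : Nat.card {a // a ∈ Y} = Y.card := by
    simp
  rw [hc] at h
  unfold dW
  rw [← h]
  apply Nat.card_congr
  exact
    { toFun := fun fg => ⟨fg.1.1.1, fg.1.2.1, fun y => by
          have := fg.1.2.2.2.1 y ⟨a₀, ha₀⟩ (hadj y.1 y.2)
          have h2 : fg.1.1.2 ⟨a₀, ha₀⟩ = q := fg.2
          rw [h2] at this
          exact this⟩
      invFun := fun g => ⟨⟨(g.1, fun _ => q), g.2.1, fun a c _ => by rw [hsub a, hsub c],
        fun y a _ => (g.2.2 y), fun y => by simp, fun a => by simpa using hx⟩, rfl⟩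
      left_inv := by
        rintro ⟨⟨⟨f', g⟩, h1⟩, h2⟩
        apply Subtype.ext
        apply Subtype.ext
        refine Prod.ext rfl ?_
        funext y
        rw [hsub y]
        exact h2.symm
      right_inv := by
        rintro ⟨g, hg⟩
        rfl }

/-- `Psi` is bounded. -/
lemma Psi_le (F : SimpleGraph α) (B : W → Z → Prop) (Y : Finset α) (v : Vt Z W N)
    (hW : 0 < Fintype.card W) :
    Psi F B Y v ≤ (Fintype.card Z + Fintype.card W) ^ Fintype.card α := by
  classical
  by_cases hY : ∀ a ∈ Y, ∀ b ∈ Y, ¬ F.Adj a b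
  · rw [Psi_eq F B Y v hY]
    have hnY : ∀ a, a ∈ nb F Y → a ∉ Y := by
      intro a ha haY
      obtain ⟨y, hy, hya⟩ := (mem_nb F Y a).1 ha
      exact hY y hy a haY hya
    have h1 : Nat.card {fg : ({a // a ∈ Y} → Z) × ({a // a ∈ nb F Y} → W) //
      Injective fg.1 ∧ Injective fg.2 ∧ (∀ y a, F.Adj y.1 a.1 → B (fg.2 a) (fg.1 y)) ∧
      (∀ y, Vt.z (fg.1 y) ≠ v) ∧ ∀ a, Vt.w (fg.2 a) ≠ v} ≤
      Nat.card (({a // a ∈ Y} → Z) × ({a // a ∈ nb F Y} → W)) :=
      Nat.card_le_card_of_injective _ Subtype.val_injective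
    refine h1.trans ?_
    rw [Nat.card_prod, Nat.card_fun, Nat.card_fun]
    simp only [Nat.card_eq_fintype_card, Fintype.card_coe]
    have h2 : Y.card + (nb F Y).card ≤ Fintype.card α := by
      rw [← Finset.card_union_of_disjoint]
      · exact Finset.card_le_univ _
      · rw [Finset.disjoint_left]
        exact fun a ha hb => hnY a hb ha
    calc Fintype.card Z ^ Y.card * Fintype.card W ^ (nb F Y).card
          ≤ (Fintype.card Z + Fintype.card W) ^ Y.card *
            (Fintype.card Z + Fintype.card W) ^ (nb F Y).card :=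
            Nat.mul_le_mul (Nat.pow_le_pow_left (by omega) _) (Nat.pow_le_pow_left (by omega) _)
        _ = (Fintype.card Z + Fintype.card W) ^ (Y.card + (nb F Y).card) := by rw [pow_add]
        _ ≤ _ := Nat.pow_le_pow_right (by omega) h2
  · rw [Psi_dep F B Y v hY]
    exact Nat.zero_le _

end

end Pool.Agent.Hhelper53.Hyper
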