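import Pool.Agent.Hhelper53.Hyper.Graph

set_option autoImplicit false

namespace Pool.Agent.Hhelper53.Hyper

open SimpleGraph Function

/-- Split `J` according to the set of vertices of `F` mapped into a given part of `G`. -/
lemma J_eq_sum {α β : Type} [Fintype α] [Finite β] [DecidableEq α] (F : SimpleGraph α)
    (G : SimpleGraph β) (v : β) (X : β → Prop) :
    J F G v = ∑ S : Finset α,
      Nat.card {φ : α → β // (IsEmb F G φ ∧ ∀ a, φ a ≠ v) ∧ ∀ a, X (φ a) ↔ a ∈ S} := by
  classical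
  unfold J
  rw [card_eq_sum_fiber (fun φ : {φ : α → β // IsEmb F G φ ∧ ∀ a, φ a ≠ v} =>
    Finset.univ.filter (fun a => X (φ.1 a)))]
  refine Finset.sum_congr rfl fun S _ => Nat.card_congr ?_
  refine (Equiv.subtypeSubtypeEquivSubtypeInter (fun φ : α → β => IsEmb F G φ ∧ ∀ a, φ a ≠ v)
    (fun φ => Finset.univ.filter (fun a => X (φ a)) = S)).trans
    (Equiv.subtypeEquivRight fun φ => ?_)
  refine and_congr_right fun _ => ?_
  rw [Finset.ext_iff]
  simp

section defs

variable {Z W : Type} {N : ℕ}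

/-- core vertices -/
def isH : Vt Z W N → Prop
  | .h _ => True
  | _ => False

/-- low vertices -/
def isZ : Vt Z W N → Prop
  | .z _ => True
  | _ => False

/-- top clique vertices -/
def isW : Vt Z W N → Prop
  | .w _ => True
  | _ => False

/-- vertices adjacent to all the core -/
def isDW : Vt Z W N → Prop
  | .w _ => True
  | .d _ => True
  | _ => False

def hval : (v : Vt Z W N) → isH v → Fin 6
  | .h x, _ => x

def zval : (v : Vt Z W N) → isZ v → Z
  | .z x, _ => x

def wval : (v : Vt Z W N) → isW v → W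
  | .w x, _ => x

lemma hval_spec (v : Vt Z W N) (hv : isH v) : Vt.h (hval v hv) = v := by
  cases v <;> first | rfl | exact hv.elim

lemma zval_spec (v : Vt Z W N) (hv : isZ v) : Vt.z (zval v hv) = v := by
  cases v <;> first | rfl | exact hv.elim

lemma wval_spec (v : Vt Z W N) (hv : isW v) : Vt.w (wval v hv) = v := by
  cases v <;> first | rfl | exact hv.elim

lemma adj_core (B : W → Z → Prop) (u v : Vt Z W N) (hu : isH u) (hv : ¬ isH v) :
    adj B u v ↔ isDW v := by
  cases u <;> cases v <;> simp_all [isH, isDW, adj]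

lemma adj_w_nz (B : W → Z → Prop) (u v : Vt Z W N) (hu : isW u) (hv : ¬ isZ v) (huv : u ≠ v) :
    adj B u v := by
  cases u <;> cases v <;> simp_all [isW, isZ, adj]

lemma isW_of_adj_z (B : W → Z → Prop) (u v : Vt Z W N) (hu : isZ u) (h : adj B u v) : isW v := by
  cases u <;> cases v <;> simp_all [isW, isZ, adj]

lemma not_adj_zz (B : W → Z → Prop) (u v : Vt Z W N) (hu : isZ u) (hv : isZ v) : ¬ adj B u v := by
  cases u <;> cases v <;> simp_all [isZ, adj]

end defs

section core

variable {α : Type} [Fintype α] [DecidableEq α] {Z W : Type} [Fintype Z] [Fintype W] {N : ℕ}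

/-- Number of ways to map `F[S]` into the core, avoiding `c`. -/
noncomputable def Acore (F : SimpleGraph α) (S : Finset α) (c : Fin 6) : ℕ :=
  Nat.card {ψ : {a // a ∈ S} → Fin 6 //
    Injective ψ ∧ (∀ a b, F.Adj a.1 b.1 → Hb (ψ a) (ψ b) = true) ∧ ∀ a, ψ a ≠ c}

/-- Number of ways to map the rest outside the core. -/
noncomputable def Ecore (F : SimpleGraph α) (B : W → Z → Prop) (N : ℕ) (S : Finset α) : ℕ :=
  Nat.card {ρ : {a // ¬ a ∈ S} → Vt Z W N //
    Injective ρ ∧ (∀ a b, F.Adj a.1 b.1 → adj B (ρ a) (ρ b)) ∧ (∀ a, ¬ isH (ρ a)) ∧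
      ∀ a : {a // ¬ a ∈ S}, (∃ b ∈ S, F.Adj a.1 b) → isDW (ρ a)}

lemma J_core (F : SimpleGraph α) (B : W → Z → Prop) (c : Fin 6) :
    J F (GG B N) (.h c) = ∑ S : Finset α, Acore F S c * Ecore F B N S := by
  classical
  rw [J_eq_sum F (GG B N) (.h c) isH]
  refine Finset.sum_congr rfl fun S _ => ?_
  rw [card_factor (fun a => a ∈ S) _
    (fun ψ => (∀ a, isH (ψ a)) ∧ Injective ψ ∧
      (∀ a b, F.Adj a.1 b.1 → adj B (ψ a) (ψ b)) ∧ ∀ a, ψ a ≠ .h c)
    (fun _ ρ => Injective ρ ∧ (∀ a b, F.Adj a.1 b.1 → adj B (ρ a) (ρ b)) ∧ (∀ a, ¬ isH (ρ a)) ∧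
      ∀ a : {a // ¬ a ∈ S}, (∃ b ∈ S, F.Adj a.1 b) → isDW (ρ a))
    (Ecore F B N S) ?_ ?_]
  · congr 1
    unfold Acore
    apply Nat.card_congr
    exact
      { toFun := fun ψ => ⟨fun a => hval (ψ.1 a) (ψ.2.1 a), by
          obtain ⟨ψ, h1, h2, h3, h4⟩ := ψ
          refine ⟨?_, ?_, ?_⟩
          · intro a b hab
            apply h2
            rw [← hval_spec _ (h1 a), ← hval_spec _ (h1 b)]
            exact congrArg _ hab
          · intro a b hab
            have := h3 a b hab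
            rw [← hval_spec _ (h1 a), ← hval_spec _ (h1 b)] at this
            exact this
          · intro a hab
            apply h4 a
            rw [← hval_spec _ (h1 a)]
            exact congrArg _ hab⟩
        invFun := fun ψ => ⟨fun a => .h (ψ.1 a), by
          obtain ⟨ψ, h2, h3, h4⟩ := ψ
          refine ⟨fun a => trivial, ?_, ?_, ?_⟩
          · intro a b hab
            apply h2
            simpa using hab
          · intro a b hab
            exact h3 a b hab
          · intro a hab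
            apply h4 a
            simpa using hab⟩
        left_inv := by
          rintro ⟨ψ, h1, h2⟩
          apply Subtype.ext
          funext a
          exact hval_spec _ _
        right_inv := by
          rintro ⟨ψ, h2⟩
          rfl }
  · intro φ
    constructor
    · rintro ⟨⟨⟨hinj, hhom⟩, hav⟩, hS⟩
      refine ⟨⟨fun a => (hS a).2 a.2, fun a b hab => Subtype.ext (hinj hab),
        fun a b hab => hhom _ _ hab, fun a => hav _⟩,
        fun a b hab => Subtype.ext (hinj hab), fun a b hab => hhom _ _ hab,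
        fun a h => a.2 ((hS a).1 h), ?_⟩
      rintro a ⟨b, hb, hab⟩
      exact (adj_core B (φ b) (φ a) ((hS b).2 hb) (fun h => a.2 ((hS a).1 h))).1
        (hhom _ _ hab.symm)
    · rintro ⟨⟨h1, h2, h3, h4⟩, h5, h6, h7, h8⟩
      have h1' : ∀ a, a ∈ S → isH (φ a) := fun a ha => h1 ⟨a, ha⟩
      have h7' : ∀ a, a ∉ S → ¬ isH (φ a) := fun a ha => h7 ⟨a, ha⟩
      refine ⟨⟨⟨?_, ?_⟩, ?_⟩, ?_⟩
      · intro a b hab
        by_cases ha : a ∈ S <;> by_cases hb : b ∈ S
        · exact congrArg Subtype.val (@h2 ⟨a, ha⟩ ⟨b, hb⟩ hab)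
        · exact absurd (hab ▸ h1' a ha) (h7' b hb)
        · exact absurd (hab ▸ h1' b hb) (h7' a ha)
        · exact congrArg Subtype.val (@h5 ⟨a, ha⟩ ⟨b, hb⟩ hab)
      · intro a b hab
        by_cases ha : a ∈ S <;> by_cases hb : b ∈ S
        · exact h3 ⟨a, ha⟩ ⟨b, hb⟩ hab
        · exact (adj_core B _ _ (h1 ⟨a, ha⟩) (h7 ⟨b, hb⟩)).2 (h8 ⟨b, hb⟩ ⟨a, ha, hab.symm⟩)
        · exact ((GG B N).adj_symm ((adj_core B _ _ (h1 ⟨b, hb⟩) (h7 ⟨a, ha⟩)).2
            (h8 ⟨a, ha⟩ ⟨b, hb, hab⟩)))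
        · exact h6 ⟨a, ha⟩ ⟨b, hb⟩ hab
      · intro a hab
        by_cases ha : a ∈ S
        · exact h4 ⟨a, ha⟩ hab
        · exact h7' a ha (by rw [hab]; trivial)
      · intro a
        by_cases ha : a ∈ S
        · exact ⟨fun _ => ha, fun _ => h1 ⟨a, ha⟩⟩
        · exact ⟨fun h => absurd h (h7 ⟨a, ha⟩), fun h => absurd h ha⟩
  · intro ψ _
    rfl

end core

end Pool.Agent.Hhelper53.Hyper
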