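import Pool.Agent.Hhelper53.Hyper.Basic

set_option autoImplicit false

namespace Pool.Agent.Hhelper53.Hyper

open SimpleGraph Function

/-- Vertices of the graph: `z` (low independent part), `w` (top clique), `h` (core on 6 vertices),
`d` (dominating vertices), `i` (isolated-type vertices). -/
inductive Vt (Z W : Type) (N : ℕ) : Type
  | z (x : Z)
  | w (p : W)
  | h (x : Fin 6)
  | d (k : Fin N)
  | i (l : Fin N)
  deriving DecidableEq, Fintype

/-- The core graph on six vertices. -/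
def Hb (x y : Fin 6) : Bool :=
  (([(0,4),(0,5),(1,3),(1,5),(2,3),(2,4),(2,5),(3,4),(4,5)] : List (Fin 6 × Fin 6)).contains (x, y))
  || (([(0,4),(0,5),(1,3),(1,5),(2,3),(2,4),(2,5),(3,4),(4,5)] : List (Fin 6 × Fin 6)).contains (y, x))

lemma Hb_symm : ∀ x y, Hb x y = Hb y x := by decide
lemma Hb_irrefl : ∀ x, Hb x x = false := by decide
lemma Hb_exists : ∀ x, ∃ y, Hb x y = true := by decide

/-- Adjacency relation. -/
def adj {Z W : Type} {N : ℕ} (B : W → Z → Prop) : Vt Z W N → Vt Z W N → Prop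
  | .z _, .z _ => False
  | .z x, .w p => B p x
  | .z _, .h _ => False
  | .z _, .d _ => False
  | .z _, .i _ => False
  | .w p, .z x => B p x
  | .w p, .w q => p ≠ q
  | .w _, .h _ => True
  | .w _, .d _ => True
  | .w _, .i _ => True
  | .h _, .z _ => False
  | .h _, .w _ => True
  | .h x, .h y => Hb x y = true
  | .h _, .d _ => True
  | .h _, .i _ => False
  | .d _, .z _ => False
  | .d _, .w _ => True
  | .d _, .h _ => True
  | .d k, .d l => k ≠ l
  | .d k, .i l => l ≤ k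
  | .i _, .z _ => False
  | .i _, .w _ => True
  | .i _, .h _ => False
  | .i l, .d k => l ≤ k
  | .i _, .i _ => False

/-- The graph. -/
def GG {Z W : Type} (B : W → Z → Prop) (N : ℕ) : SimpleGraph (Vt Z W N) where
  Adj := adj B
  symm := ⟨by
    rintro (x|p|x|k|l) (x'|p'|x'|k'|l') h <;> simp only [adj] at h ⊢ <;>
      first | exact h | exact h.symm | (rw [Hb_symm]; exact h)⟩
  loopless := ⟨by
    rintro (x|p|x|k|l) h <;> simp only [adj] at h
    · exact h rfl
    · rw [Hb_irrefl] at h; exact absurd h (by decide)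
    · exact h rfl⟩

@[simp] lemma GG_adj {Z W : Type} (B : W → Z → Prop) (N : ℕ) (a b : Vt Z W N) :
    (GG B N).Adj a b ↔ adj B a b := Iff.rfl

section cross

variable {α : Type} [Fintype α] {Z W : Type} [Fintype Z] [Fintype W] {B : W → Z → Prop} {N : ℕ}
  (F : SimpleGraph α)

/-- The clique of all `w` vertices. -/
noncomputable def QW (s : Finset W) : Finset (Vt Z W N) := s.map ⟨Vt.w, fun _ _ h => by cases h; rfl⟩

omit [Fintype Z] [Fintype W] in
@[simp] lemma mem_QW (s : Finset W) (x : Vt Z W N) :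
    x ∈ (QW s : Finset (Vt Z W N)) ↔ ∃ p ∈ s, Vt.w p = x := by
  simp only [QW, Finset.mem_map]
  exact Iff.rfl

omit [Fintype Z] [Fintype W] in
@[simp] lemma card_QW (s : Finset W) : (QW s : Finset (Vt Z W N)).card = s.card := by
  simp [QW]

/-- Common shape of the comparisons which use the whole `W` clique. -/
lemma cross_gen (hF : ∃ a b, F.Adj a b) (hW : Fintype.card α ≤ Fintype.card W)
    (u v y : Vt Z W N) (huv : u ≠ v)
    (hN : ∀ x, adj B u x → x ≠ v → adj B v x) (hvy : adj B v y) (hyu : y ≠ u)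
    (huy : ¬ adj B u y) (hv : ∀ p : W, adj B v (.w p)) (hy : ∀ p : W, adj B y (.w p))
    (hu : ∀ p : W, Vt.w p ≠ u) :
    J F (GG B N) v < J F (GG B N) u := by
  refine J_lt_of_dominated F (GG B N) u v y (QW Finset.univ) huv hN hvy hyu
    huy ?_ ?_ ?_ ?_ ?_ hF
  · simpa using hW
  · rintro (y|p|y|k|l') <;> simp [adj]
  · rintro (y|p|y|k|l') <;> simp [hv]
  · rintro (y|p|y|k|l') <;> simp [hy]
  · simp only [mem_QW, not_exists, not_and]
    exact fun p _ => hu p

lemma cross_zi (hF : ∃ a b, F.Adj a b) (hW : Fintype.card α ≤ Fintype.card W) (x : Z) (l : Fin N) :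
    J F (GG B N) (.i l) < J F (GG B N) (.z x) := by
  refine cross_gen F hF hW (.z x) (.i l) (.d l) (by simp) ?_ ?_ (by simp) ?_ ?_ ?_ ?_
  · rintro (y|p|y|k|l') <;> simp [adj]
  all_goals simp [adj]

lemma cross_zh (hF : ∃ a b, F.Adj a b) (hW : Fintype.card α ≤ Fintype.card W) (x : Z) (c : Fin 6)
    (k : Fin N) :
    J F (GG B N) (.h c) < J F (GG B N) (.z x) := by
  refine cross_gen F hF hW (.z x) (.h c) (.d k) (by simp) ?_ ?_ (by simp) ?_ ?_ ?_ ?_
  · rintro (y|p|y|k|l') <;> simp [adj]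
  all_goals simp [adj]

lemma cross_zd (hF : ∃ a b, F.Adj a b) (hW : Fintype.card α ≤ Fintype.card W) (x : Z) (k : Fin N) :
    J F (GG B N) (.d k) < J F (GG B N) (.z x) := by
  refine cross_gen F hF hW (.z x) (.d k) (.h 0) (by simp) ?_ ?_ (by simp) ?_ ?_ ?_ ?_
  · rintro (y|p|y|k|l') <;> simp [adj]
  all_goals simp [adj]

lemma cross_ih (hF : ∃ a b, F.Adj a b) (hW : Fintype.card α ≤ Fintype.card W) (l : Fin N)
    (c : Fin 6) :
    J F (GG B N) (.h c) < J F (GG B N) (.i l) := by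
  obtain ⟨c', hc'⟩ := Hb_exists c
  refine cross_gen F hF hW (.i l) (.h c) (.h c') (by simp) ?_ ?_ (by simp) ?_ ?_ ?_ ?_
  · rintro (y|p|y|k|l') <;> simp [adj]
  all_goals simp [adj, hc']

lemma cross_id (hF : ∃ a b, F.Adj a b) (hW : Fintype.card α ≤ Fintype.card W) (l k : Fin N) :
    J F (GG B N) (.d k) < J F (GG B N) (.i l) := by
  refine cross_gen F hF hW (.i l) (.d k) (.h 0) (by simp) ?_ ?_ (by simp) ?_ ?_ ?_ ?_
  · rintro (y|p|y|k|l') <;> simp +contextual [adj, eq_comm]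
  all_goals simp [adj]

lemma cross_hd (hF : ∃ a b, F.Adj a b) (hW : Fintype.card α ≤ Fintype.card W) (c : Fin 6)
    (k : Fin N) :
    J F (GG B N) (.d k) < J F (GG B N) (.h c) := by
  refine cross_gen F hF hW (.h c) (.d k) (.i ⟨0, k.pos⟩) (by simp) ?_ ?_ (by simp) ?_ ?_ ?_ ?_
  · rintro (y|p|y|k'|l') h1 h2
    · exact h1.elim
    · trivial
    · trivial
    · exact fun h => h2 (h ▸ rfl)
    · exact h1.elim
  all_goals simp [adj, Fin.le_def]

lemma cross_ii (hF : ∃ a b, F.Adj a b) (hW : Fintype.card α ≤ Fintype.card W) (l l' : Fin N)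
    (h : l' < l) :
    J F (GG B N) (.i l') < J F (GG B N) (.i l) := by
  refine cross_gen F hF hW (.i l) (.i l') (.d l') ?_ ?_ ?_ (by simp) ?_ ?_ ?_ ?_
  · simpa using h.ne'
  · rintro (y|p|y|k|l'') <;> simp [adj]
    intro h1
    exact h.le.trans h1
  all_goals simp [adj, h]

lemma cross_dd (hF : ∃ a b, F.Adj a b) (hW : Fintype.card α ≤ Fintype.card W) (k k' : Fin N)
    (h : k < k') :
    J F (GG B N) (.d k') < J F (GG B N) (.d k) := by
  refine cross_gen F hF hW (.d k) (.d k') (.i k') ?_ ?_ ?_ (by simp) ?_ ?_ ?_ ?_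
  · simpa using h.ne
  · rintro (y|p|y|k''|l'') <;> simp +contextual [adj, eq_comm]
    intro h1
    exact h1.trans h.le
  all_goals simp [adj, h]

/-- Comparisons with a `w` vertex (other than `d` against `w`). -/
lemma cross_gen_w (hF : ∃ a b, F.Adj a b) (hW : Fintype.card α < Fintype.card W)
    (u y : Vt Z W N) (p : W) (huv : u ≠ .w p)
    (hN : ∀ x, adj B u x → x ≠ .w p → adj B (.w p) x) (hvy : adj B (.w p) y) (hyu : y ≠ u)
    (huy : ¬ adj B u y) (hy : ∀ p : W, adj B y (.w p)) (hu : ∀ p : W, Vt.w p ≠ u) :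
    J F (GG B N) (.w p) < J F (GG B N) u := by
  classical
  refine J_lt_of_dominated F (GG B N) u (.w p) y (QW (Finset.univ.erase p)) huv hN hvy hyu
    huy ?_ ?_ ?_ ?_ ?_ hF
  · simp only [card_QW, Finset.card_erase_of_mem (Finset.mem_univ p), Finset.card_univ]
    omega
  · rintro (y|p|y|k|l') <;> simp [adj]
  · rintro (y|p|y|k|l') <;> simp [adj, eq_comm]
  · rintro (y|p|y|k|l') <;> simp [hy]
  · simp only [mem_QW, not_exists, not_and]
    exact fun p _ => hu p

lemma cross_zw (hF : ∃ a b, F.Adj a b) (hW : Fintype.card α < Fintype.card W) (x : Z) (p : W)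
    (k : Fin N) :
    J F (GG B N) (.w p) < J F (GG B N) (.z x) := by
  refine cross_gen_w F hF hW (.z x) (.d k) p (by simp) ?_ ?_ (by simp) ?_ ?_ ?_
  · rintro (y|p|y|k|l') <;> simp [adj, eq_comm]
  all_goals simp [adj]

lemma cross_iw (hF : ∃ a b, F.Adj a b) (hW : Fintype.card α < Fintype.card W) (l : Fin N) (p : W) :
    J F (GG B N) (.w p) < J F (GG B N) (.i l) := by
  refine cross_gen_w F hF hW (.i l) (.h 0) p (by simp) ?_ ?_ (by simp) ?_ ?_ ?_
  · rintro (y|p|y|k|l') <;> simp [adj, eq_comm]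
  all_goals simp [adj]

lemma cross_hw (hF : ∃ a b, F.Adj a b) (hW : Fintype.card α < Fintype.card W) (c : Fin 6) (p : W)
    (l : Fin N) :
    J F (GG B N) (.w p) < J F (GG B N) (.h c) := by
  refine cross_gen_w F hF hW (.h c) (.i l) p (by simp) ?_ ?_ (by simp) ?_ ?_ ?_
  · rintro (y|q|y|k'|l') h1 h2
    · exact h1.elim
    · exact fun h => h2 (h ▸ rfl)
    · trivial
    · trivial
    · trivial
  all_goals simp [adj]

lemma cross_dw (hF : ∃ a b, F.Adj a b) (k : Fin N) (p : W) (x : Z) (hx : B p x)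
    (s : Finset W) (hs : Fintype.card α ≤ s.card) (hps : p ∉ s) (hsx : ∀ q ∈ s, B q x) :
    J F (GG B N) (.w p) < J F (GG B N) (.d k) := by
  classical
  refine J_lt_of_dominated F (GG B N) (.d k) (.w p) (.z x) (QW s) (by simp) ?_ ?_ (by simp)
    ?_ ?_ ?_ ?_ ?_ ?_ hF
  · rintro (y|p|y|k|l') <;> simp [adj, eq_comm]
  · simpa [adj] using hx
  · simp [adj]
  · simpa using hs
  · rintro (y|p|y|k|l') <;> simp [adj]
  · rintro (y|q|y|k|l') <;> simp [adj]
    intro hq h
    exact hps (h ▸ hq)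
  · rintro (y|q|y|k|l') <;> simp [adj]
    exact hsx q
  · simp

end cross

end Pool.Agent.Hhelper53.Hyper
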