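import Pool.Agent.Hhelper53.Hyper.Bip

set_option autoImplicit false
set_option linter.unusedSectionVars false

namespace Pool.Agent.Hhelper53.Hyper

open SimpleGraph Function

/-- `F` has at least two edges. -/
def TwoEdges {α : Type} (F : SimpleGraph α) : Prop :=
  ∃ a b c d, F.Adj a b ∧ F.Adj c d ∧ s(a, b) ≠ s(c, d)

lemma twoEdges_cases {α : Type} (F : SimpleGraph α) (h : TwoEdges F) :
    (∃ a b d, F.Adj a b ∧ F.Adj b d ∧ a ≠ d) ∨
    ((∀ a b d, F.Adj a b → F.Adj a d → b = d) ∧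
      ∃ a b d e, F.Adj a b ∧ F.Adj d e ∧ a ≠ d ∧ a ≠ e ∧ b ≠ d ∧ b ≠ e) := by
  by_cases h1 : ∃ a b d, F.Adj a b ∧ F.Adj b d ∧ a ≠ d
  · left; exact h1
  · right
    push Not at h1
    have hm : ∀ a b d, F.Adj a b → F.Adj a d → b = d := fun a b d hab had => h1 b a d hab.symm had
    refine ⟨hm, ?_⟩
    obtain ⟨a, b, c, d, hab, hcd, hne⟩ := h
    refine ⟨a, b, c, d, hab, hcd, ?_, ?_, ?_, ?_⟩
    · rintro rfl
      exact hne (by rw [hm _ _ _ hab hcd])
    · rintro rfl
      exact hne (by rw [hm _ _ _ hab hcd.symm, Sym2.eq_swap])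
    · rintro rfl
      exact hne (by rw [hm _ _ _ hab.symm hcd, Sym2.eq_swap])
    · rintro rfl
      exact hne (by rw [hm _ _ _ hab.symm hcd.symm])

section

variable {α : Type} [Fintype α] [DecidableEq α] {N : ℕ}

/-- Core vertices are distinguished. -/
lemma core_ne {Z W : Type} [Fintype Z] [Fintype W] (F : SimpleGraph α) (B : W → Z → Prop)
    (c c' : Fin 6) (hcc : c ≠ c')
    (hN : Big (Fintype.card α) (Fintype.card Z) (Fintype.card W) N)
    (hF : TwoEdges F) : J F (GG B N) (.h c) ≠ J F (GG B N) (.h c') := by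
  have hedge : ∃ a b, F.Adj a b := by
    obtain ⟨a, b, _, _, h, _⟩ := hF
    exact ⟨a, b, h⟩
  rcases tri c c' hcc with h | h | h | h
  · exact (core_A F B c c' hN h hedge).ne'
  · exact (core_A F B c' c hN h hedge).ne
  · rcases twoEdges_cases F hF with h1 | ⟨h1, h2⟩
    · exact (core_B F B c c' hN h h1).ne'
    · exact (core_C F B c c' hN h h1 h2).ne
  · rcases twoEdges_cases F hF with h1 | ⟨h1, h2⟩
    · exact (core_B F B c' c hN h h1).ne
    · exact (core_C F B c' c hN h h1 h2).ne'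

/-- Tied `w` vertices are distinguished. -/
lemma w_tie_ne (S : ℕ) (F : SimpleGraph α) (p p' : Wt S)
    (hN : Big (Fintype.card α) (Fintype.card (Fin (S + 1))) (Fintype.card (Wt S)) N)
    (hF : TwoEdges F) (hiso : ∀ b, 1 ≤ dg F b)
    (hS : 2 ^ (Fintype.card α + 1) * 3 ^ Fintype.card α + 3 + Fintype.card α ≤ S)
    (h1 : p.1.1 = p'.1.1) (h2 : p.1.2 < p'.1.2) :
    J F (GG (BB S) N) (.w p) ≠ J F (GG (BB S) N) (.w p') := by
  classical
  have ht := Tie_BB S p p' h1 h2
  set D := DD (BB S) p.1.2 with hD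
  set D' := DD (BB S) p'.1.2 with hD'
  have hSD : S ≤ D := le_DD S _
  have hDW : D ≤ Fintype.card (Wt S) := DD_le_card _ _
  have hW : Fintype.card α + 1 ≤ Fintype.card (Wt S) := by omega
  have hne : Nonempty α := by
    obtain ⟨a, _⟩ := hF
    exact ⟨a⟩
  obtain ⟨b₀, -, hb₀⟩ := Finset.exists_min_image (Finset.univ : Finset α) (dg F) Finset.univ_nonempty
  have hdgle : ∀ b, dg F b ≤ Fintype.card α := fun b => Finset.card_le_univ _
  by_cases hδ : 2 ≤ dg F b₀
  · refine (w_pair_min F (BB S) p p' hN hW b₀ (dg F b₀) (by omega) rfl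
      (fun b => hb₀ b (Finset.mem_univ _)) ?_).ne'
    have h3 := ht.2.2 (fk (dg F b₀ - 1))
    have h4 := fk_lt (dg F b₀ - 1) D D' (by omega) ht.2.1 (by have := hdgle b₀; omega)
    linarith
  · by_cases hk : ∃ b, 2 ≤ dg F b
    · have hne2 : (Finset.univ.filter (fun b => 2 ≤ dg F b)).Nonempty := by
        obtain ⟨b, hb⟩ := hk
        exact ⟨b, by simpa using hb⟩
      obtain ⟨b₂, hb₂, hb₂'⟩ := Finset.exists_min_image _ (dg F) hne2
      have hb₂2 : 2 ≤ dg F b₂ := by simpa using hb₂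
      have hmin : ∀ b, 2 ≤ dg F b → dg F b₂ ≤ dg F b := fun b hb => hb₂' b (by simpa using hb)
      by_cases hlp : dg F b₂ = 2 ∨ ∀ b₀ b₁ a₀ a₁, ¬ LeafPair F b₀ b₁ a₀ a₁
      · exact (tie_single F (BB S) p p' D D' hN hW hiso ht (by omega) b₂ (dg F b₂) hb₂2 rfl hmin
          hlp).ne'
      · push Not at hlp
        obtain ⟨hne, c₀, c₁, d₀, d₁, hl⟩ := hlp
        by_cases h3 : dg F b₂ = 3
        · exact (tie_three F (BB S) p p' D D' hN hW hiso ht (by omega) b₂ h3
            (fun b hb => by have := hmin b hb; omega)).ne'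
        · exact (tie_leaf F (BB S) p p' D D' hN hW hiso ht c₀ c₁ d₀ d₁ hl
            (fun b hb => by have := hmin b hb; omega)).ne
    · push Not at hk
      have hleaf : ∀ b, dg F b = 1 := fun b => by
        have := hk b
        have := hiso b
        omega
      have huniq : ∀ a b, F.Adj a b → ∀ x, F.Adj a x ↔ x = b := by
        intro a b hab x
        obtain ⟨y, hy⟩ := leaf_support F a (hleaf a)
        rw [hy x, ← (hy b).1 hab]
      rcases twoEdges_cases F hF with ⟨a, b, d, hab, hbd, had⟩ | ⟨hm, a, b, d, e, hab, hde, had, hae, hbd, hbe⟩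
      · exact absurd ((huniq b a hab.symm d).1 hbd).symm had
      · have hl : LeafPair F a d b e := by
          refine ⟨had, hbe, huniq a b hab, huniq d e hde, fun h => ?_⟩
          exact hbd ((huniq a b hab d).1 h).symm
        exact (tie_leaf F (BB S) p p' D D' hN hW hiso ht a d b e hl
            (fun b hb => by have := hleaf b; omega)).ne

/-- All `w` vertices are distinguished. -/
lemma w_ne (S : ℕ) (F : SimpleGraph α) (p p' : Wt S) (hpp : p ≠ p')
    (hN : Big (Fintype.card α) (Fintype.card (Fin (S + 1))) (Fintype.card (Wt S)) N)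
    (hF : TwoEdges F) (hiso : ∀ b, 1 ≤ dg F b)
    (hS : 2 ^ (Fintype.card α + 1) * 3 ^ Fintype.card α + 3 + Fintype.card α ≤ S) :
    J F (GG (BB S) N) (.w p) ≠ J F (GG (BB S) N) (.w p') := by
  classical
  have hne : Nonempty α := by
    obtain ⟨a, _⟩ := hF
    exact ⟨a⟩
  have hSD : S ≤ DD (BB S) p.1.2 := le_DD S _
  have hDW : DD (BB S) p.1.2 ≤ Fintype.card (Wt S) := DD_le_card _ _
  have hW : Fintype.card α + 1 ≤ Fintype.card (Wt S) := by omega
  obtain ⟨b₀, -, hb₀⟩ := Finset.exists_min_image (Finset.univ : Finset α) (dg F) Finset.univ_nonempty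
  have hdgle : dg F b₀ ≤ Fintype.card α := Finset.card_le_univ _
  rcases lt_trichotomy p.1.1 p'.1.1 with h | h | h
  · exact (w_pair_min F (BB S) p' p hN hW b₀ (dg F b₀) (hiso b₀) rfl
      (fun b => hb₀ b (Finset.mem_univ _)) (SS_lt S _ (by omega) p' p h)).ne
  · rcases lt_trichotomy p.1.2 p'.1.2 with h' | h' | h'
    · exact w_tie_ne S F p p' hN hF hiso hS h h'
    · exact absurd (Subtype.ext (Prod.ext h h')) hpp
    · exact (w_tie_ne S F p' p hN hF hiso hS h.symm h').symm
  · exact (w_pair_min F (BB S) p p' hN hW b₀ (dg F b₀) (hiso b₀) rfl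
      (fun b => hb₀ b (Finset.mem_univ _)) (SS_lt S _ (by omega) p p' h)).ne'

/-- All `z` vertices are distinguished. -/
lemma z_ne (S : ℕ) (F : SimpleGraph α) (x x' : Fin (S + 1)) (hxx : x ≠ x')
    (hN : Big (Fintype.card α) (Fintype.card (Fin (S + 1))) (Fintype.card (Wt S)) N)
    (hF : TwoEdges F) (hiso : ∀ b, 1 ≤ dg F b)
    (hS : 2 ^ (Fintype.card α + 1) * 3 ^ Fintype.card α + 3 + Fintype.card α ≤ S) :
    J F (GG (BB S) N) (.z x) ≠ J F (GG (BB S) N) (.z x') := by
  classical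
  have hne : Nonempty α := by
    obtain ⟨a, _⟩ := hF
    exact ⟨a⟩
  have hSD : S ≤ DD (BB S) x := le_DD S _
  have hSD' : S ≤ DD (BB S) x' := le_DD S _
  have hDW : DD (BB S) x ≤ Fintype.card (Wt S) := DD_le_card _ _
  rcases lt_or_gt_of_ne hxx with h | h
  · exact (z_pair F (BB S) x x' hN (by omega) hne hiso (by omega) (DD_lt S _ _ h)).ne'
  · exact (z_pair F (BB S) x' x hN (by omega) hne hiso (by omega) (DD_lt S _ _ h)).ne

/-- All vertices are distinguished, for `F` without isolated vertices. -/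
lemma all_ne (S : ℕ) (F : SimpleGraph α) (v v' : Vt (Fin (S + 1)) (Wt S) N) (hvv : v ≠ v')
    (hN : Big (Fintype.card α) (Fintype.card (Fin (S + 1))) (Fintype.card (Wt S)) N)
    (hF : TwoEdges F) (hiso : ∀ b, 1 ≤ dg F b)
    (hS : 2 ^ (Fintype.card α + 1) * 3 ^ Fintype.card α + 3 + Fintype.card α ≤ S) :
    J F (GG (BB S) N) v ≠ J F (GG (BB S) N) v' := by
  classical
  have hedge : ∃ a b, F.Adj a b := by
    obtain ⟨a, b, _, _, h, _⟩ := hF
    exact ⟨a, b, h⟩
  have hSD : S ≤ DD (BB S) 0 := le_DD S _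
  have hDW : DD (BB S) 0 ≤ Fintype.card (Wt S) := DD_le_card _ _
  have hW : Fintype.card α < Fintype.card (Wt S) := by omega
  have hN0 : 0 < N := by
    have := hN.2
    omega
  have hdw : ∀ (k : Fin N) (p : Wt S), J F (GG (BB S) N) (.w p) < J F (GG (BB S) N) (.d k) := by
    intro k p
    have hx : BB S p p.1.2 := Or.inr rfl
    refine cross_dw F hedge k p p.1.2 hx
      ((Finset.univ.filter (fun q => BB S q p.1.2)).erase p) ?_ (Finset.notMem_erase _ _) ?_
    · have h1 : S ≤ DD (BB S) p.1.2 := le_DD S _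
      have h2 : DD (BB S) p.1.2 = (Finset.univ.filter (fun q => BB S q p.1.2)).card := by
        unfold DD
        rw [Nat.card_eq_fintype_card, Fintype.card_subtype]
      have h3 := Finset.card_erase_of_mem (s := Finset.univ.filter (fun q => BB S q p.1.2)) (a := p)
        (by simpa using hx)
      omega
    · intro q hq
      have := Finset.mem_of_mem_erase hq
      simpa using this
  have k0 : Fin N := ⟨0, hN0⟩
  rcases v with x | p | c | k | l <;> rcases v' with x' | p' | c' | k' | l'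
  · exact z_ne S F x x' (fun h => hvv (by rw [h])) hN hF hiso hS
  · exact (cross_zw F hedge hW x p' k0).ne'
  · exact (cross_zh F hedge hW.le x c' k0).ne'
  · exact (cross_zd F hedge hW.le x k').ne'
  · exact (cross_zi F hedge hW.le x l').ne'
  · exact (cross_zw F hedge hW x' p k0).ne
  · exact w_ne S F p p' (fun h => hvv (by rw [h])) hN hF hiso hS
  · exact (cross_hw F hedge hW c' p k0).ne
  · exact (hdw k' p).ne
  · exact (cross_iw F hedge hW l' p).ne
  · exact (cross_zh F hedge hW.le x' c k0).ne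
  · exact (cross_hw F hedge hW c p' k0).ne'
  · exact core_ne F (BB S) c c' (fun h => hvv (by rw [h])) hN hF
  · exact (cross_hd F hedge hW.le c k').ne'
  · exact (cross_ih F hedge hW.le l' c).ne
  · exact (cross_zd F hedge hW.le x' k).ne
  · exact (hdw k p').ne'
  · exact (cross_hd F hedge hW.le c' k).ne
  · rcases lt_trichotomy k k' with h | h | h
    · exact (cross_dd F hedge hW.le k k' h).ne'
    · exact absurd (by rw [h]) hvv
    · exact (cross_dd F hedge hW.le k' k h).ne
  · exact (cross_id F hedge hW.le l' k).ne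
  · exact (cross_zi F hedge hW.le x' l).ne
  · exact (cross_iw F hedge hW l p').ne'
  · exact (cross_ih F hedge hW.le l c').ne'
  · exact (cross_id F hedge hW.le l k').ne'
  · rcases lt_trichotomy l l' with h | h | h
    · exact (cross_ii F hedge hW.le l' l h).ne
    · exact absurd (by rw [h]) hvv
    · exact (cross_ii F hedge hW.le l l' h).ne'

end

/-- All vertices are distinguished by all `F` with at most `n` vertices and at least two edges. -/
lemma all_ne' (n S N : ℕ) (hS : 2 ^ (n + 1) * 3 ^ n + 3 + n ≤ S)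
    (hN : ∀ k ≤ n, Big k (Fintype.card (Fin (S + 1))) (Fintype.card (Wt S)) N) :
    ∀ (k : ℕ) (α : Type) [Fintype α], Fintype.card α = k → k ≤ n → ∀ F : SimpleGraph α, TwoEdges F →
      ∀ v v' : Vt (Fin (S + 1)) (Wt S) N, v ≠ v' → J F (GG (BB S) N) v ≠ J F (GG (BB S) N) v' := by
  classical
  intro k
  induction k with
  | zero =>
    intro α _ hα _ F hF
    obtain ⟨a, _⟩ := hF
    have : 0 < Fintype.card α := Fintype.card_pos_iff.2 ⟨a⟩
    omega
  | succ k ih =>
    intro α _ hα hk F hF v v' hvv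
    by_cases hiso : ∀ b, 1 ≤ dg F b
    · refine all_ne S F v v' hvv (hN _ (by omega)) hF hiso ?_
      rw [hα]
      have h1 : 2 ^ (k + 1 + 1) * 3 ^ (k + 1) ≤ 2 ^ (n + 1) * 3 ^ n :=
        Nat.mul_le_mul (Nat.pow_le_pow_right (by norm_num) (by omega))
          (Nat.pow_le_pow_right (by norm_num) hk)
      omega
    · push Not at hiso
      obtain ⟨a₀, ha₀⟩ := hiso
      have ha : ∀ b, ¬ F.Adj a₀ b := by
        intro b hb
        have h1 : b ∈ nb F {a₀} := (mem_nb_single F a₀ b).2 hb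
        have h2 : 0 < dg F a₀ := Finset.card_pos.2 ⟨b, h1⟩
        omega
      rw [J_isolated F (GG (BB S) N) v a₀ ha, J_isolated F (GG (BB S) N) v' a₀ ha]
      have hcard : Fintype.card {a : α | a ≠ a₀} = k := by
        have h1 := Fintype.card_subtype_compl (fun x => x = a₀)
        have h2 : Fintype.card {x // x = a₀} = 1 := by simp
        have h4 : Fintype.card {a : α | a ≠ a₀} = Fintype.card {x // ¬ x = a₀} :=
          Fintype.card_congr (Equiv.refl _)
        omega
      have hF' : TwoEdges (F.induce {a | a ≠ a₀}) := by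
        obtain ⟨a, b, c, d, hab, hcd, hne⟩ := hF
        have h1 : a ≠ a₀ := by rintro rfl; exact ha _ hab
        have h2 : b ≠ a₀ := by rintro rfl; exact ha _ hab.symm
        have h3 : c ≠ a₀ := by rintro rfl; exact ha _ hcd
        have h4 : d ≠ a₀ := by rintro rfl; exact ha _ hcd.symm
        refine ⟨⟨a, h1⟩, ⟨b, h2⟩, ⟨c, h3⟩, ⟨d, h4⟩, hab, hcd, fun h => hne ?_⟩
        have := congrArg (Sym2.map Subtype.val) h
        simpa using this
      have h5 := ih {a : α | a ≠ a₀} hcard (by omega) (F.induce {a | a ≠ a₀}) hF' v v' hvv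
      have hpos : 0 < Fintype.card (Vt (Fin (S + 1)) (Wt S) N) - Fintype.card α := by
        have h6 := card_Vt (Z := Fin (S + 1)) (W := Wt S) (N := N)
        rw [Nat.card_eq_fintype_card] at h6
        have h7 := (hN (k + 1) hk).2
        omega
      intro h8
      exact h5 (Nat.eq_of_mul_eq_mul_right hpos h8)

/-- Existence of suitable parameters. -/
lemma exists_big (n M z w : ℕ) (hz1 : 1 ≤ z) : ∃ N : ℕ, M ≤ N ∧ ∀ k ≤ n, Big k z w N := by
  refine ⟨M + z + w + 6 + 3 * n + 1 + 2 ^ n * (6 ^ n + (z + w) ^ n) * 3 ^ n, by omega, ?_⟩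
  intro k hk
  have h1 : 2 ^ k * (6 ^ k + (z + w) ^ k) * 3 ^ k ≤ 2 ^ n * (6 ^ n + (z + w) ^ n) * 3 ^ n := by
    refine Nat.mul_le_mul (Nat.mul_le_mul (Nat.pow_le_pow_right (by norm_num) hk)
      (Nat.add_le_add (Nat.pow_le_pow_right (by norm_num) hk)
        (Nat.pow_le_pow_right (by omega) hk))) (Nat.pow_le_pow_right (by norm_num) hk)
  generalize 2 ^ n * (6 ^ n + (z + w) ^ n) * 3 ^ n = B at h1 ⊢
  generalize hA : 2 ^ k * (6 ^ k + (z + w) ^ k) * 3 ^ k = A at h1
  unfold Big
  rw [hA]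
  constructor <;> omega

/-- Existence of suitable parameters. -/
lemma exists_graph (n M : ℕ) : ∃ S N : ℕ, M ≤ N ∧ 2 ^ (n + 1) * 3 ^ n + 3 + n ≤ S ∧
    ∀ k ≤ n, Big k (Fintype.card (Fin (S + 1))) (Fintype.card (Wt S)) N := by
  obtain ⟨N, h1, h2⟩ := exists_big n M (Fintype.card (Fin (2 ^ (n + 1) * 3 ^ n + 3 + n + 1)))
    (Fintype.card (Wt (2 ^ (n + 1) * 3 ^ n + 3 + n))) (by simp)
  exact ⟨2 ^ (n + 1) * 3 ^ n + 3 + n, N, h1, le_refl _, h2⟩

end Pool.Agent.Hhelper53.Hyper
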