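import Pool.Agent.Hhelper53.Hyper.Expand

set_option autoImplicit false
set_option linter.unusedSectionVars false

namespace Pool.Agent.Hhelper53.Hyper

open SimpleGraph Function

section outer

variable {α : Type} [Fintype α] [DecidableEq α] {Z W : Type} [Fintype Z] [Fintype W] {N : ℕ}

open Classical in
/-- neighbours of `Y` -/
noncomputable def nb (F : SimpleGraph α) (Y : Finset α) : Finset α :=
  Finset.univ.filter (fun a => ∃ y ∈ Y, F.Adj y a)

/-- closed neighbourhood of `Y` -/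
noncomputable def UU (F : SimpleGraph α) (Y : Finset α) : Finset α := Y ∪ nb F Y

lemma mem_nb (F : SimpleGraph α) (Y : Finset α) (a : α) : a ∈ nb F Y ↔ ∃ y ∈ Y, F.Adj y a := by
  simp [nb]

lemma mem_UU (F : SimpleGraph α) (Y : Finset α) (a : α) :
    a ∈ UU F Y ↔ a ∈ Y ∨ ∃ y ∈ Y, F.Adj y a := by
  simp [UU, mem_nb]

/-- The permutation of the vertices induced by a permutation of `W`. -/
def lift (σ : Equiv.Perm W) : Vt Z W N → Vt Z W N
  | .w q => .w (σ q)
  | v => v

lemma lift_lift (σ : Equiv.Perm W) (v : Vt Z W N) : lift σ.symm (lift σ v) = v := by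
  cases v <;> simp [lift]

lemma lift_lift' (σ : Equiv.Perm W) (v : Vt Z W N) : lift σ (lift σ.symm v) = v := by
  cases v <;> simp [lift]

lemma isZ_lift (σ : Equiv.Perm W) (v : Vt Z W N) : isZ (lift σ v) ↔ isZ v := by
  cases v <;> simp [lift, isZ]

lemma adj_lift (B : W → Z → Prop) (σ : Equiv.Perm W) (u v : Vt Z W N) (hu : ¬ isZ u)
    (hv : ¬ isZ v) : adj B (lift σ u) (lift σ v) ↔ adj B u v := by
  cases u <;> cases v <;> simp_all [lift, isZ, adj]

/-- Number of ways to map the vertices outside `U` to the non-`z` part avoiding `Q ⊆ W`. -/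
noncomputable def Eset (F : SimpleGraph α) (B : W → Z → Prop) (N : ℕ) (U : Finset α)
    (Q : Finset W) : ℕ :=
  Nat.card {ρ : {a // ¬ a ∈ U} → Vt Z W N //
    Injective ρ ∧ (∀ a b, F.Adj a.1 b.1 → adj B (ρ a) (ρ b)) ∧ (∀ a, ¬ isZ (ρ a)) ∧
      ∀ a, ∀ q ∈ Q, ρ a ≠ .w q}

lemma Eset_congr (F : SimpleGraph α) (B : W → Z → Prop) (U : Finset α)
    (Q Q' : Finset W) (h : Q.card = Q'.card) : Eset F B N U Q = Eset F B N U Q' := by
  classical
  obtain ⟨σ, hσ⟩ := Equiv.Perm.exists_map_finset_eq Q Q' h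
  unfold Eset
  apply Nat.card_congr
  have h1 : ∀ q, q ∈ Q' ↔ σ.symm q ∈ Q := by
    intro q
    rw [← hσ]
    simp only [Finset.mem_map_equiv]
  exact
    { toFun := fun ρ => ⟨fun a => lift σ (ρ.1 a), by
        obtain ⟨ρ, h2, h3, h4, h5⟩ := ρ
        refine ⟨?_, ?_, ?_, ?_⟩
        · intro a b hab
          apply h2
          have := congrArg (lift σ.symm) hab
          simpa [lift_lift] using this
        · intro a b hab
          exact (adj_lift B σ _ _ (h4 a) (h4 b)).2 (h3 a b hab)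
        · intro a
          rw [isZ_lift]
          exact h4 a
        · intro a q hq hab
          have := congrArg (lift σ.symm) hab
          rw [lift_lift] at this
          exact h5 a _ ((h1 q).1 hq) this⟩
      invFun := fun ρ => ⟨fun a => lift σ.symm (ρ.1 a), by
        obtain ⟨ρ, h2, h3, h4, h5⟩ := ρ
        refine ⟨?_, ?_, ?_, ?_⟩
        · intro a b hab
          apply h2
          have := congrArg (lift σ) hab
          simpa [lift_lift'] using this
        · intro a b hab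
          exact (adj_lift B σ.symm _ _ (h4 a) (h4 b)).2 (h3 a b hab)
        · intro a
          rw [isZ_lift]
          exact h4 a
        · intro a q hq hab
          have := congrArg (lift σ) hab
          rw [lift_lift'] at this
          refine h5 a (σ q) ((h1 _).2 ?_) this
          simpa using hq⟩
      left_inv := by
        rintro ⟨ρ, h2⟩
        apply Subtype.ext
        funext a
        exact lift_lift _ _
      right_inv := by
        rintro ⟨ρ, h2⟩
        apply Subtype.ext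
        funext a
        exact lift_lift' _ _ }

open Classical in
/-- `Eset` for any set of size `m` (if there is one). -/
noncomputable def EE (F : SimpleGraph α) (B : W → Z → Prop) (N : ℕ) (U : Finset α)
    (m : ℕ) : ℕ :=
  if h : ∃ Q : Finset W, Q.card = m then Eset F B N U h.choose else 0

lemma Eset_eq_EE (F : SimpleGraph α) (B : W → Z → Prop) (U : Finset α)
    (Q : Finset W) : Eset F B N U Q = EE F B N U Q.card := by
  unfold EE
  rw [dif_pos ⟨Q, rfl⟩]
  apply Eset_congr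
  exact (Exists.choose_spec (⟨Q, rfl⟩ : ∃ Q' : Finset W, Q'.card = Q.card)).symm

/-- Partial maps on the closed neighbourhood of `Y`, with `Y` going to the low part. -/
def IsPsi (F : SimpleGraph α) (B : W → Z → Prop) (Y : Finset α) (v : Vt Z W N)
    (ψ : {a // a ∈ UU F Y} → Vt Z W N) : Prop :=
  Injective ψ ∧ (∀ a b, F.Adj a.1 b.1 → adj B (ψ a) (ψ b)) ∧ (∀ a, ψ a ≠ v) ∧
    (∀ a, isZ (ψ a) ↔ a.1 ∈ Y) ∧ (∀ a, a.1 ∉ Y → isW (ψ a))

/-- The number of those. -/
noncomputable def Psi (F : SimpleGraph α) (B : W → Z → Prop) (Y : Finset α) (v : Vt Z W N) : ℕ :=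
  Nat.card {ψ : {a // a ∈ UU F Y} → Vt Z W N // IsPsi F B Y v ψ}

lemma IsPsi.indep {F : SimpleGraph α} {B : W → Z → Prop} {Y : Finset α} {v : Vt Z W N}
    {ψ : {a // a ∈ UU F Y} → Vt Z W N} (h : IsPsi F B Y v ψ) (a b : α) (ha : a ∈ Y) (hb : b ∈ Y) :
    ¬ F.Adj a b := by
  intro hab
  have ha' : a ∈ UU F Y := (mem_UU F Y a).2 (Or.inl ha)
  have hb' : b ∈ UU F Y := (mem_UU F Y b).2 (Or.inl hb)
  exact not_adj_zz B _ _ ((h.2.2.2.1 ⟨a, ha'⟩).2 ha) ((h.2.2.2.1 ⟨b, hb'⟩).2 hb)
    (h.2.1 ⟨a, ha'⟩ ⟨b, hb'⟩ hab)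

lemma J_outer (F : SimpleGraph α) (B : W → Z → Prop) (v : Vt Z W N) (Rv : Finset W)
    (hRv : ∀ u : Vt Z W N, ¬ isZ u → (u ≠ v ↔ ∀ q ∈ Rv, u ≠ .w q)) :
    J F (GG B N) v = ∑ Y : Finset α,
      Psi F B Y v * EE F B N (UU F Y) ((nb F Y).card + Rv.card) := by
  classical
  rw [J_eq_sum F (GG B N) v isZ]
  refine Finset.sum_congr rfl fun Y _ => ?_
  refine card_factor (fun a => a ∈ UU F Y) _
    (fun ψ => IsPsi F B Y v ψ)
    (fun ψ ρ => Injective ρ ∧ (∀ a b, F.Adj a.1 b.1 → adj B (ρ a) (ρ b)) ∧ (∀ a, ¬ isZ (ρ a)) ∧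
      (∀ a b, ρ a ≠ ψ b) ∧ ∀ a, ρ a ≠ v)
    _ ?_ ?_
  · intro φ
    constructor
    · rintro ⟨⟨⟨hinj, hhom⟩, hav⟩, hS⟩
      refine ⟨⟨fun a b hab => Subtype.ext (hinj hab), fun a b hab => hhom _ _ hab, fun a => hav _,
        fun a => hS _, ?_⟩, fun a b hab => Subtype.ext (hinj hab), fun a b hab => hhom _ _ hab,
        ?_, ?_, fun a => hav _⟩
      · intro a ha
        have := (mem_UU F Y a.1).1 a.2
        rcases this with h | ⟨y, hy, hya⟩
        · exact absurd h ha
        · exact isW_of_adj_z B _ _ ((hS y).2 hy) (hhom _ _ hya)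
      · intro a ha
        exact a.2 ((mem_UU F Y a.1).2 (Or.inl ((hS _).1 ha)))
      · intro a b hab
        have := hinj hab
        exact a.2 (this ▸ b.2)
    · rintro ⟨⟨h1, h2, h3, h4, h5⟩, h6, h7, h8, h9, h10⟩
      have h4' : ∀ a, a ∈ UU F Y → (isZ (φ a) ↔ a ∈ Y) := fun a ha => h4 ⟨a, ha⟩
      have h5' : ∀ a, a ∈ UU F Y → a ∉ Y → isW (φ a) := fun a ha => h5 ⟨a, ha⟩
      have h8' : ∀ a, a ∉ UU F Y → ¬ isZ (φ a) := fun a ha => h8 ⟨a, ha⟩
      have h9' : ∀ a b, a ∉ UU F Y → b ∈ UU F Y → φ a ≠ φ b :=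
        fun a b ha hb => h9 ⟨a, ha⟩ ⟨b, hb⟩
      have hcross : ∀ a b, a ∈ UU F Y → b ∉ UU F Y → F.Adj a b → adj B (φ a) (φ b) := by
        intro a b ha hb hab
        have haY : a ∉ Y := fun haY => hb ((mem_UU F Y b).2 (Or.inr ⟨a, haY, hab⟩))
        exact adj_w_nz B _ _ (h5' a ha haY) (h8' b hb) (h9' b a hb ha).symm
      refine ⟨⟨⟨?_, ?_⟩, ?_⟩, ?_⟩
      · intro a b hab
        by_cases ha : a ∈ UU F Y <;> by_cases hb : b ∈ UU F Y
        · exact congrArg Subtype.val (@h1 ⟨a, ha⟩ ⟨b, hb⟩ hab)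
        · exact absurd hab.symm (h9' b a hb ha)
        · exact absurd hab (h9' a b ha hb)
        · exact congrArg Subtype.val (@h6 ⟨a, ha⟩ ⟨b, hb⟩ hab)
      · intro a b hab
        by_cases ha : a ∈ UU F Y <;> by_cases hb : b ∈ UU F Y
        · exact h2 ⟨a, ha⟩ ⟨b, hb⟩ hab
        · exact hcross a b ha hb hab
        · exact (GG B N).adj_symm (hcross b a hb ha hab.symm)
        · exact h7 ⟨a, ha⟩ ⟨b, hb⟩ hab
      · intro a
        by_cases ha : a ∈ UU F Y
        · exact h3 ⟨a, ha⟩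
        · exact h10 ⟨a, ha⟩
      · intro a
        by_cases ha : a ∈ UU F Y
        · exact h4' a ha
        · exact ⟨fun h => absurd h (h8' a ha), fun h => absurd ((mem_UU F Y a).2 (Or.inl h)) ha⟩
  · intro ψ hψ
    obtain ⟨h1, h2, h3, h4, h5⟩ := hψ
    have hnbY : ∀ a, a ∈ nb F Y → a ∉ Y := by
      intro a ha haY
      obtain ⟨y, hy, hya⟩ := (mem_nb F Y a).1 ha
      exact IsPsi.indep ⟨h1, h2, h3, h4, h5⟩ y a hy haY hya
    have hnbU : ∀ a, a ∈ nb F Y → a ∈ UU F Y := fun a ha =>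
      (mem_UU F Y a).2 (Or.inr ((mem_nb F Y a).1 ha))
    let g : {a // a ∈ nb F Y} → W := fun a =>
      wval (ψ ⟨a.1, hnbU a.1 a.2⟩) (h5 ⟨a.1, hnbU a.1 a.2⟩ (hnbY a.1 a.2))
    have hg : ∀ a : {a // a ∈ nb F Y}, Vt.w (g a) = ψ ⟨a.1, hnbU a.1 a.2⟩ := fun a =>
      wval_spec _ _
    have hginj : Injective g := by
      intro a b hab
      have h := congrArg (Vt.w (Z := Z) (N := N)) hab
      rw [hg, hg] at h
      have := congrArg Subtype.val (h1 h)
      exact Subtype.ext this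
    have hdisj : Disjoint (Finset.univ.image g) Rv := by
      rw [Finset.disjoint_left]
      intro q hq hqR
      obtain ⟨a, _, rfl⟩ := Finset.mem_image.1 hq
      have hz : ¬ isZ (ψ ⟨a.1, hnbU a.1 a.2⟩) := fun h =>
        hnbY a.1 a.2 ((h4 ⟨a.1, hnbU a.1 a.2⟩).1 h)
      exact (hRv _ hz).1 (h3 _) _ hqR (hg a).symm
    have hcard : (Finset.univ.image g ∪ Rv).card = (nb F Y).card + Rv.card := by
      rw [Finset.card_union_of_disjoint hdisj, Finset.card_image_of_injective _ hginj]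
      simp
    rw [← hcard, ← Eset_eq_EE]
    unfold Eset
    apply Nat.card_congr
    refine Equiv.subtypeEquivRight fun ρ => ?_
    refine and_congr_right fun _ => and_congr_right fun _ => and_congr_right fun h8 => ?_
    constructor
    · rintro ⟨h9, h10⟩ a q hq
      rcases Finset.mem_union.1 hq with hq | hq
      · obtain ⟨b, _, rfl⟩ := Finset.mem_image.1 hq
        rw [hg b]
        exact h9 _ _
      · exact (hRv _ (h8 a)).1 (h10 a) q hq
    · intro h
      constructor
      · intro a b hab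
        have hbY : b.1 ∉ Y := fun hbY => h8 a (hab ▸ (h4 b).2 hbY)
        have hbn : b.1 ∈ nb F Y := by
          rcases (mem_UU F Y b.1).1 b.2 with h' | h'
          · exact absurd h' hbY
          · exact (mem_nb F Y b.1).2 h'
        refine h a (g ⟨b.1, hbn⟩) (Finset.mem_union_left _ (Finset.mem_image_of_mem _ (Finset.mem_univ _))) ?_
        rw [hg]
        exact hab
      · intro a
        exact (hRv _ (h8 a)).2 (fun q hq => h a q (Finset.mem_union_right _ hq))

/-- Expansion of `J` at a `w` vertex. -/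
lemma J_w (F : SimpleGraph α) (B : W → Z → Prop) (p : W) :
    J F (GG B N) (.w p) = ∑ Y : Finset α,
      Psi F B Y (.w p : Vt Z W N) * EE F B N (UU F Y) ((nb F Y).card + 1) := by
  have := J_outer (N := N) F B (.w p) {p} (by
    intro u hu
    simp)
  simpa using this

/-- Expansion of `J` at a `z` vertex. -/
lemma J_z (F : SimpleGraph α) (B : W → Z → Prop) (x : Z) :
    J F (GG B N) (.z x) = ∑ Y : Finset α,
      Psi F B Y (.z x : Vt Z W N) * EE F B N (UU F Y) ((nb F Y).card) := by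
  have := J_outer (N := N) F B (.z x) ∅ (by
    intro u hu
    constructor
    · simp
    · rintro - rfl
      exact hu trivial)
  simpa using this

end outer

end Pool.Agent.Hhelper53.Hyper
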