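import Pool.Agent.Hhelper53.Hyper.Core

set_option autoImplicit false
set_option linter.unusedSectionVars false

namespace Pool.Agent.Hhelper53.Hyper

open SimpleGraph Function

section

variable {α : Type} [Fintype α] [DecidableEq α] {Z W : Type} [Fintype Z] [Fintype W] {N : ℕ}

lemma outer_sum (F : SimpleGraph α) (B : W → Z → Prop) (v v' : Vt Z W N) (r p : ℕ)
    (hv : J F (GG B N) v = ∑ Y : Finset α, Psi F B Y v * EE F B N (UU F Y) ((nb F Y).card + r))
    (hv' : J F (GG B N) v' = ∑ Y : Finset α, Psi F B Y v' * EE F B N (UU F Y) ((nb F Y).card + r))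
    (hN : Big (Fintype.card α) (Fintype.card Z) (Fintype.card W) N)
    (hW : 0 < Fintype.card W)
    (hpk : p ≤ Fintype.card α)
    (h0 : ∀ Y : Finset α, (UU F Y).card < p → Psi F B Y v = Psi F B Y v')
    (hlev : ((N - Fintype.card α : ℕ) : ℤ) ^ (Fintype.card α - p) ≤
      ∑ Y : Finset α with (UU F Y).card = p, ((Psi F B Y v : ℤ) - Psi F B Y v') *
        (EE F B N (UU F Y) ((nb F Y).card + r) : ℤ)) :
    J F (GG B N) v' < J F (GG B N) v := by
  classical
  have key := sign_pos (fun Y : Finset α => (Psi F B Y v : ℤ) - Psi F B Y v')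
    (fun Y => EE F B N (UU F Y) ((nb F Y).card + r)) (fun Y => (UU F Y).card) (Fintype.card α) p
    (N - Fintype.card α)
    ((Fintype.card Z + Fintype.card W) ^ Fintype.card α) (fun Y => Finset.card_le_univ _) ?_ ?_ ?_
    hpk hlev ?_
  · rw [← Int.ofNat_lt]
    rw [hv, hv']
    push_cast
    have : ∑ Y : Finset α, ((Psi F B Y v : ℤ) - Psi F B Y v') *
        (EE F B N (UU F Y) ((nb F Y).card + r) : ℤ) =
      ∑ Y : Finset α, (Psi F B Y v : ℤ) * (EE F B N (UU F Y) ((nb F Y).card + r) : ℤ) -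
      ∑ Y : Finset α, (Psi F B Y v' : ℤ) * (EE F B N (UU F Y) ((nb F Y).card + r) : ℤ) := by
      rw [← Finset.sum_sub_distrib]
      exact Finset.sum_congr rfl fun S _ => by ring
    rw [this] at key
    linarith
  · intro Y
    refine (EE_le F B _ _).trans ?_
    apply Nat.pow_le_pow_left
    rw [card_Vt]
    exact hN.1
  · intro Y
    have h3 := Psi_le (N := N) F B Y v hW
    have h4 := Psi_le (N := N) F B Y v' hW
    rw [abs_le]
    have h3' : (Psi F B Y v : ℤ) ≤ (((Fintype.card Z + Fintype.card W) ^ Fintype.card α : ℕ) : ℤ) := by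
      exact_mod_cast h3
    have h4' : (Psi F B Y v' : ℤ) ≤ (((Fintype.card Z + Fintype.card W) ^ Fintype.card α : ℕ) : ℤ) := by
      exact_mod_cast h4
    constructor
    · have h5 : (0 : ℤ) ≤ Psi F B Y v := by positivity
      linarith
    · have h5 : (0 : ℤ) ≤ Psi F B Y v' := by positivity
      linarith
  · intro Y hY
    rw [h0 Y hY]
    ring
  · have h6 := hN.2
    rw [Fintype.card_finset]
    have h7 : 2 ^ Fintype.card α * (Fintype.card Z + Fintype.card W) ^ Fintype.card α *
        3 ^ Fintype.card α ≤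
        2 ^ Fintype.card α * (6 ^ Fintype.card α +
          (Fintype.card Z + Fintype.card W) ^ Fintype.card α) * 3 ^ Fintype.card α := by
      gcongr
      exact Nat.le_add_left _ _
    omega

/-- Independence of a set of vertices of `F`. -/
def Ind (F : SimpleGraph α) (Y : Finset α) : Prop := ∀ a ∈ Y, ∀ b ∈ Y, ¬ F.Adj a b

lemma card_UU (F : SimpleGraph α) (Y : Finset α) (hY : Ind F Y) :
    (UU F Y).card = Y.card + (nb F Y).card := by
  unfold UU
  rw [Finset.card_union_of_disjoint]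
  rw [Finset.disjoint_left]
  intro a ha hb
  obtain ⟨y, hy, hya⟩ := (mem_nb F Y a).1 hb
  exact hY y hy a ha hya

lemma nb_mono (F : SimpleGraph α) (Y : Finset α) (b : α) (hb : b ∈ Y) : nb F {b} ⊆ nb F Y := by
  intro a ha
  obtain ⟨y, hy, hya⟩ := (mem_nb F {b} a).1 ha
  rw [Finset.mem_singleton.1 hy] at hya
  exact (mem_nb F Y a).2 ⟨b, hb, hya⟩

lemma dg_le (F : SimpleGraph α) (Y : Finset α) (b : α) (hb : b ∈ Y) : dg F b ≤ (nb F Y).card :=
  Finset.card_le_card (nb_mono F Y b hb)

lemma ind_single (F : SimpleGraph α) (b : α) : Ind F {b} := by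
  intro a ha c hc
  rw [Finset.mem_singleton.1 ha, Finset.mem_singleton.1 hc]
  exact F.loopless.irrefl _

lemma mem_nb_single (F : SimpleGraph α) (b a : α) : a ∈ nb F {b} ↔ F.Adj b a := by
  simp [mem_nb]

lemma UU_single (F : SimpleGraph α) (b : α) : (UU F {b}).card = 1 + dg F b := by
  rw [card_UU F _ (ind_single F b)]
  simp [dg]

lemma UU_empty (F : SimpleGraph α) : (UU F (∅ : Finset α)).card = 0 := by
  rw [card_UU F _ (by intro a ha; simp at ha)]
  simp [nb]

lemma Psi_empty (F : SimpleGraph α) (B : W → Z → Prop) (v : Vt Z W N) : Psi F B ∅ v = 1 := by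
  rw [Psi_eq F B ∅ v (by simp)]
  have hnb : nb F (∅ : Finset α) = ∅ := by simp [nb]
  have e1 : IsEmpty {a // a ∈ (∅ : Finset α)} := ⟨fun a => absurd a.2 (Finset.notMem_empty _)⟩
  have e2 : IsEmpty {a // a ∈ nb F (∅ : Finset α)} := by
    constructor
    rintro ⟨a, ha⟩
    rw [hnb] at ha
    exact Finset.notMem_empty _ ha
  rw [Nat.card_eq_one_iff_unique]
  constructor
  · constructor
    rintro ⟨⟨f, g⟩, h⟩ ⟨⟨f', g'⟩, h'⟩
    apply Subtype.ext
    refine Prod.ext ?_ ?_
    · funext y
      exact (e1.false y).elim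
    · funext y
      exact (e2.false y).elim
  · exact ⟨⟨(fun y => (e1.false y).elim, fun y => (e2.false y).elim),
      fun y => (e1.false y).elim, fun y => (e2.false y).elim, fun y => (e1.false y).elim,
      fun y => (e1.false y).elim, fun y => (e2.false y).elim⟩⟩

/-- The functions `(D-1)(D-2)...(D-k)`. -/
def fk (k : ℕ) (D : ℕ) : ℤ := ((D - 1).descFactorial k : ℤ)

lemma descFactorial_diff (D k : ℕ) (hD : 0 < D) :
    ((D.descFactorial (k + 1) : ℕ) : ℤ) - ((D - 1).descFactorial (k + 1) : ℕ) = (k + 1) * fk k D := by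
  obtain ⟨m, rfl⟩ : ∃ m, D = m + 1 := ⟨D - 1, by omega⟩
  unfold fk
  simp only [Nat.add_sub_cancel]
  rw [Nat.succ_descFactorial_succ, Nat.descFactorial_succ]
  rcases Nat.lt_or_ge m k with h | h
  · rw [Nat.descFactorial_of_lt h]
    simp
  · push_cast [Nat.cast_sub h]
    ring

lemma Psi_single_diff (F : SimpleGraph α) (B : W → Z → Prop) (b : α) (p p' : W)
    (hb : 1 ≤ dg F b) :
    (Psi F B {b} (.w p : Vt Z W N) : ℤ) - Psi F B {b} (.w p' : Vt Z W N) =
      dg F b * (SS B (fk (dg F b - 1)) p' - SS B (fk (dg F b - 1)) p) := by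
  classical
  obtain ⟨k, hk⟩ : ∃ k, dg F b = k + 1 := ⟨dg F b - 1, by omega⟩
  rw [Psi_single_w, Psi_single_w, hk]
  have h1 : ∀ q : W, ((∑ x : Z, (aW B q x).descFactorial (k + 1) : ℕ) : ℤ) =
      (∑ x : Z, ((DD B x).descFactorial (k + 1) : ℤ)) - (k + 1) * SS B (fk k) q := by
    intro q
    unfold SS
    rw [Finset.mul_sum, ← Finset.sum_sub_distrib]
    push_cast
    refine Finset.sum_congr rfl fun x _ => ?_
    have h2 := aW_eq B q x
    by_cases hx : B q x
    · simp only [hx, if_true] at h2 ⊢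
      rw [h2]
      have := descFactorial_diff (DD B x) k (DD_pos B q x hx)
      linarith
    · simp only [hx, if_false] at h2 ⊢
      rw [h2]
      simp
  rw [h1, h1]
  simp only [Nat.add_sub_cancel]
  push_cast
  ring

end

end Pool.Agent.Hhelper53.Hyper
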