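import Pool.Agent.Hhelper53.Hyper.Counts

set_option autoImplicit false
set_option linter.unusedSectionVars false

namespace Pool.Agent.Hhelper53.Hyper

open SimpleGraph Function

section

variable {α : Type} [Fintype α] [DecidableEq α] {Z W : Type} [Fintype Z] [Fintype W] {N : ℕ}

/-- Pairs of disjoint edges of `B` avoiding `p`. -/
noncomputable def LP (B : W → Z → Prop) (p : W) : ℕ :=
  Nat.card {t : Z × Z × W × W // t.1 ≠ t.2.1 ∧ t.2.2.1 ≠ t.2.2.2 ∧
    (B t.2.2.1 t.1 ∧ t.2.2.1 ≠ p) ∧ (B t.2.2.2 t.2.1 ∧ t.2.2.2 ≠ p)}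

/-- `Psi` of a pair of leaves with distinct supports. -/
lemma Psi_pair_w (F : SimpleGraph α) (B : W → Z → Prop) (b₀ b₁ a₀ a₁ : α) (p : W)
    (hb : b₀ ≠ b₁) (ha : a₀ ≠ a₁) (h0 : ∀ a, F.Adj b₀ a ↔ a = a₀) (h1 : ∀ a, F.Adj b₁ a ↔ a = a₁)
    (hna : ¬ F.Adj b₀ b₁) :
    Psi F B {b₀, b₁} (.w p : Vt Z W N) = LP B p := by
  classical
  have hnb : ∀ a, a ∈ nb F {b₀, b₁} ↔ a = a₀ ∨ a = a₁ := by
    intro a
    rw [mem_nb]
    simp [h0, h1]
  rw [Psi_eq F B _ _ (by
    intro a ha b hb' hab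
    simp only [Finset.mem_insert, Finset.mem_singleton] at ha hb'
    rcases ha with rfl | rfl <;> rcases hb' with rfl | rfl
    · exact F.loopless.irrefl _ hab
    · exact hna hab
    · exact hna hab.symm
    · exact F.loopless.irrefl _ hab)]
  unfold LP
  apply Nat.card_congr
  have mb0 : b₀ ∈ ({b₀, b₁} : Finset α) := by simp
  have mb1 : b₁ ∈ ({b₀, b₁} : Finset α) := by simp
  have ma0 : a₀ ∈ nb F {b₀, b₁} := (hnb _).2 (Or.inl rfl)
  have ma1 : a₁ ∈ nb F {b₀, b₁} := (hnb _).2 (Or.inr rfl)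
  have subb : ∀ y : {a // a ∈ ({b₀, b₁} : Finset α)}, y = ⟨b₀, mb0⟩ ∨ y = ⟨b₁, mb1⟩ := by
    rintro ⟨y, hy⟩
    simp only [Finset.mem_insert, Finset.mem_singleton] at hy
    rcases hy with rfl | rfl
    · left; rfl
    · right; rfl
  have suba : ∀ y : {a // a ∈ nb F {b₀, b₁}}, y = ⟨a₀, ma0⟩ ∨ y = ⟨a₁, ma1⟩ := by
    rintro ⟨y, hy⟩
    rcases (hnb _).1 hy with rfl | rfl
    · left; rfl
    · right; rfl
  exact
    { toFun := fun fg => ⟨(fg.1.1 ⟨b₀, mb0⟩, fg.1.1 ⟨b₁, mb1⟩, fg.1.2 ⟨a₀, ma0⟩, fg.1.2 ⟨a₁, ma1⟩), by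
        obtain ⟨⟨f, g⟩, h2, h3, h4, h5, h6⟩ := fg
        simp only at h2 h3 h4 h5 h6 ⊢
        refine ⟨fun h => hb ?_, fun h => ha ?_, ⟨?_, fun h => h6 ⟨a₀, ma0⟩ (by rw [h])⟩,
          ⟨?_, fun h => h6 ⟨a₁, ma1⟩ (by rw [h])⟩⟩
        · exact congrArg Subtype.val (h2 h)
        · exact congrArg Subtype.val (h3 h)
        · exact h4 ⟨b₀, mb0⟩ ⟨a₀, ma0⟩ ((h0 _).2 rfl)
        · exact h4 ⟨b₁, mb1⟩ ⟨a₁, ma1⟩ ((h1 _).2 rfl)⟩
      invFun := fun t => ⟨(fun y => if y.1 = b₀ then t.1.1 else t.1.2.1,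
          fun a => if a.1 = a₀ then t.1.2.2.1 else t.1.2.2.2), by
        obtain ⟨⟨x0, x1, q0, q1⟩, h2, h3, ⟨h4, h5⟩, h6, h7⟩ := t
        simp only at h2 h3 h4 h5 h6 h7
        refine ⟨?_, ?_, ?_, ?_, ?_⟩
        · intro y y' h
          rcases subb y with rfl | rfl <;> rcases subb y' with rfl | rfl
          · rfl
          · simp [hb.symm, h2] at h
          · simp [hb.symm, h2.symm] at h
          · rfl
        · intro y y' h
          rcases suba y with rfl | rfl <;> rcases suba y' with rfl | rfl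
          · rfl
          · simp [ha.symm, h3] at h
          · simp [ha.symm, h3.symm] at h
          · rfl
        · intro y a h
          rcases subb y with rfl | rfl
          · have : a.1 = a₀ := (h0 _).1 h
            simp [this, h4]
          · have : a.1 = a₁ := (h1 _).1 h
            simp [this, hb.symm, ha.symm, h6]
        · intro y
          simp
        · intro a
          rcases suba a with rfl | rfl
          · simpa using h5
          · simpa [ha.symm] using h7⟩
      left_inv := by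
        rintro ⟨⟨f, g⟩, h2⟩
        apply Subtype.ext
        refine Prod.ext ?_ ?_
        · funext y
          rcases subb y with rfl | rfl
          · simp
          · simp [hb.symm]
        · funext a
          rcases suba a with rfl | rfl
          · simp
          · simp [ha.symm]
      right_inv := by
        rintro ⟨⟨x0, x1, q0, q1⟩, h2⟩
        apply Subtype.ext
        simp [hb.symm, ha.symm] }

lemma sum_disjoint [DecidableEq Z] [DecidableEq W] (M : W → Z → ℤ) :
    ∑ x0, ∑ x1, ∑ q0, ∑ q1, (if x0 = x1 then 0 else if q0 = q1 then 0 else M q0 x0 * M q1 x1) =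
      (∑ q, ∑ x, M q x) ^ 2 - ∑ x, (∑ q, M q x) ^ 2 - ∑ q, (∑ x, M q x) ^ 2
        + ∑ q, ∑ x, M q x ^ 2 := by
  have h : ∀ x0 x1 q0 q1, (if x0 = x1 then 0 else if q0 = q1 then 0 else M q0 x0 * M q1 x1) =
      M q0 x0 * M q1 x1 - (if x0 = x1 then M q0 x0 * M q1 x1 else 0) -
      (if q0 = q1 then M q0 x0 * M q1 x1 else 0) +
      (if x0 = x1 then (if q0 = q1 then M q0 x0 * M q1 x1 else 0) else 0) := by
    intro x0 x1 q0 q1
    split_ifs <;> ring
  simp only [h, Finset.sum_add_distrib, Finset.sum_sub_distrib]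
  congr 1
  · congr 1
    · congr 1
      · have hcomm : (∑ q, ∑ x, M q x) = ∑ x, ∑ q, M q x := Finset.sum_comm
        rw [hcomm, pow_two, Finset.sum_mul_sum]
        refine Finset.sum_congr rfl fun x0 _ => ?_
        refine Finset.sum_congr rfl fun x1 _ => ?_
        rw [Finset.sum_mul_sum]
      · refine Finset.sum_congr rfl fun x0 _ => ?_
        have : ∀ x1, (∑ q0, ∑ q1, if x0 = x1 then M q0 x0 * M q1 x1 else 0) =
            if x0 = x1 then ∑ q0, ∑ q1, M q0 x0 * M q1 x1 else 0 := by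
          intro x1
          split_ifs <;> simp
        simp only [this, Finset.sum_ite_eq, Finset.mem_univ, if_true]
        rw [pow_two, Finset.sum_mul_sum]
    · have h2 : ∀ x0 x1, (∑ q0, ∑ q1, if q0 = q1 then M q0 x0 * M q1 x1 else 0) =
          ∑ q0, M q0 x0 * M q0 x1 := by
        intro x0 x1
        simp
      simp only [h2]
      have h3 : ∀ x0, ∑ x1, ∑ q0, M q0 x0 * M q0 x1 = ∑ q0, ∑ x1, M q0 x0 * M q0 x1 :=
        fun x0 => Finset.sum_comm
      simp only [h3]
      rw [Finset.sum_comm]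
      refine Finset.sum_congr rfl fun q _ => ?_
      rw [pow_two, Finset.sum_mul_sum]
  · have h2 : ∀ x0 x1, (∑ q0, ∑ q1, if x0 = x1 then (if q0 = q1 then M q0 x0 * M q1 x1 else 0)
        else 0) = if x0 = x1 then ∑ q0, M q0 x0 * M q0 x1 else 0 := by
      intro x0 x1
      split_ifs <;> simp
    simp only [h2, Finset.sum_ite_eq, Finset.mem_univ, if_true]
    rw [Finset.sum_comm]
    simp only [pow_two]

/-- The sum of degrees of the neighbours of `p`. -/
noncomputable def SS (B : W → Z → Prop) (f : ℕ → ℤ) (p : W) : ℤ := by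
  classical exact ∑ x : Z, if B p x then f (DD B x) else 0

lemma aW_eq (B : W → Z → Prop) (p : W) (x : Z) [Decidable (B p x)] :
    aW B p x = DD B x - (if B p x then 1 else 0) := by
  classical
  unfold aW DD
  have h1 : Nat.card {q // B q x} = Nat.card {q // B q x ∧ q ≠ p} + (if B p x then 1 else 0) := by
    simp only [Nat.card_eq_fintype_card, Fintype.card_subtype]
    have : (Finset.univ.filter (fun q => B q x ∧ q ≠ p)) = (Finset.univ.filter (fun q => B q x)).erase p := by
      ext q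
      simp [and_comm]
    rw [this]
    split_ifs with h
    · have hp : p ∈ Finset.univ.filter (fun q => B q x) := by simp [h]
      have := Finset.card_erase_add_one hp
      omega
    · rw [Finset.erase_eq_of_notMem (by simp [h])]
      simp
  omega

lemma DD_pos (B : W → Z → Prop) (p : W) (x : Z) (h : B p x) : 0 < DD B x := by
  unfold DD
  rw [Nat.card_pos_iff]
  exact ⟨⟨⟨p, h⟩⟩, inferInstance⟩

/-- The formula for `LP`. -/
lemma LP_eq (B : W → Z → Prop) (p : W) :
    ((LP B p : ℕ) : ℤ) = ((∑ q, (dW B q : ℤ)) - dW B p) ^ 2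
      - ((∑ x, (DD B x : ℤ) ^ 2) - SS B (fun D => 2 * (D : ℤ) - 1) p)
      - ((∑ q, (dW B q : ℤ) ^ 2) - (dW B p : ℤ) ^ 2)
      + ((∑ q, (dW B q : ℤ)) - dW B p) := by
  classical
  have h := sum_disjoint (Z := Z) (W := W) (fun q x => if B q x ∧ q ≠ p then (1 : ℤ) else 0)
  have hL : ((LP B p : ℕ) : ℤ) = ∑ x0, ∑ x1, ∑ q0, ∑ q1, (if x0 = x1 then 0 else
      if q0 = q1 then 0 else (if B q0 x0 ∧ q0 ≠ p then (1 : ℤ) else 0) *
      (if B q1 x1 ∧ q1 ≠ p then (1 : ℤ) else 0)) := by
    unfold LP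
    rw [Nat.card_eq_fintype_card, Fintype.card_subtype, Finset.card_filter]
    simp only [Fintype.sum_prod_type]
    push_cast
    refine Finset.sum_congr rfl fun x0 _ => Finset.sum_congr rfl fun x1 _ =>
      Finset.sum_congr rfl fun q0 _ => Finset.sum_congr rfl fun q1 _ => ?_
    by_cases h1 : x0 = x1
    · simp [h1]
    · by_cases h2 : q0 = q1
      · simp [h2]
      · by_cases h3 : B q0 x0 ∧ q0 ≠ p
        · by_cases h4 : B q1 x1 ∧ q1 ≠ p
          · simp [h1, h2, h3, h4]
          · simp only [h1, h2, h3, h4, if_false, ne_eq, not_false_eq_true, and_false, mul_zero]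
            
        · simp only [h1, h2, h3, ne_eq, not_false_eq_true, false_and, and_false, if_false, zero_mul]
  have h1 : ∀ q, (∑ x, if B q x ∧ q ≠ p then (1 : ℤ) else 0) = if q = p then 0 else (dW B q : ℤ) := by
    intro q
    by_cases hq : q = p
    · simp [hq]
    · simp only [hq, ne_eq, not_false_eq_true, and_true, if_false]
      unfold dW
      rw [Nat.card_eq_fintype_card, Fintype.card_subtype, Finset.card_filter]
      push_cast
      rfl
  have h2 : ∀ x, (∑ q, if B q x ∧ q ≠ p then (1 : ℤ) else 0) = (aW B p x : ℤ) := by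
    intro x
    unfold aW
    rw [Nat.card_eq_fintype_card, Fintype.card_subtype, Finset.card_filter]
    push_cast
    rfl
  have h3 : ∀ q x, (if B q x ∧ q ≠ p then (1 : ℤ) else 0) ^ 2 = if B q x ∧ q ≠ p then (1 : ℤ) else 0 := by
    intro q x
    split_ifs <;> simp
  have h4 : (∑ q, if q = p then 0 else (dW B q : ℤ)) = (∑ q, (dW B q : ℤ)) - dW B p := by
    have : ∀ q, (if q = p then 0 else (dW B q : ℤ)) = dW B q - (if q = p then (dW B q : ℤ) else 0) := by
      intro q
      split_ifs <;> simp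
    simp only [this, Finset.sum_sub_distrib, Finset.sum_ite_eq', Finset.mem_univ, if_true]
  have h5 : (∑ q, (if q = p then 0 else (dW B q : ℤ)) ^ 2) =
      (∑ q, (dW B q : ℤ) ^ 2) - (dW B p : ℤ) ^ 2 := by
    have : ∀ q, (if q = p then 0 else (dW B q : ℤ)) ^ 2 =
        (dW B q : ℤ) ^ 2 - (if q = p then (dW B q : ℤ) ^ 2 else 0) := by
      intro q
      split_ifs <;> simp
    simp only [this, Finset.sum_sub_distrib, Finset.sum_ite_eq', Finset.mem_univ, if_true]
  have h6 : (∑ x, (aW B p x : ℤ) ^ 2) = (∑ x, (DD B x : ℤ) ^ 2) - SS B (fun D => 2 * (D : ℤ) - 1) p := by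
    unfold SS
    rw [← Finset.sum_sub_distrib]
    refine Finset.sum_congr rfl fun x _ => ?_
    have h7 := aW_eq B p x
    by_cases hx : B p x
    · have h8 := DD_pos B p x hx
      simp only [hx, if_true] at h7 ⊢
      have : (aW B p x : ℤ) = DD B x - 1 := by omega
      rw [this]
      ring
    · simp only [hx, if_false] at h7 ⊢
      have : (aW B p x : ℤ) = DD B x := by omega
      rw [this]
      ring
  rw [hL, h]
  simp only [h1, h2, h3, h4, h5, h6]

end

end Pool.Agent.Hhelper53.Hyper
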