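import Pool.Agent.Hhelper53.Hyper.OuterSign

set_option autoImplicit false
set_option linter.unusedSectionVars false

namespace Pool.Agent.Hhelper53.Hyper

open SimpleGraph Function

section

variable {α : Type} [Fintype α] [DecidableEq α] {Z W : Type} [Fintype Z] [Fintype W] {N : ℕ}

/-- The minimum degree case. -/
lemma outer_min (F : SimpleGraph α) (B : W → Z → Prop) (v v' : Vt Z W N) (r : ℕ)
    (hv : J F (GG B N) v = ∑ Y : Finset α, Psi F B Y v * EE F B N (UU F Y) ((nb F Y).card + r))
    (hv' : J F (GG B N) v' = ∑ Y : Finset α, Psi F B Y v' * EE F B N (UU F Y) ((nb F Y).card + r))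
    (hN : Big (Fintype.card α) (Fintype.card Z) (Fintype.card W) N)
    (hW : Fintype.card α + r ≤ Fintype.card W) (b₀ : α) (δ : ℕ) (hδ1 : 1 ≤ δ)
    (hb₀ : dg F b₀ = δ) (hmin : ∀ b, δ ≤ dg F b)
    (hlt : ∀ b, dg F b = δ → Psi F B {b} v' < Psi F B {b} v) :
    J F (GG B N) v' < J F (GG B N) v := by
  classical
  have hcα : 0 < Fintype.card α := Fintype.card_pos_iff.2 ⟨b₀⟩
  have hUk : 1 + δ ≤ Fintype.card α := by
    rw [← hb₀, ← UU_single]
    exact Finset.card_le_univ _
  -- classification
  have hclass : ∀ Y : Finset α, Y = ∅ ∨ (¬ Ind F Y) ∨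
      (1 + δ ≤ (UU F Y).card ∧ ((UU F Y).card = 1 + δ → ∃ b, Y = {b} ∧ dg F b = δ)) := by
    intro Y
    by_cases h1 : Y = ∅
    · left; exact h1
    right
    by_cases h2 : Ind F Y
    · right
      obtain ⟨b, hb⟩ := Finset.nonempty_iff_ne_empty.2 h1
      have h3 := card_UU F Y h2
      have h4 := dg_le F Y b hb
      have h5 := hmin b
      have h6 : 0 < Y.card := Finset.card_pos.2 ⟨b, hb⟩
      refine ⟨by omega, fun h7 => ?_⟩
      have h8 : Y.card = 1 := by omega
      obtain ⟨b', rfl⟩ := Finset.card_eq_one.1 h8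
      refine ⟨b', rfl, ?_⟩
      unfold dg
      simp only [Finset.card_singleton] at h3
      omega
    · left; exact h2
  refine outer_sum F B v v' r (1 + δ) hv hv' hN (by omega) hUk ?_ ?_
  · intro Y hY
    rcases hclass Y with h | h | h
    · rw [h, Psi_empty, Psi_empty]
    · rw [Psi_dep F B Y v h, Psi_dep F B Y v' h]
    · omega
  · have h5 := level_ge (fun Y : Finset α => (Psi F B Y v : ℤ) - Psi F B Y v')
      (fun Y => EE F B N (UU F Y) ((nb F Y).card + r)) (fun Y => (UU F Y).card) (1 + δ)
      ((N - Fintype.card α) ^ (Fintype.card α - (1 + δ))) ?_ {b₀} ?_ ?_ ?_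
    · push_cast at h5 ⊢
      exact h5
    · intro Y hY
      rcases hclass Y with h | h | h
      · rw [h, UU_empty] at hY
        omega
      · show (0 : ℤ) ≤ (Psi F B Y v : ℤ) - Psi F B Y v'
        rw [Psi_dep F B Y v h, Psi_dep F B Y v' h]
        simp
      · obtain ⟨b, rfl, hb⟩ := h.2 hY
        have := hlt b hb
        show (0 : ℤ) ≤ (Psi F B {b} v : ℤ) - Psi F B {b} v'
        omega
    · show (UU F {b₀}).card = 1 + δ
      rw [UU_single, hb₀]
    · have := hlt b₀ hb₀
      show (1 : ℤ) ≤ (Psi F B {b₀} v : ℤ) - Psi F B {b₀} v'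
      omega
    · have h6 := le_EE (N := N) F B (UU F {b₀}) ((nb F {b₀}).card + r) (by
        have : (nb F {b₀}).card ≤ Fintype.card α := Finset.card_le_univ _
        omega)
      rw [UU_single, hb₀] at h6
      exact h6

lemma descFactorial_lt (D D' δ : ℕ) (h : D < D') (h1 : 1 ≤ δ) (h2 : δ ≤ D + 1) :
    D.descFactorial δ < D'.descFactorial δ := by
  obtain ⟨k, rfl⟩ : ∃ k, δ = k + 1 := ⟨δ - 1, by omega⟩
  have h3 : D.descFactorial (k + 1) < (D + 1).descFactorial (k + 1) := by
    have h4 := descFactorial_diff (D + 1) k (by omega)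
    simp only [Nat.add_sub_cancel] at h4
    have h5 : (0 : ℤ) < (k + 1) * fk k (D + 1) := by
      unfold fk
      simp only [Nat.add_sub_cancel]
      have : 0 < D.descFactorial k := Nat.descFactorial_pos.2 (by omega)
      positivity
    omega
  refine h3.trans_le ?_
  exact Nat.descFactorial_le (k + 1) h

/-- Comparison of two `z` vertices. -/
lemma z_pair (F : SimpleGraph α) (B : W → Z → Prop) (x x' : Z)
    (hN : Big (Fintype.card α) (Fintype.card Z) (Fintype.card W) N)
    (hW : Fintype.card α ≤ Fintype.card W) (hα : Nonempty α) (hiso : ∀ b, 1 ≤ dg F b)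
    (hD : Fintype.card α ≤ DD B x) (hlt : DD B x < DD B x') :
    J F (GG B N) (.z x') < J F (GG B N) (.z x) := by
  classical
  obtain ⟨b₀, -, hb₀⟩ := Finset.exists_min_image (Finset.univ : Finset α) (dg F) Finset.univ_nonempty
  refine outer_min F B (.z x) (.z x') 0 ?_ ?_ hN (by omega) b₀ (dg F b₀) (hiso b₀) rfl
    (fun b => hb₀ b (Finset.mem_univ _)) ?_
  · simpa using J_z (N := N) F B x
  · simpa using J_z (N := N) F B x'
  · intro b hb
    rw [Psi_single_z, Psi_single_z]
    have h1 : ∀ y : Z, (∑ t : Z, if t = y then 0 else (DD B t).descFactorial (dg F b)) +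
        (DD B y).descFactorial (dg F b) = ∑ t : Z, (DD B t).descFactorial (dg F b) := by
      intro y
      rw [← Finset.sum_filter_add_sum_filter_not (s := Finset.univ) (p := fun t => t = y)
        (f := fun t => if t = y then 0 else (DD B t).descFactorial (dg F b)),
        ← Finset.sum_filter_add_sum_filter_not (s := Finset.univ) (p := fun t => t = y)
        (f := fun t => (DD B t).descFactorial (dg F b))]
      have h2 : ∑ t with t = y, (if t = y then 0 else (DD B t).descFactorial (dg F b)) = 0 := by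
        apply Finset.sum_eq_zero
        intro t ht
        simp at ht
        simp [ht]
      have h3 : ∑ t with ¬ t = y, (if t = y then 0 else (DD B t).descFactorial (dg F b)) =
          ∑ t with ¬ t = y, (DD B t).descFactorial (dg F b) := by
        apply Finset.sum_congr rfl
        intro t ht
        simp at ht
        simp [ht]
      have h4 : ∑ t with t = y, (DD B t).descFactorial (dg F b) =
          (DD B y).descFactorial (dg F b) := by
        rw [Finset.filter_eq' Finset.univ y]
        simp
      rw [h2, h3, h4]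
      ring
    have h2 := h1 x
    have h3 := h1 x'
    have h4 : dg F b ≤ Fintype.card α := Finset.card_le_univ _
    have h5 := descFactorial_lt (DD B x) (DD B x') (dg F b) hlt (hiso b) (by omega)
    omega

/-- Comparison of two `w` vertices in the minimum degree case. -/
lemma w_pair_min (F : SimpleGraph α) (B : W → Z → Prop) (p p' : W)
    (hN : Big (Fintype.card α) (Fintype.card Z) (Fintype.card W) N)
    (hW : Fintype.card α + 1 ≤ Fintype.card W) (b₀ : α) (δ : ℕ) (hδ1 : 1 ≤ δ)
    (hb₀ : dg F b₀ = δ) (hmin : ∀ b, δ ≤ dg F b)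
    (hlt : SS B (fk (δ - 1)) p < SS B (fk (δ - 1)) p') :
    J F (GG B N) (.w p') < J F (GG B N) (.w p) := by
  refine outer_min F B (.w p) (.w p') 1 (J_w (N := N) F B p) (J_w (N := N) F B p') hN hW b₀ δ hδ1 hb₀
    hmin ?_
  intro b hb
  have h1 := Psi_single_diff (N := N) F B b p p' (by omega)
  rw [hb] at h1
  have h2 : (0 : ℤ) < δ * (SS B (fk (δ - 1)) p' - SS B (fk (δ - 1)) p) := by
    apply mul_pos
    · exact_mod_cast hδ1
    · linarith
  omega

end

end Pool.Agent.Hhelper53.Hyper
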