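import Pool.Agent.Hhelper53.Hyper.Pair

set_option autoImplicit false
set_option linter.unusedSectionVars false

namespace Pool.Agent.Hhelper53.Hyper

open SimpleGraph Function

/-- Sign of a sum dominated by its terms of lowest order. -/
lemma sign_pos {ι : Type} [Fintype ι] (Δ : ι → ℤ) (E : ι → ℕ) (u : ι → ℕ) (k p ℓ A : ℕ)
    (hu : ∀ i, u i ≤ k) (hE : ∀ i, E i ≤ (3 * ℓ) ^ (k - u i)) (hA : ∀ i, |Δ i| ≤ (A : ℤ))
    (h0 : ∀ i, u i < p → Δ i = 0) (hpk : p ≤ k)
    (hp : ((ℓ : ℤ)) ^ (k - p) ≤ ∑ i with u i = p, Δ i * E i)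
    (hℓ : Fintype.card ι * A * 3 ^ k < ℓ) : 0 < ∑ i, Δ i * (E i : ℤ) := by
  classical
  have hℓ0 : 0 < ℓ := by omega
  have hsplit : ∑ i, Δ i * (E i : ℤ) =
      ∑ i with u i = p, Δ i * E i + ∑ i with ¬ u i = p, Δ i * E i :=
    (Finset.sum_filter_add_sum_filter_not _ _ _).symm
  rw [hsplit]
  rcases Nat.lt_or_ge p k with hlt | hge
  · -- p < k
    have hrest : |∑ i with ¬ u i = p, Δ i * (E i : ℤ)| ≤
        Fintype.card ι * (A * (3 * ℓ : ℤ) ^ (k - p - 1)) := by
      refine (Finset.abs_sum_le_sum_abs _ _).trans ?_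
      have hterm : ∀ i ∈ Finset.univ.filter (fun i => ¬ u i = p), |Δ i * (E i : ℤ)| ≤
          A * (3 * ℓ : ℤ) ^ (k - p - 1) := by
        intro i hi
        have hi' : ¬ u i = p := by simpa using hi
        rcases Nat.lt_or_ge (u i) p with h1 | h1
        · rw [h0 i h1]
          simp only [zero_mul, abs_zero]
          positivity
        · have h2 : p + 1 ≤ u i := by omega
          rw [abs_mul]
          have h3 : |(E i : ℤ)| ≤ (3 * ℓ : ℤ) ^ (k - p - 1) := by
            rw [Nat.abs_cast]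
            have h4 : E i ≤ (3 * ℓ) ^ (k - p - 1) :=
              (hE i).trans (Nat.pow_le_pow_right (by omega) (by omega))
            calc (E i : ℤ) ≤ (((3 * ℓ) ^ (k - p - 1) : ℕ) : ℤ) := by exact_mod_cast h4
              _ = _ := by push_cast; ring
          exact mul_le_mul (hA i) h3 (abs_nonneg _) (by positivity)
      refine (Finset.sum_le_sum hterm).trans ?_
      rw [Finset.sum_const, nsmul_eq_mul]
      refine mul_le_mul_of_nonneg_right ?_ (by positivity)
      exact_mod_cast Finset.card_le_univ _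
    have h5 := (abs_le.1 hrest).1
    have h6 : (ℓ : ℤ) ^ (k - p) = ℓ * (ℓ : ℤ) ^ (k - p - 1) := by
      rw [← pow_succ']
      congr 1
      omega
    have h7 : (Fintype.card ι : ℤ) * (A * (3 * ℓ : ℤ) ^ (k - p - 1)) ≤
        (Fintype.card ι * A * 3 ^ k : ℤ) * (ℓ : ℤ) ^ (k - p - 1) := by
      rw [mul_pow]
      have h8 : (3 : ℤ) ^ (k - p - 1) ≤ 3 ^ k := pow_le_pow_right₀ (by norm_num) (by omega)
      have h9 : (0 : ℤ) ≤ (ℓ : ℤ) ^ (k - p - 1) := by positivity
      calc (Fintype.card ι : ℤ) * (A * (3 ^ (k - p - 1) * (ℓ : ℤ) ^ (k - p - 1)))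
          = (Fintype.card ι * A : ℤ) * 3 ^ (k - p - 1) * (ℓ : ℤ) ^ (k - p - 1) := by ring
        _ ≤ (Fintype.card ι * A : ℤ) * 3 ^ k * (ℓ : ℤ) ^ (k - p - 1) := by
            refine mul_le_mul_of_nonneg_right ?_ h9
            exact mul_le_mul_of_nonneg_left h8 (by positivity)
    have h10 : (Fintype.card ι * A * 3 ^ k : ℤ) < ℓ := by exact_mod_cast hℓ
    have h11 : (0 : ℤ) < (ℓ : ℤ) ^ (k - p - 1) := by positivity
    nlinarith
  · -- p = k
    have hpk' : p = k := by omega
    have hrest : ∑ i with ¬ u i = p, Δ i * (E i : ℤ) = 0 := by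
      apply Finset.sum_eq_zero
      intro i hi
      have hi' : ¬ u i = p := by simpa using hi
      have := hu i
      rw [h0 i (by omega), zero_mul]
    rw [hrest, add_zero]
    refine lt_of_lt_of_le ?_ hp
    positivity

section bounds

variable {α : Type} [Fintype α] [DecidableEq α] {Z W : Type} [Fintype Z] [Fintype W] {N : ℕ}

lemma card_compl (U : Finset α) : Nat.card {a // ¬ a ∈ U} = Fintype.card α - U.card := by
  rw [Nat.card_eq_fintype_card, Fintype.card_subtype_compl, Fintype.card_coe]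

lemma Eset_le (F : SimpleGraph α) (B : W → Z → Prop) (U : Finset α) (Q : Finset W) :
    Eset F B N U Q ≤ (Nat.card (Vt Z W N)) ^ (Fintype.card α - U.card) := by
  unfold Eset
  refine (Nat.card_le_card_of_injective _ Subtype.val_injective).trans ?_
  rw [Nat.card_fun, card_compl]

lemma le_Eset (F : SimpleGraph α) (B : W → Z → Prop) (U : Finset α) (Q : Finset W) :
    (N - Fintype.card α) ^ (Fintype.card α - U.card) ≤ Eset F B N U Q := by
  have h1 : Nat.card ({a // ¬ a ∈ U} ↪ Fin N) = N.descFactorial (Fintype.card α - U.card) := by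
    rw [Nat.card_eq_fintype_card, Fintype.card_embedding_eq, Fintype.card_fin,
      ← Nat.card_eq_fintype_card, card_compl]
  have h2 : (N - Fintype.card α) ^ (Fintype.card α - U.card) ≤
      N.descFactorial (Fintype.card α - U.card) := by
    refine le_trans ?_ (Nat.pow_sub_le_descFactorial _ _)
    exact Nat.pow_le_pow_left (by omega) _
  refine h2.trans ?_
  rw [← h1]
  unfold Eset
  apply Nat.card_le_card_of_injective (fun g : {a // ¬ a ∈ U} ↪ Fin N =>
    (⟨fun a => Vt.d (g a), by
      refine ⟨?_, ?_, ?_, ?_⟩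
      · intro a b hab
        exact g.injective (Vt.d.inj hab)
      · intro a b hab h
        exact F.ne_of_adj hab (congrArg Subtype.val (g.injective h))
      · intro a h
        exact h
      · intro a q _ h
        cases h⟩ : {ρ : {a // ¬ a ∈ U} → Vt Z W N //
    Injective ρ ∧ (∀ a b, F.Adj a.1 b.1 → adj B (ρ a) (ρ b)) ∧ (∀ a, ¬ isZ (ρ a)) ∧
      ∀ a, ∀ q ∈ Q, ρ a ≠ .w q}))
  intro g g' h
  ext a
  have := congrFun (congrArg Subtype.val h) a
  exact congrArg Fin.val (Vt.d.inj this)

lemma EE_le (F : SimpleGraph α) (B : W → Z → Prop) (U : Finset α) (m : ℕ) :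
    EE F B N U m ≤ (Nat.card (Vt Z W N)) ^ (Fintype.card α - U.card) := by
  unfold EE
  split_ifs with h
  · exact Eset_le F B U _
  · exact Nat.zero_le _

lemma le_EE (F : SimpleGraph α) (B : W → Z → Prop) (U : Finset α) (m : ℕ)
    (hm : m ≤ Fintype.card W) :
    (N - Fintype.card α) ^ (Fintype.card α - U.card) ≤ EE F B N U m := by
  unfold EE
  have h : ∃ Q : Finset W, Q.card = m := by
    obtain ⟨Q, _, hQ⟩ := Finset.exists_subset_card_eq (s := (Finset.univ : Finset W)) (n := m)
      (by simpa using hm)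
    exact ⟨Q, hQ⟩
  rw [dif_pos h]
  exact le_Eset F B U _

lemma Ecore_le (F : SimpleGraph α) (B : W → Z → Prop) (S : Finset α) :
    Ecore F B N S ≤ (Nat.card (Vt Z W N)) ^ (Fintype.card α - S.card) := by
  unfold Ecore
  refine (Nat.card_le_card_of_injective _ Subtype.val_injective).trans ?_
  rw [Nat.card_fun, card_compl]

lemma le_Ecore (F : SimpleGraph α) (B : W → Z → Prop) (S : Finset α) :
    (N - Fintype.card α) ^ (Fintype.card α - S.card) ≤ Ecore F B N S := by
  have h1 : Nat.card ({a // ¬ a ∈ S} ↪ Fin N) = N.descFactorial (Fintype.card α - S.card) := by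
    rw [Nat.card_eq_fintype_card, Fintype.card_embedding_eq, Fintype.card_fin,
      ← Nat.card_eq_fintype_card, card_compl]
  have h2 : (N - Fintype.card α) ^ (Fintype.card α - S.card) ≤
      N.descFactorial (Fintype.card α - S.card) := by
    refine le_trans ?_ (Nat.pow_sub_le_descFactorial _ _)
    exact Nat.pow_le_pow_left (by omega) _
  refine h2.trans ?_
  rw [← h1]
  unfold Ecore
  apply Nat.card_le_card_of_injective (fun g : {a // ¬ a ∈ S} ↪ Fin N =>
    (⟨fun a => Vt.d (g a), by
      refine ⟨?_, ?_, ?_, ?_⟩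
      · intro a b hab
        exact g.injective (Vt.d.inj hab)
      · intro a b hab h
        exact F.ne_of_adj hab (congrArg Subtype.val (g.injective h))
      · intro a h
        exact h
      · intro a _
        trivial⟩ : {ρ : {a // ¬ a ∈ S} → Vt Z W N //
    Injective ρ ∧ (∀ a b, F.Adj a.1 b.1 → adj B (ρ a) (ρ b)) ∧ (∀ a, ¬ isH (ρ a)) ∧
      ∀ a : {a // ¬ a ∈ S}, (∃ b ∈ S, F.Adj a.1 b) → isDW (ρ a)}))
  intro g g' h
  ext a
  have := congrFun (congrArg Subtype.val h) a
  exact congrArg Fin.val (Vt.d.inj this)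

lemma card_Vt : Nat.card (Vt Z W N) = Fintype.card Z + Fintype.card W + 6 + 2 * N := by
  have e : Vt Z W N ≃ (Z ⊕ W) ⊕ (Fin 6 ⊕ (Fin N ⊕ Fin N)) :=
    { toFun := fun v => match v with
        | .z x => .inl (.inl x)
        | .w x => .inl (.inr x)
        | .h x => .inr (.inl x)
        | .d x => .inr (.inr (.inl x))
        | .i x => .inr (.inr (.inr x))
      invFun := fun v => match v with
        | .inl (.inl x) => .z x
        | .inl (.inr x) => .w x
        | .inr (.inl x) => .h x
        | .inr (.inr (.inl x)) => .d x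
        | .inr (.inr (.inr x)) => .i x
      left_inv := by rintro (x|x|x|x|x) <;> rfl
      right_inv := by rintro ((x|x)|(x|(x|x))) <;> rfl }
  rw [Nat.card_congr e]
  simp only [Nat.card_eq_fintype_card, Fintype.card_sum, Fintype.card_fin]
  ring

end bounds

end Pool.Agent.Hhelper53.Hyper
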