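import Pool.Agent.Hhelper53.Hyper.Pairs

set_option autoImplicit false
set_option linter.unusedSectionVars false

namespace Pool.Agent.Hhelper53.Hyper

open SimpleGraph Function

section

variable {α : Type} [Fintype α] [DecidableEq α] {Z W : Type} [Fintype Z] [Fintype W] {N : ℕ}

/-- Two nonadjacent leaves `b₀, b₁` with distinct supports `a₀, a₁`. -/
def LeafPair (F : SimpleGraph α) (b₀ b₁ a₀ a₁ : α) : Prop :=
  b₀ ≠ b₁ ∧ a₀ ≠ a₁ ∧ (∀ a, F.Adj b₀ a ↔ a = a₀) ∧ (∀ a, F.Adj b₁ a ↔ a = a₁) ∧ ¬ F.Adj b₀ b₁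

/-- A tied pair of `w` vertices. -/
def Tie (B : W → Z → Prop) (p p' : W) (D D' : ℕ) : Prop :=
  dW B p = dW B p' ∧ D < D' ∧ ∀ f : ℕ → ℤ, SS B f p' - SS B f p = f D' - f D

lemma leaf_support (F : SimpleGraph α) (b : α) (h : dg F b = 1) :
    ∃ a₀, ∀ a, F.Adj b a ↔ a = a₀ := by
  obtain ⟨a₀, ha₀⟩ := Finset.card_eq_one.1 h
  refine ⟨a₀, fun a => ?_⟩
  rw [← mem_nb_single, ha₀, Finset.mem_singleton]

lemma common_eq (F : SimpleGraph α) (B : W → Z → Prop) (Y : Finset α) (a₀ : α) (p p' : W)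
    (hY : Ind F Y) (hnb : nb F Y = {a₀}) (hadj : ∀ y ∈ Y, F.Adj y a₀) (ht : dW B p = dW B p') :
    Psi F B Y (.w p : Vt Z W N) = Psi F B Y (.w p' : Vt Z W N) := by
  classical
  rw [Psi_common_w F B Y a₀ p hY hnb hadj, Psi_common_w F B Y a₀ p' hY hnb hadj]
  have h1 : ∀ y : W, (∑ t : W, if t = y then 0 else (dW B t).descFactorial Y.card) +
      (dW B y).descFactorial Y.card = ∑ t : W, (dW B t).descFactorial Y.card := by
    intro y
    rw [← Finset.sum_filter_add_sum_filter_not (s := Finset.univ) (p := fun t => t = y)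
      (f := fun t => if t = y then 0 else (dW B t).descFactorial Y.card),
      ← Finset.sum_filter_add_sum_filter_not (s := Finset.univ) (p := fun t => t = y)
      (f := fun t => (dW B t).descFactorial Y.card)]
    have h2 : ∑ t with t = y, (if t = y then 0 else (dW B t).descFactorial Y.card) = 0 := by
      apply Finset.sum_eq_zero
      intro t ht
      simp at ht
      simp [ht]
    have h3 : ∑ t with ¬ t = y, (if t = y then 0 else (dW B t).descFactorial Y.card) =
        ∑ t with ¬ t = y, (dW B t).descFactorial Y.card := by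
      apply Finset.sum_congr rfl
      intro t ht
      simp at ht
      simp [ht]
    have h4 : ∑ t with t = y, (dW B t).descFactorial Y.card = (dW B y).descFactorial Y.card := by
      rw [Finset.filter_eq' Finset.univ y]
      simp
    rw [h2, h3, h4]
    ring
  have h2 := h1 p
  have h3 := h1 p'
  rw [ht] at h2
  omega

/-- Classification of the sets `Y`. -/
lemma classify (F : SimpleGraph α) (hiso : ∀ b, 1 ≤ dg F b) (Y : Finset α) :
    Y = ∅ ∨ (¬ Ind F Y) ∨
    (∃ b ∈ Y, 2 ≤ dg F b ∧ 1 + dg F b ≤ (UU F Y).card ∧ ((UU F Y).card = 1 + dg F b → Y = {b})) ∨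
    (Ind F Y ∧ ∃ a₀, nb F Y = {a₀} ∧ ∀ y ∈ Y, F.Adj y a₀) ∨
    (∃ b₀ b₁ a₀ a₁, LeafPair F b₀ b₁ a₀ a₁ ∧ 4 ≤ (UU F Y).card ∧
      ((UU F Y).card = 4 → Y = {b₀, b₁})) := by
  by_cases h1 : Y = ∅
  · left; exact h1
  right
  by_cases h2 : Ind F Y
  swap
  · left; exact h2
  right
  have h3 := card_UU F Y h2
  by_cases h4 : ∃ b ∈ Y, 2 ≤ dg F b
  · left
    obtain ⟨b, hb, hb2⟩ := h4
    have h5 := dg_le F Y b hb
    have h6 : 0 < Y.card := Finset.card_pos.2 ⟨b, hb⟩
    refine ⟨b, hb, hb2, by omega, fun h7 => ?_⟩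
    have h8 : Y.card = 1 := by omega
    obtain ⟨b', rfl⟩ := Finset.card_eq_one.1 h8
    rw [Finset.mem_singleton.1 hb]
  · right
    push Not at h4
    have hleaf : ∀ b ∈ Y, dg F b = 1 := fun b hb => by
      have := h4 b hb
      have := hiso b
      omega
    obtain ⟨b₀, hb₀⟩ := Finset.nonempty_iff_ne_empty.2 h1
    obtain ⟨a₀, ha₀⟩ := leaf_support F b₀ (hleaf b₀ hb₀)
    by_cases h5 : ∀ y ∈ Y, F.Adj y a₀
    · left
      refine ⟨h2, a₀, ?_, h5⟩
      ext a
      rw [mem_nb, Finset.mem_singleton]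
      constructor
      · rintro ⟨y, hy, hya⟩
        obtain ⟨a₁, ha₁⟩ := leaf_support F y (hleaf y hy)
        have e1 := (ha₁ _).1 (h5 y hy)
        have e2 := (ha₁ _).1 hya
        rw [e2, e1]
      · rintro rfl
        exact ⟨b₀, hb₀, h5 b₀ hb₀⟩
    · right
      push Not at h5
      obtain ⟨b₁, hb₁, hb₁a⟩ := h5
      obtain ⟨a₁, ha₁⟩ := leaf_support F b₁ (hleaf b₁ hb₁)
      have hbne : b₀ ≠ b₁ := by
        rintro rfl
        exact hb₁a ((ha₀ _).2 rfl)
      have hane : a₀ ≠ a₁ := by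
        rintro rfl
        exact hb₁a ((ha₁ _).2 rfl)
      have hYsub : ({b₀, b₁} : Finset α) ⊆ Y := by
        intro y hy
        simp only [Finset.mem_insert, Finset.mem_singleton] at hy
        rcases hy with rfl | rfl
        · exact hb₀
        · exact hb₁
      have hnsub : ({a₀, a₁} : Finset α) ⊆ nb F Y := by
        intro y hy
        simp only [Finset.mem_insert, Finset.mem_singleton] at hy
        rw [mem_nb]
        rcases hy with rfl | rfl
        · exact ⟨b₀, hb₀, (ha₀ _).2 rfl⟩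
        · exact ⟨b₁, hb₁, (ha₁ _).2 rfl⟩
      have c1 := Finset.card_le_card hYsub
      have c2 := Finset.card_le_card hnsub
      rw [Finset.card_pair hbne] at c1
      rw [Finset.card_pair hane] at c2
      refine ⟨b₀, b₁, a₀, a₁, ⟨hbne, hane, ha₀, ha₁, h2 _ hb₀ _ hb₁⟩, by omega, fun h7 => ?_⟩
      refine (Finset.eq_of_subset_of_card_le hYsub ?_).symm
      rw [Finset.card_pair hbne]
      omega

lemma pair_diff (F : SimpleGraph α) (B : W → Z → Prop) (b₀ b₁ a₀ a₁ : α) (p p' : W) (D D' : ℕ)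
    (hl : LeafPair F b₀ b₁ a₀ a₁) (ht : Tie B p p' D D') :
    (Psi F B {b₀, b₁} (.w p : Vt Z W N) : ℤ) - Psi F B {b₀, b₁} (.w p' : Vt Z W N) =
      -2 * ((D' : ℤ) - D) := by
  obtain ⟨hb, ha, h0, h1, hna⟩ := hl
  rw [Psi_pair_w F B b₀ b₁ a₀ a₁ p hb ha h0 h1 hna, Psi_pair_w F B b₀ b₁ a₀ a₁ p' hb ha h0 h1 hna,
    LP_eq, LP_eq, ht.1]
  have := ht.2.2 (fun D => 2 * (D : ℤ) - 1)
  linarith

lemma single_diff_tie (F : SimpleGraph α) (B : W → Z → Prop) (b : α) (p p' : W) (D D' : ℕ)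
    (hb : 1 ≤ dg F b) (ht : Tie B p p' D D') :
    (Psi F B {b} (.w p : Vt Z W N) : ℤ) - Psi F B {b} (.w p' : Vt Z W N) =
      dg F b * (fk (dg F b - 1) D' - fk (dg F b - 1) D) := by
  rw [Psi_single_diff F B b p p' hb, ht.2.2]

lemma fk_lt (k D D' : ℕ) (hk : 1 ≤ k) (hD : D < D') (hkD : k < D) : fk k D < fk k D' := by
  unfold fk
  exact_mod_cast descFactorial_lt (D - 1) (D' - 1) k (by omega) hk (by omega)

/-- Tied pair, dominant single vertex of degree `k₂`. -/
lemma tie_single (F : SimpleGraph α) (B : W → Z → Prop) (p p' : W) (D D' : ℕ)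
    (hN : Big (Fintype.card α) (Fintype.card Z) (Fintype.card W) N)
    (hW : Fintype.card α + 1 ≤ Fintype.card W) (hiso : ∀ b, 1 ≤ dg F b)
    (ht : Tie B p p' D D') (hD : Fintype.card α < D) (b₀ : α) (k₂ : ℕ) (hk : 2 ≤ k₂)
    (hb₀ : dg F b₀ = k₂) (hmin : ∀ b, 2 ≤ dg F b → k₂ ≤ dg F b)
    (hlp : k₂ = 2 ∨ ∀ b₀ b₁ a₀ a₁, ¬ LeafPair F b₀ b₁ a₀ a₁) :
    J F (GG B N) (.w p') < J F (GG B N) (.w p) := by
  classical
  have hUk : 1 + k₂ ≤ Fintype.card α := by
    rw [← hb₀, ← UU_single]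
    exact Finset.card_le_univ _
  have hclass : ∀ Y : Finset α,
      Psi F B Y (.w p : Vt Z W N) = Psi F B Y (.w p' : Vt Z W N) ∨
      (1 + k₂ ≤ (UU F Y).card ∧ ((UU F Y).card = 1 + k₂ → ∃ b, Y = {b} ∧ dg F b = k₂)) := by
    intro Y
    rcases classify F hiso Y with h | h | h | h | h
    · left; rw [h, Psi_empty, Psi_empty]
    · left; rw [Psi_dep F B Y _ h, Psi_dep F B Y _ h]
    · right
      obtain ⟨b, hb, hb2, hb3, hb4⟩ := h
      have := hmin b hb2
      refine ⟨by omega, fun h5 => ?_⟩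
      have h6 : dg F b = k₂ := by omega
      exact ⟨b, hb4 (by omega), h6⟩
    · left
      obtain ⟨h1, a₀, h2, h3⟩ := h
      exact common_eq F B Y a₀ p p' h1 h2 h3 ht.1
    · right
      obtain ⟨c₀, c₁, a₀, a₁, h1, h2, h3⟩ := h
      rcases hlp with h4 | h4
      · refine ⟨by omega, fun h5 => by omega⟩
      · exact absurd h1 (h4 _ _ _ _)
  have hpos : ∀ b, dg F b = k₂ →
      (1 : ℤ) ≤ (Psi F B {b} (.w p : Vt Z W N) : ℤ) - Psi F B {b} (.w p' : Vt Z W N) := by
    intro b hb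
    rw [single_diff_tie F B b p p' D D' (by omega) ht, hb]
    have h1 := fk_lt (k₂ - 1) D D' (by omega) ht.2.1 (by omega)
    have h2 : (0 : ℤ) < k₂ * (fk (k₂ - 1) D' - fk (k₂ - 1) D) := by
      apply mul_pos
      · exact_mod_cast (by omega : 0 < k₂)
      · linarith
    omega
  refine outer_sum F B (.w p) (.w p') 1 (1 + k₂) (J_w (N := N) F B p) (J_w (N := N) F B p') hN
    (by omega) hUk ?_ ?_
  · intro Y hY
    rcases hclass Y with h | h
    · exact h
    · omega
  · have h5 := level_ge (fun Y : Finset α =>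
        (Psi F B Y (.w p : Vt Z W N) : ℤ) - Psi F B Y (.w p' : Vt Z W N))
      (fun Y => EE F B N (UU F Y) ((nb F Y).card + 1)) (fun Y => (UU F Y).card) (1 + k₂)
      ((N - Fintype.card α) ^ (Fintype.card α - (1 + k₂))) ?_ {b₀} ?_ ?_ ?_
    · push_cast at h5 ⊢
      exact h5
    · intro Y hY
      rcases hclass Y with h | h
      · show (0 : ℤ) ≤ (Psi F B Y (.w p : Vt Z W N) : ℤ) - Psi F B Y (.w p' : Vt Z W N)
        rw [h]
        simp
      · obtain ⟨b, rfl, hb⟩ := h.2 hY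
        have := hpos b hb
        show (0 : ℤ) ≤ (Psi F B {b} (.w p : Vt Z W N) : ℤ) - Psi F B {b} (.w p' : Vt Z W N)
        omega
    · show (UU F {b₀}).card = 1 + k₂
      rw [UU_single, hb₀]
    · exact hpos b₀ hb₀
    · have h6 := le_EE (N := N) F B (UU F {b₀}) ((nb F {b₀}).card + 1) (by
        have : (nb F {b₀}).card ≤ Fintype.card α := Finset.card_le_univ _
        omega)
      rw [UU_single, hb₀] at h6
      exact h6

/-- Tied pair, leaf pairs dominate. -/
lemma tie_leaf (F : SimpleGraph α) (B : W → Z → Prop) (p p' : W) (D D' : ℕ)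
    (hN : Big (Fintype.card α) (Fintype.card Z) (Fintype.card W) N)
    (hW : Fintype.card α + 1 ≤ Fintype.card W) (hiso : ∀ b, 1 ≤ dg F b)
    (ht : Tie B p p' D D') (b₀ b₁ a₀ a₁ : α) (hl : LeafPair F b₀ b₁ a₀ a₁)
    (hmin : ∀ b, 2 ≤ dg F b → 4 ≤ dg F b) :
    J F (GG B N) (.w p) < J F (GG B N) (.w p') := by
  classical
  have hU4 : (UU F {b₀, b₁}).card = 4 := by
    obtain ⟨hb, ha, h0, h1, hna⟩ := hl
    have hind : Ind F {b₀, b₁} := by
      intro a ha b hb' hab
      simp only [Finset.mem_insert, Finset.mem_singleton] at ha hb'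
      rcases ha with rfl | rfl <;> rcases hb' with rfl | rfl
      · exact F.loopless.irrefl _ hab
      · exact hna hab
      · exact hna hab.symm
      · exact F.loopless.irrefl _ hab
    rw [card_UU F _ hind, Finset.card_pair hb]
    have : nb F {b₀, b₁} = {a₀, a₁} := by
      ext a
      rw [mem_nb]
      simp [h0, h1]
    rw [this, Finset.card_pair ha]
  have hUk : 4 ≤ Fintype.card α := by
    rw [← hU4]
    exact Finset.card_le_univ _
  have hclass : ∀ Y : Finset α,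
      Psi F B Y (.w p : Vt Z W N) = Psi F B Y (.w p' : Vt Z W N) ∨
      (4 ≤ (UU F Y).card ∧ ((UU F Y).card = 4 → ∃ b₀ b₁ a₀ a₁, Y = {b₀, b₁} ∧
        LeafPair F b₀ b₁ a₀ a₁)) := by
    intro Y
    rcases classify F hiso Y with h | h | h | h | h
    · left; rw [h, Psi_empty, Psi_empty]
    · left; rw [Psi_dep F B Y _ h, Psi_dep F B Y _ h]
    · right
      obtain ⟨b, hb, hb2, hb3, hb4⟩ := h
      have := hmin b hb2
      exact ⟨by omega, fun h5 => by omega⟩
    · left
      obtain ⟨h1, a₀, h2, h3⟩ := h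
      exact common_eq F B Y a₀ p p' h1 h2 h3 ht.1
    · right
      obtain ⟨c₀, c₁, a₀, a₁, h1, h2, h3⟩ := h
      exact ⟨h2, fun h4 => ⟨c₀, c₁, a₀, a₁, h3 h4, h1⟩⟩
  have hlt := ht.2.1
  have hpos : ∀ b₀ b₁ a₀ a₁, LeafPair F b₀ b₁ a₀ a₁ →
      (1 : ℤ) ≤ (Psi F B {b₀, b₁} (.w p' : Vt Z W N) : ℤ) - Psi F B {b₀, b₁} (.w p : Vt Z W N) := by
    intro b₀ b₁ a₀ a₁ h
    have := pair_diff (N := N) F B b₀ b₁ a₀ a₁ p p' D D' h ht
    omega
  refine outer_sum F B (.w p') (.w p) 1 4 (J_w (N := N) F B p') (J_w (N := N) F B p) hN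
    (by omega) hUk ?_ ?_
  · intro Y hY
    rcases hclass Y with h | h
    · exact h.symm
    · omega
  · have h5 := level_ge (fun Y : Finset α =>
        (Psi F B Y (.w p' : Vt Z W N) : ℤ) - Psi F B Y (.w p : Vt Z W N))
      (fun Y => EE F B N (UU F Y) ((nb F Y).card + 1)) (fun Y => (UU F Y).card) 4
      ((N - Fintype.card α) ^ (Fintype.card α - 4)) ?_ {b₀, b₁} hU4 (hpos _ _ _ _ hl) ?_
    · push_cast at h5 ⊢
      exact h5
    · intro Y hY
      rcases hclass Y with h | h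
      · show (0 : ℤ) ≤ (Psi F B Y (.w p' : Vt Z W N) : ℤ) - Psi F B Y (.w p : Vt Z W N)
        rw [h]
        simp
      · obtain ⟨c₀, c₁, d₀, d₁, rfl, hb⟩ := h.2 hY
        have := hpos _ _ _ _ hb
        show (0 : ℤ) ≤ (Psi F B {c₀, c₁} (.w p' : Vt Z W N) : ℤ) - Psi F B {c₀, c₁} (.w p : Vt Z W N)
        omega
    · have h6 := le_EE (N := N) F B (UU F {b₀, b₁}) ((nb F {b₀, b₁}).card + 1) (by
        have : (nb F {b₀, b₁}).card ≤ Fintype.card α := Finset.card_le_univ _
        omega)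
      rw [hU4] at h6
      exact h6

/-- Tied pair, a vertex of degree `3` and leaf pairs: the former dominate as `D` is large. -/
lemma tie_three (F : SimpleGraph α) (B : W → Z → Prop) (p p' : W) (D D' : ℕ)
    (hN : Big (Fintype.card α) (Fintype.card Z) (Fintype.card W) N)
    (hW : Fintype.card α + 1 ≤ Fintype.card W) (hiso : ∀ b, 1 ≤ dg F b)
    (ht : Tie B p p' D D') (hD : 2 ^ (Fintype.card α + 1) * 3 ^ Fintype.card α + 3 ≤ D) (b₀ : α)
    (hb₀ : dg F b₀ = 3) (hmin : ∀ b, 2 ≤ dg F b → 3 ≤ dg F b) :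
    J F (GG B N) (.w p') < J F (GG B N) (.w p) := by
  classical
  have hUk : 4 ≤ Fintype.card α := by
    have : (UU F {b₀}).card = 4 := by rw [UU_single, hb₀]
    rw [← this]
    exact Finset.card_le_univ _
  have hclass : ∀ Y : Finset α,
      Psi F B Y (.w p : Vt Z W N) = Psi F B Y (.w p' : Vt Z W N) ∨
      (4 ≤ (UU F Y).card ∧ ((UU F Y).card = 4 → (∃ b₀ b₁ a₀ a₁, Y = {b₀, b₁} ∧
        LeafPair F b₀ b₁ a₀ a₁) ∨ ∃ b, Y = {b} ∧ dg F b = 3)) := by
    intro Y
    rcases classify F hiso Y with h | h | h | h | h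
    · left; rw [h, Psi_empty, Psi_empty]
    · left; rw [Psi_dep F B Y _ h, Psi_dep F B Y _ h]
    · right
      obtain ⟨b, hb, hb2, hb3, hb4⟩ := h
      have := hmin b hb2
      exact ⟨by omega, fun h5 => Or.inr ⟨b, hb4 (by omega), by omega⟩⟩
    · left
      obtain ⟨h1, a₀, h2, h3⟩ := h
      exact common_eq F B Y a₀ p p' h1 h2 h3 ht.1
    · right
      obtain ⟨c₀, c₁, a₀, a₁, h1, h2, h3⟩ := h
      exact ⟨h2, fun h4 => Or.inl ⟨c₀, c₁, a₀, a₁, h3 h4, h1⟩⟩
  have hlt := ht.2.1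
  set ℓ : ℕ := N - Fintype.card α with hℓ
  have hsingle : ∀ b, dg F b = 3 →
      (Psi F B {b} (.w p : Vt Z W N) : ℤ) - Psi F B {b} (.w p' : Vt Z W N) =
        3 * (((D' : ℤ) - D) * (D + D' - 3)) := by
    intro b hb
    rw [single_diff_tie F B b p p' D D' (by omega) ht, hb]
    obtain ⟨m, rfl⟩ : ∃ m, D = m + 2 := ⟨D - 2, by omega⟩
    obtain ⟨m', rfl⟩ : ∃ m', D' = m' + 2 := ⟨D' - 2, by omega⟩
    unfold fk
    simp only [Nat.descFactorial_succ, Nat.descFactorial_zero, Nat.sub_zero, Nat.add_succ_sub_one]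
    push_cast
    ring
  refine outer_sum F B (.w p) (.w p') 1 4 (J_w (N := N) F B p) (J_w (N := N) F B p') hN
    (by omega) hUk ?_ ?_
  · intro Y hY
    rcases hclass Y with h | h
    · exact h
    · omega
  · -- level 4
    set Δ : Finset α → ℤ := fun Y =>
      (Psi F B Y (.w p : Vt Z W N) : ℤ) - Psi F B Y (.w p' : Vt Z W N) with hΔ
    set E : Finset α → ℕ := fun Y => EE F B N (UU F Y) ((nb F Y).card + 1) with hE
    have hEle : ∀ Y : Finset α, (UU F Y).card = 4 → E Y ≤ (3 * ℓ) ^ (Fintype.card α - 4) := by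
      intro Y hY
      have := EE_le (N := N) F B (UU F Y) ((nb F Y).card + 1)
      rw [hY, card_Vt] at this
      exact this.trans (Nat.pow_le_pow_left hN.1 _)
    have hmem : ({b₀} : Finset α) ∈ Finset.univ.filter (fun Y : Finset α => (UU F Y).card = 4) := by
      simp [UU_single, hb₀]
    have hδ : (0 : ℤ) < (D' : ℤ) - D := by omega
    set X : ℤ := (ℓ : ℤ) ^ (Fintype.card α - 4) with hX
    have hX0 : 0 ≤ X := by positivity
    have hbound : ∀ Y ∈ (Finset.univ.filter (fun Y : Finset α => (UU F Y).card = 4)).erase {b₀},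
        -(2 * ((D' : ℤ) - D) * (3 ^ Fintype.card α * X)) ≤ Δ Y * (E Y : ℤ) := by
      intro Y hY
      have hY4 : (UU F Y).card = 4 := by
        have := Finset.mem_of_mem_erase hY
        simpa using this
      have hE1 : (E Y : ℤ) ≤ 3 ^ Fintype.card α * X := by
        have h1 := hEle Y hY4
        have h2 : (E Y : ℤ) ≤ (((3 * ℓ) ^ (Fintype.card α - 4) : ℕ) : ℤ) := by exact_mod_cast h1
        refine h2.trans ?_
        push_cast
        rw [mul_pow]
        refine mul_le_mul_of_nonneg_right ?_ hX0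
        exact pow_le_pow_right₀ (by norm_num) (by omega)
      have hE0 : (0 : ℤ) ≤ E Y := by positivity
      have hrhs : 0 ≤ 2 * ((D' : ℤ) - D) * (3 ^ Fintype.card α * X) := by positivity
      rcases hclass Y with h | h
      · have : Δ Y = 0 := by
          rw [hΔ]
          simp only
          rw [h]
          ring
        rw [this]
        linarith
      · rcases h.2 hY4 with ⟨c₀, c₁, d₀, d₁, rfl, hl⟩ | ⟨b, rfl, hb⟩
        · have h1 := pair_diff (N := N) F B c₀ c₁ d₀ d₁ p p' D D' hl ht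
          have h2 : Δ {c₀, c₁} = -2 * ((D' : ℤ) - D) := h1
          rw [h2]
          nlinarith
        · have h2 : Δ {b} = 3 * (((D' : ℤ) - D) * (D + D' - 3)) := hsingle b hb
          rw [h2]
          have h3 : (0 : ℤ) ≤ (D : ℤ) + D' - 3 := by omega
          have h4 : 0 ≤ 3 * (((D' : ℤ) - D) * (D + D' - 3)) * (E {b} : ℤ) := by positivity
          linarith
    have hsum : -(2 ^ Fintype.card α * (2 * ((D' : ℤ) - D) * (3 ^ Fintype.card α * X))) ≤
        ∑ Y ∈ (Finset.univ.filter (fun Y : Finset α => (UU F Y).card = 4)).erase {b₀},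
          Δ Y * (E Y : ℤ) := by
      have h1 := Finset.sum_le_sum hbound
      rw [Finset.sum_const, nsmul_eq_mul] at h1
      refine le_trans ?_ h1
      have h2 : (((Finset.univ.filter (fun Y : Finset α => (UU F Y).card = 4)).erase {b₀}).card : ℤ) ≤
          2 ^ Fintype.card α := by
        have : ((Finset.univ.filter (fun Y : Finset α => (UU F Y).card = 4)).erase {b₀}).card ≤
            2 ^ Fintype.card α := by
          rw [← Fintype.card_finset]
          exact Finset.card_le_univ _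
        exact_mod_cast this
      have h3 : 0 ≤ 2 * ((D' : ℤ) - D) * (3 ^ Fintype.card α * X) := by positivity
      nlinarith
    have hmain : 3 * (((D' : ℤ) - D) * (D + D' - 3)) * X ≤ Δ {b₀} * (E {b₀} : ℤ) := by
      have h2 : Δ {b₀} = 3 * (((D' : ℤ) - D) * (D + D' - 3)) := hsingle b₀ hb₀
      rw [h2]
      have h3 : (0 : ℤ) ≤ (D : ℤ) + D' - 3 := by omega
      refine mul_le_mul_of_nonneg_left ?_ (by positivity)
      have h6 := le_EE (N := N) F B (UU F {b₀}) ((nb F {b₀}).card + 1) (by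
        have : (nb F {b₀}).card ≤ Fintype.card α := Finset.card_le_univ _
        omega)
      rw [UU_single, hb₀] at h6
      have h7 : ((ℓ ^ (Fintype.card α - 4) : ℕ) : ℤ) ≤ (E {b₀} : ℤ) := by
        exact_mod_cast h6
      push_cast at h7
      exact h7
    have htot : ∑ Y : Finset α with (UU F Y).card = 4, Δ Y * (E Y : ℤ) =
        Δ {b₀} * (E {b₀} : ℤ) +
        ∑ Y ∈ (Finset.univ.filter (fun Y : Finset α => (UU F Y).card = 4)).erase {b₀},
          Δ Y * (E Y : ℤ) := (Finset.add_sum_erase _ _ hmem).symm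
    show X ≤ ∑ Y : Finset α with (UU F Y).card = 4, Δ Y * (E Y : ℤ)
    rw [htot]
    have hDbig : (2 : ℤ) ^ (Fintype.card α + 1) * 3 ^ Fintype.card α + 3 ≤ D := by exact_mod_cast hD
    rw [pow_succ] at hDbig
    have h8 : X * (1 + 2 ^ Fintype.card α * (2 * ((D' : ℤ) - D) * 3 ^ Fintype.card α)) ≤
        X * (3 * (((D' : ℤ) - D) * (D + D' - 3))) := by
      refine mul_le_mul_of_nonneg_left ?_ hX0
      have h9 : (1 : ℤ) ≤ (D' : ℤ) - D := by omega
      have h10 : (2 : ℤ) ^ Fintype.card α * 2 * 3 ^ Fintype.card α + 1 ≤ D + D' - 3 := by omega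
      have h11 : (0 : ℤ) ≤ (2 : ℤ) ^ Fintype.card α * 2 * 3 ^ Fintype.card α := by positivity
      have h12 : (2 : ℤ) ^ Fintype.card α * (2 * ((D' : ℤ) - D) * 3 ^ Fintype.card α) =
        ((2 : ℤ) ^ Fintype.card α * 2 * 3 ^ Fintype.card α) * ((D' : ℤ) - D) := by ring
      rw [h12]
      generalize (2 : ℤ) ^ Fintype.card α * 2 * 3 ^ Fintype.card α = P at h10 h11
      generalize ((D : ℤ) + D' - 3) = S at h10
      generalize ((D' : ℤ) - D) = t at h9
      nlinarith [mul_nonneg h11 (by linarith : (0 : ℤ) ≤ t)]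
    nlinarith

end

end Pool.Agent.Hhelper53.Hyper
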